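import Mathlib
import Pool.Agent.Work.MP_0532f7_lc.SpDefs
import Pool.Agent.Work.MP_0532f7_lc.SlDefs

/-!
Definitions for the tally dichotomy: NP relative to an oracle, and the finite levels of the Borel
hierarchy of the space of all sets of natural numbers.
-/

namespace Pool.Agent.Work.MP_0532f7_lc

/-- `L` is in NP relative to the oracle `X`. -/
def NPRel (X : List Bool → Bool) (L : Set (List Bool)) : Prop :=
  ∃ V : List Bool → List Bool, PolyTimeRel X V ∧ ∃ p : Polynomial ℕ, ∀ z, z ∈ L ↔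
    ∃ y : List Bool, y.length ≤ p.eval z.length ∧ V (pr z y) = [true]

/-- NP = coNP relative to the oracle `X`. -/
def NPeqCoNP (X : List Bool → Bool) : Prop := ∀ L : Set (List Bool), NPRel X L ↔ CoNPRel X L

/-- P = NP relative to the oracle `X`. -/
def PeqNP (X : List Bool → Bool) : Prop := ∀ L : Set (List Bool), PRel X L ↔ NPRel X L

/-- Borel classes of sets of sets of natural numbers: `SigmaSet n S` says that `S` is a
`Σ⁰_{n+1}` set, where `Σ⁰₁` means open and a `Σ⁰_{n+1}` set is a countable union of complements of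
`Σ⁰_n` sets. -/
def SigmaSet : ℕ → Set (ℕ → Bool) → Prop
  | 0, S => IsOpen S
  | n + 1, S => ∃ V : ℕ → Set (ℕ → Bool), (∀ k, SigmaSet n (V k)ᶜ) ∧ S = ⋃ k, V k

/-- `S` is a `Σ⁰₄`-complete set: it is `Σ⁰₄` (`SigmaSet 3`), and every `Σ⁰₄` set is the preimage
of `S` under a continuous map. -/
def SigmaFourComplete (S : Set (ℕ → Bool)) : Prop :=
  SigmaSet 3 S ∧ ∀ S', SigmaSet 3 S' →
    ∃ F : (ℕ → Bool) → ℕ → Bool, Continuous F ∧ F ⁻¹' S = S'

end Pool.Agent.Work.MP_0532f7_lc
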