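import Mathlib
import Pool.Agent.Work.MP_0532f7_lc.TD.Defs

/-!
# TD.BorBas (size S-M, Mathlib and Defs only): closure properties of the Borel classes

`SigmaSet 0 S` is `IsOpen S`; `SigmaSet (n+1) S` says `S = ⋃ k, V k` with `SigmaSet n (V k)ᶜ`.

* `sig_pi`: constant sequence `V k = S`.
* `sig_iUnion`: `n = 0`: `isOpen_iUnion`.  `n + 1`: choose the sequences `V k j` and re-index by
  `Nat.unpair`.
* `sig_union`: `sig_iUnion` for the sequence `S, S', S', ...`.
* `sig_inter`: induction on `n`.  `n = 0`: `IsOpen.inter`.  `n + 1`: `S ∩ S' = ⋃ k l, V k ∩ V' l` and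
  `(V k ∩ V' l)ᶜ = (V k)ᶜ ∪ (V' l)ᶜ` is `SigmaSet n` by `sig_union`.
* `sig_clopen`: `n = 0` clear; `n + 1`: `sig_pi` and induction (`IsClopen.compl`).
* `sig_succ`: induction on `n`.  `n = 0`: an open set of the metrizable space `ℕ → Bool` is a
  countable union of closed sets (`IsOpen.exists_iUnion_isClosed`, or the F-sigma lemma for
  `TopologicalSpace.MetrizableSpace`; `letI := TopologicalSpace.metrizableSpaceMetric (ℕ → Bool)`).
  `n + 1`: apply the induction hypothesis to the sets `(V k)ᶜ`.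
-/

set_option autoImplicit false

namespace Pool.Agent.Work.MP_0532f7_lc.TD

theorem sig_pi {n : ℕ} {S : Set (ℕ → Bool)} (h : SigmaSet n Sᶜ) : SigmaSet (n + 1) S :=
  ⟨fun _ => S, fun _ => h, (Set.iUnion_const S).symm⟩

theorem sig_iUnion {n : ℕ} {V : ℕ → Set (ℕ → Bool)} (h : ∀ k, SigmaSet n (V k)) :
    SigmaSet n (⋃ k, V k) := by
  cases n with
  | zero => exact isOpen_iUnion h
  | succ n =>
    choose W hW1 hW2 using h
    refine ⟨fun j => W (Nat.unpair j).1 (Nat.unpair j).2, fun j => hW1 _ _, ?_⟩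
    ext y
    simp only [Set.mem_iUnion]
    constructor
    · rintro ⟨k, hk⟩
      rw [hW2 k, Set.mem_iUnion] at hk
      obtain ⟨l, hl⟩ := hk
      exact ⟨Nat.pair k l, by rw [Nat.unpair_pair]; exact hl⟩
    · rintro ⟨j, hj⟩
      refine ⟨(Nat.unpair j).1, ?_⟩
      rw [hW2, Set.mem_iUnion]
      exact ⟨_, hj⟩

theorem sig_union {n : ℕ} {S S' : Set (ℕ → Bool)} (h : SigmaSet n S) (h' : SigmaSet n S') :
    SigmaSet n (S ∪ S') := by
  have h1 : S ∪ S' = ⋃ k : ℕ, (if k = 0 then S else S') := by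
    ext y
    simp only [Set.mem_union, Set.mem_iUnion]
    constructor
    · rintro (h | h)
      · exact ⟨0, by simpa using h⟩
      · exact ⟨1, by simpa using h⟩
    · rintro ⟨k, hk⟩
      by_cases h0 : k = 0
      · left
        simpa [h0] using hk
      · right
        simpa [h0] using hk
  rw [h1]
  apply sig_iUnion
  intro k
  by_cases h0 : k = 0
  · simpa [h0] using h
  · simpa [h0] using h'

theorem sig_inter {n : ℕ} {S S' : Set (ℕ → Bool)} (h : SigmaSet n S) (h' : SigmaSet n S') :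
    SigmaSet n (S ∩ S') := by
  cases n with
  | zero => exact IsOpen.inter h h'
  | succ n =>
    obtain ⟨V, hV1, hV2⟩ := h
    obtain ⟨V', hV1', hV2'⟩ := h'
    refine ⟨fun j => V (Nat.unpair j).1 ∩ V' (Nat.unpair j).2, fun j => ?_, ?_⟩
    · rw [Set.compl_inter]
      exact sig_union (hV1 _) (hV1' _)
    · ext y
      rw [hV2, hV2']
      simp only [Set.mem_inter_iff, Set.mem_iUnion]
      constructor
      · rintro ⟨⟨k, hk⟩, l, hl⟩
        exact ⟨Nat.pair k l, by rw [Nat.unpair_pair]; exact ⟨hk, hl⟩⟩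
      · rintro ⟨j, h1, h2⟩
        exact ⟨⟨_, h1⟩, _, h2⟩

theorem sig_clopen {n : ℕ} {S : Set (ℕ → Bool)} (h : IsClopen S) : SigmaSet n S := by
  induction n generalizing S with
  | zero => exact h.isOpen
  | succ n ih => exact sig_pi (ih h.compl)

theorem sig_succ {n : ℕ} {S : Set (ℕ → Bool)} (h : SigmaSet n S) : SigmaSet (n + 1) S := by
  induction n generalizing S with
  | zero =>
    let _ := TopologicalSpace.metrizableSpaceMetric (ℕ → Bool)
    obtain ⟨F, hF1, -, hF2, -⟩ := IsOpen.exists_iUnion_isClosed (h : IsOpen S)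
    exact ⟨F, fun k => (hF1 k).isOpen_compl, hF2.symm⟩
  | succ n ih =>
    obtain ⟨V, hV1, hV2⟩ := h
    exact ⟨V, fun k => ih (hV1 k), hV2⟩

end Pool.Agent.Work.MP_0532f7_lc.TD
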