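import Mathlib

/-!
# The finite injury construction (definitions)

We build a set `T` of numbers (its characteristic function is `T : ℕ → Bool`).  A position
`i = Nat.pair r s` belongs to the row `r`:

* row `4 * Nat.pair a v` (`rowP a v`): PERMISSION bits of the level `a` for the program `v`;
* row `4 * m + 1`: DATA bits of the slot `m`;
* row `4 * m + 2`: START marks of the records of the slot `m`;
* row `4 * m + 3`: END marks of the records of the slot `m`.

A state consists of the cut `N` (the bits below `N` are fixed), the bits `τ`, the finite set `L` of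
the programs that are alive, and the number `t` of the current task.
`cd N τ L` is the CLOSED default continuation (all permission bits of the programs in `L` are `1`,
everything else is `0`).  `ex N τ L m z` is the continuation with a record `z` of the slot `m`: it
agrees with `cd N τ L` below `reg N z`, and from `reg N z` on (the OPEN region) the permission bits
of the level `a` for the program `v` are switched off if `a ≤ m ≤ v`, and the record is written in
the rows of the slot `m`.

`U v s τ` is an abstract predicate: 'some computation of the program `v`, decided by the bits of `τ`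
below `s`, has a wrong result'.
-/

set_option autoImplicit false

namespace Pool.Agent.Work.MP_0532f7_lc.TD

/-- row of the permission bits of the level `a` for the program `v` -/
def rowP (a v : ℕ) : ℕ := 4 * Nat.pair a v

/-- start of the open region -/
def reg (N : ℕ) (z : List Bool) : ℕ := z.length + (N + 1) ^ 3

/-- the closed default continuation -/
def cd (N : ℕ) (τ : ℕ → Bool) (L : Finset ℕ) (i : ℕ) : Bool :=
  if i < N then τ i else
    decide ((Nat.unpair i).1 % 4 = 0 ∧ (Nat.unpair ((Nat.unpair i).1 / 4)).2 ∈ L)

/-- the continuation with the record `z` of the slot `m` -/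
def ex (N : ℕ) (τ : ℕ → Bool) (L : Finset ℕ) (m : ℕ) (z : List Bool) (i : ℕ) : Bool :=
  if i < N then τ i
  else if (Nat.unpair i).1 % 4 = 0 then
    decide ((Nat.unpair ((Nat.unpair i).1 / 4)).2 ∈ L ∧
      ¬ (reg N z ≤ i ∧ (Nat.unpair ((Nat.unpair i).1 / 4)).1 ≤ m ∧
        m ≤ (Nat.unpair ((Nat.unpair i).1 / 4)).2))
  else if (Nat.unpair i).1 / 4 = m ∧ reg N z ≤ (Nat.unpair i).2 then
    if (Nat.unpair i).1 % 4 = 1 then z.getD ((Nat.unpair i).2 - reg N z) false
    else if (Nat.unpair i).1 % 4 = 2 then decide ((Nat.unpair i).2 = reg N z)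
    else decide ((Nat.unpair i).2 = reg N z + z.length)
  else false

/-- a complete record of the slot `m` from the column `n` to the column `n + R` -/
def Read (T : ℕ → Bool) (m n R : ℕ) : Prop :=
  T (Nat.pair (4 * m + 2) n) = true ∧ T (Nat.pair (4 * m + 3) (n + R)) = true ∧
    (∀ j, n < j → j ≤ n + R → T (Nat.pair (4 * m + 2) j) = false) ∧
    (∀ j, n ≤ j → j < n + R → T (Nat.pair (4 * m + 3) j) = false)

/-- the data bits of the slot `m` in the columns `n`, ..., `n + R - 1` -/
def word (T : ℕ → Bool) (m n R : ℕ) : List Bool :=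
  (List.range R).map (fun q => T (Nat.pair (4 * m + 1) (n + q)))

/-- states of the construction -/
structure St : Type where
  /-- the cut -/
  N : ℕ
  /-- the bits (only those below `N` matter) -/
  τ : ℕ → Bool
  /-- the programs that are alive -/
  L : Finset ℕ
  /-- the number of the current task -/
  t : ℕ

section

variable (U : ℕ → ℕ → (ℕ → Bool) → Prop) (𝓛 : Set (List Bool)) (M : ℕ → ℕ → ℕ → ℕ)
  (H : ℕ → ℕ → ℕ → Finset ℕ → (ℕ → Bool) → List Bool → Prop)

/-- invariant of the states -/
structure Inv (st : St) : Prop where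
  good : ∀ v ∈ st.L, ¬ U v st.N st.τ
  lt : ∀ v ∈ st.L, v < st.t
  dead : ∀ v < st.t, v ∉ st.L → U v st.N st.τ
  le : st.t ≤ st.N

/-- the closed default continuation never makes a living program wrong -/
def Safe (st : St) : Prop := ∀ v ∈ st.L, ∀ s, ¬ U v s (cd st.N st.τ st.L)

open Classical in
/-- the programs that are still alive at the next state, when the new bits are `τ'` up to `N'` -/
noncomputable def surv (L : Finset ℕ) (N' : ℕ) (τ' : ℕ → Bool) : Finset ℕ :=
  L.filter (fun v => ¬ U v N' τ')

open Classical in
/-- activation of the program number `t` -/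
noncomputable def activ (L : Finset ℕ) (t N' : ℕ) (τ' : ℕ → Bool) : Finset ℕ :=
  if U t N' τ' then L else insert t L

/-- a step that kills a program in the closed default continuation -/
structure StepA (st st' : St) : Prop where
  bits : st'.τ = cd st.N st.τ st.L
  kill : ∃ v ∈ st.L, U v st'.N st'.τ
  first : ∀ s < st'.N, ∀ v ∈ st.L, ¬ U v s st'.τ
  alive : st'.L = surv U st.L st'.N st'.τ
  task : st'.t = st.t

/-- a step that kills a program `v ≤ m` by an arbitrary record `z` of the slot `m` -/
structure StepB (m k : ℕ) (st st' : St) (z : List Bool) : Prop where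
  safe : Safe U st
  bits : st'.τ = ex st.N st.τ st.L m z
  cut : st'.N ≤ M m k (reg st.N z)
  kill : ∃ v ∈ st.L, v ≤ m ∧ U v st'.N st'.τ
  first : ∀ s < st'.N, ∀ v ∈ st.L, v ≤ m → ¬ U v s st'.τ
  alive : st'.L = surv U st.L st'.N st'.τ
  task : st'.t = st.t

/-- a step that kills some program by a true record `z` of the slot `m` -/
structure StepC (m k : ℕ) (st st' : St) (z : List Bool) : Prop where
  safe : Safe U st
  true' : z ∈ 𝓛
  bits : st'.τ = ex st.N st.τ st.L m z
  cut : st'.N ≤ M m k (reg st.N z)
  kill : ∃ v ∈ st.L, U v st'.N st'.τ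
  first : ∀ s < st'.N, ∀ v ∈ st.L, ¬ U v s st'.τ
  alive : st'.L = surv U st.L st'.N st'.τ
  task : st'.t = st.t

/-- a step that fulfils the task: a true and hard record `z` of the slot `m` -/
structure StepD (m k : ℕ) (st st' : St) (z : List Bool) : Prop where
  safe : Safe U st
  true' : z ∈ 𝓛
  bits : st'.τ = ex st.N st.τ st.L m z
  cut : st'.N = M m k (reg st.N z)
  sound : ∀ v ∈ st.L, ¬ U v st'.N st'.τ
  hard : ¬ H m k (reg st.N z) st.L st'.τ z
  alive : st'.L = activ U st.L st.t st'.N st'.τ
  task : st'.t = st.t + 1

/-- one step with the slot `m` and the exponent `k` -/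
def Next (m k : ℕ) (st st' : St) : Prop :=
  StepA U st st' ∨ (∃ z, StepB U M m k st st' z) ∨ (∃ z, StepC U 𝓛 M m k st st' z) ∨
    ∃ z, StepD U 𝓛 M H m k st st' z

/-- assumptions on the parameters of the construction -/
structure Par : Prop where
  /-- more bits decide more computations -/
  umono : ∀ v s s' τ, s ≤ s' → U v s τ → U v s' τ
  /-- `U v s` depends on the bits below `s` only -/
  uloc : ∀ v s τ τ', (∀ j < s, τ j = τ' j) → U v s τ → U v s τ'
  /-- the region is long enough for the record -/
  mbig : ∀ m k n, (4 * m + 2 * n + 6) ^ 2 < M m k n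
  mmono : ∀ m m' k k' n n', m ≤ m' → k ≤ k' → n ≤ n' → M m k n ≤ M m' k' n'
  /-- `H m k n` depends on the bits below `M m k n` only -/
  hloc : ∀ m k n L τ τ' z, (∀ j < M m k n, τ j = τ' j) → H m k n L τ z → H m k n L τ' z
  /-- if no record kills then there is a hard true record -/
  hhard : ∀ N τ L m k, (∀ z, ∀ v ∈ L, v ≤ m → ¬ U v (M m k (reg N z)) (ex N τ L m z)) →
    ∃ z ∈ 𝓛, ¬ H m k (reg N z) L (ex N τ L m z) z

/-- a run of the construction, with slots `slot` and exponents `κ` -/
structure InRun (slot κ : ℕ → ℕ) (st : ℕ → St) (T : ℕ → Bool) : Prop where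
  next : ∀ j, Next U 𝓛 M H (slot (st j).t) (κ (st j).t) (st j) (st (j + 1))
  inv : ∀ j, Inv U (st j)
  grow : ∀ j, (st j).N < (st (j + 1)).N
  agree : ∀ j i, i < (st j).N → T i = (st j).τ i
  /-- every task is reached -/
  tasks : ∀ t, ∃ j, (st j).t = t ∧ (st (j + 1)).t = t + 1

end

end Pool.Agent.Work.MP_0532f7_lc.TD
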