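import Mathlib
import Pool.Agent.Work.MP_0532f7_lc.SpSet
import Pool.Agent.Work.MP_0532f7_lc.SlClo
import Pool.Agent.Work.MP_0532f7_lc.TD.Defs
import Pool.Agent.Work.MP_0532f7_lc.TD.InDefs

/-!
# The concrete parameters of the construction (definitions)

`ZT A τ` is the oracle `A ⊕ 1^T`, where `τ` is the characteristic function of `T`.  A context of the
universal computation `run` (SpRun) is `pr (num v) (pr x t)` (program number `v`, input `x`, clock
`t`).  `UU A P v s τ` (= `Uns` of SpSet) says that some computation of the program `v` with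
`P.eval (2 * v + 2 * |x| + |t| + 2) < s` has a result which is not a tautology relative to `ZT A τ`.
`RunLoc P` is the conclusion of `run_local`.

`HO` is 'a short proof of `tf z` exists', `HP` is 'a proof of `tf z` is found by a fast program'.
-/

set_option autoImplicit false

namespace Pool.Agent.Work.MP_0532f7_lc.TD

/-- the oracle `A ⊕ 1^T` -/
def ZT (A : List Bool → Bool) (τ : ℕ → Bool) : List Bool → Bool := ojoin A (tally τ)

/-- the length bound of the exponent `k` -/
def bb (k n : ℕ) : ℕ := (n + 1) ^ k + k

/-- the end of the region -/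
def MM (P : Polynomial ℕ) (m k n : ℕ) : ℕ :=
  P.eval (3 * bb k n + 2 * m + 2) + (4 * m + 2 * n + 6) ^ 2 + 1

/-- `P` bounds the part of the oracle that is relevant for the universal computation -/
def RunLoc (P : Polynomial ℕ) : Prop := ∀ (Y Y' : List Bool → Bool) (u : List Bool) (N : ℕ),
  u.length ≤ N → (∀ y : List Bool, y.length ≤ P.eval N → Y y = Y' y) →
    run Y' u = run Y u ∧ (run Y' u ∈ OTAUT Y' → run Y u ∈ OTAUT Y)

/-- some computation of the program `v` decided below `s` is wrong -/
def UU (A : List Bool → Bool) (P : Polynomial ℕ) (v s : ℕ) (τ : ℕ → Bool) : Prop :=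
  Uns (ZT A) P v s τ

/-- a living program `v ≤ m` outputs `tf z` on a short input -/
def HO (A : List Bool → Bool) (tf : List Bool → List Bool) (m k n : ℕ) (L : Finset ℕ)
    (τ : ℕ → Bool) (z : List Bool) : Prop :=
  ∃ v ∈ L, v ≤ m ∧ ∃ x t : List Bool, x.length ≤ bb k n ∧ t.length ≤ bb k n ∧
    run (ZT A τ) (pr (num v) (pr x t)) = tf z

/-- the proof of the record `z` in the column `n` in the system that trusts a slot -/
def inpW (n : ℕ) (z : List Bool) : List Bool := true :: pr (un n) (un z.length)

/-- a living program `v ≤ m` outputs `tf z` on an input computed by a program `j ≤ k` -/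
def HP (A : List Bool → Bool) (tf : List Bool → List Bool) (m k n : ℕ) (L : Finset ℕ)
    (τ : ℕ → Bool) (z : List Bool) : Prop :=
  ∃ v ∈ L, v ≤ m ∧ ∃ j ≤ k,
    run (ZT A τ) (pr (num v) (pr (((uni (num j) (inpW n z) (un (bb k n))).tail).take (bb k n))
      (un (bb k n)))) = tf z

theorem loc_ZT (A : List Bool → Bool) : Loc (ZT A) := by
  intro τ τ' y h
  match y with
  | [] => rfl
  | false :: x => rfl
  | true :: x =>
    show tally τ x = tally τ' x
    unfold tally
    rw [h x.length (by simp)]

end Pool.Agent.Work.MP_0532f7_lc.TD
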