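import Mathlib
import Pool.Agent.Work.MP_0532f7_lc.SlPar
import Pool.Agent.Work.MP_0532f7_lc.SlDec
import Pool.Agent.Work.MP_0532f7_lc.TD.CDefs
import Pool.Agent.Work.MP_0532f7_lc.TD.BorBas

/-!
# The upper bound: the sets are `Σ⁰₄`
-/

set_option autoImplicit false

namespace Pool.Agent.Work.MP_0532f7_lc.TD

open Polynomial

theorem loc_open {p : (ℕ → Bool) → Prop}
    (h : ∀ T, p T → ∃ N, ∀ T' : ℕ → Bool, (∀ i < N, T' i = T i) → p T') : IsOpen {T | p T} := by
  rw [isOpen_iff_forall_mem_open]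
  intro T hT
  obtain ⟨N, hN⟩ := h T hT
  refine ⟨{T' | ∀ i < N, T' i = T i}, fun T' hT' => hN T' hT', ?_, fun i _ => rfl⟩
  have e : {T' : ℕ → Bool | ∀ i < N, T' i = T i} =
      ⋂ i ∈ Set.Iio N, (fun T' : ℕ → Bool => T' i) ⁻¹' {T i} := by
    ext T'
    simp
  rw [e]
  exact (Set.finite_Iio N).isOpen_biInter fun i _ =>
    (isOpen_discrete _).preimage (continuous_apply i)

theorem loc_clopen {p : (ℕ → Bool) → Prop}
    (h : ∃ N, ∀ T T' : ℕ → Bool, (∀ i < N, T' i = T i) → p T → p T') : IsClopen {T | p T} := by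
  obtain ⟨N, hN⟩ := h
  constructor
  · rw [← isOpen_compl_iff]
    exact loc_open (p := fun T => ¬ p T) fun T hT => ⟨N, fun T' hT' h' =>
      hT (hN T' T (fun i hi => (hT' i hi).symm) h')⟩
  · exact loc_open fun T hT => ⟨N, fun T' hT' => hN T T' hT' hT⟩

theorem sig_closed {S : Set (ℕ → Bool)} (h : IsClosed S) : SigmaSet 1 S :=
  sig_pi (n := 0) h.isOpen_compl

theorem sig_words {n : ℕ} {V : List Bool → Set (ℕ → Bool)} (h : ∀ w, SigmaSet n (V w)) :
    SigmaSet n (⋃ w, V w) := by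
  have e : (⋃ w, V w) = ⋃ i : ℕ, V (num i) := by
    ext T
    simp only [Set.mem_iUnion]
    constructor
    · rintro ⟨w, hw⟩
      exact ⟨val w, by rw [num_val]; exact hw⟩
    · rintro ⟨i, hi⟩
      exact ⟨_, hi⟩
  rw [e]
  exact sig_iUnion fun i => h _

section

variable (A : List Bool → Bool) (Q C O : ℕ → List Bool → List Bool)

/-- the computation number `e` -/
def cmp (e : ℕ) (T : ℕ → Bool) (w : List Bool) : List Bool :=
  O e (pr w (answers (Q e) (ZT A T) w (C e w).length))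

variable {A Q C O}

omit Q C O in
theorem mem_congr {c : List Bool} {T T' : ℕ → Bool} (h : ∀ i < c.length + 1, T' i = T i)
    (hc : c ∈ OTAUT (ZT A T)) : c ∈ OTAUT (ZT A T') := by
  obtain ⟨φ, h1, h2⟩ := hc
  refine ⟨φ, h1, fun v => ?_⟩
  rw [← h2 v]
  apply eval_len
  intro x hx
  rw [h1] at hx
  exact loc_ZT A _ _ _ fun j hj => h j (by omega)

omit Q C O in
theorem mem_local (c : List Bool) : IsClopen {T | c ∈ OTAUT (ZT A T)} :=
  loc_clopen ⟨c.length + 1, fun _ _ h hc => mem_congr h hc⟩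

variable {PD : ℕ → Polynomial ℕ} (hPD : ∀ (e : ℕ) (w : List Bool) (V : ℕ), w.length ≤ V →
  (C e w).length ≤ (PD e).eval V ∧ ∀ (X : List Bool → Bool) (k : ℕ), k ≤ (C e w).length →
    (Q e (pr w (answers (Q e) X w k))).length ≤ (PD e).eval V)

include hPD

theorem cmp_local (e V : ℕ) {T T' : ℕ → Bool} (h : ∀ i < (PD e).eval V + 1, T' i = T i)
    (w : List Bool) (hw : w.length ≤ V) : cmp A Q C O e T' w = cmp A Q C O e T w := by
  unfold cmp
  congr 2
  apply answers_congr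
  intro k hk
  have h1 := (hPD e w V hw).2 (ZT A T) k hk.le
  exact loc_ZT A _ _ _ fun j hj => (h j (by omega)).symm

theorem PS_sig (hO : ∀ e, ∃ PO : Polynomial ℕ, ∀ x, (O e x).length ≤ PO.eval x.length) (e : ℕ) : SigmaSet 1 {T | Set.range (cmp A Q C O e T) = OTAUT (ZT A T)}ᶜ := by
  have e1 : {T | Set.range (cmp A Q C O e T) = OTAUT (ZT A T)}ᶜ =
      (⋃ w, {T | cmp A Q C O e T w ∉ OTAUT (ZT A T)}) ∪
      ⋃ c, ({T | c ∈ OTAUT (ZT A T)} ∩ {T | ∀ w, cmp A Q C O e T w ≠ c}) := by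
    ext T
    simp only [Set.mem_compl_iff, Set.mem_ofPred_eq, Set.mem_union, Set.mem_iUnion,
      Set.mem_inter_iff]
    rw [← not_iff_not, not_not, not_or]
    push Not
    constructor
    · intro h
      refine ⟨fun w => by rw [← h]; exact ⟨w, rfl⟩, fun c hc => ?_⟩
      rw [← h] at hc
      exact hc
    · rintro ⟨h1, h2⟩
      apply Set.Subset.antisymm
      · rintro _ ⟨w, rfl⟩
        exact h1 w
      · intro c hc
        exact h2 c hc
  rw [e1]
  refine sig_union (sig_words fun w => ?_) (sig_words fun c => sig_inter (sig_clopen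
    (mem_local c)) (sig_closed ?_))
  · apply sig_clopen
    apply loc_clopen
    obtain ⟨B, hB⟩ : ∃ B, ∀ T, (cmp A Q C O e T w).length ≤ B := by
      obtain ⟨PO, hPO⟩ := hO e
      refine ⟨PO.eval (2 * w.length + 1 + (C e w).length), fun T => ?_⟩
      unfold cmp
      refine (hPO _).trans ?_
      rw [pr_length, answers_length]
    refine ⟨(PD e).eval w.length + 1 + (B + 1), fun T T' h hT hT' => hT ?_⟩
    rw [cmp_local hPD e w.length (fun i hi => h i (by omega)) w le_rfl] at hT'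
    have h1 := hB T
    exact mem_congr (fun i hi => (h i (by omega)).symm) hT'
  · rw [← isOpen_compl_iff]
    have e2 : {T | ∀ w, cmp A Q C O e T w ≠ c}ᶜ = ⋃ w, {T | cmp A Q C O e T w = c} := by
      ext T
      simp
    rw [e2]
    refine isOpen_iUnion fun w => (loc_clopen ⟨(PD e).eval w.length + 1, fun T T' h hT => ?_⟩).isOpen
    rw [cmp_local hPD e w.length h w le_rfl]
    exact hT

/-- the general upper bound -/
theorem opt_sig (hO : ∀ e, ∃ PO : Polynomial ℕ, ∀ x, (O e x).length ≤ PO.eval x.length)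
    {Sim : ℕ → ℕ → Set (ℕ → Bool)} (hSim : ∀ e e', SigmaSet 1 (Sim e e')) :
    SigmaSet 3 {T | ∃ e, Set.range (cmp A Q C O e T) = OTAUT (ZT A T) ∧
      ∀ e', Set.range (cmp A Q C O e' T) = OTAUT (ZT A T) → T ∈ Sim e e'} := by
  refine ⟨fun e => {T | Set.range (cmp A Q C O e T) = OTAUT (ZT A T) ∧
      ∀ e', Set.range (cmp A Q C O e' T) = OTAUT (ZT A T) → T ∈ Sim e e'}, fun e => ?_, ?_⟩
  · have e1 : {T | Set.range (cmp A Q C O e T) = OTAUT (ZT A T) ∧
        ∀ e', Set.range (cmp A Q C O e' T) = OTAUT (ZT A T) → T ∈ Sim e e'}ᶜ =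
        {T | Set.range (cmp A Q C O e T) = OTAUT (ZT A T)}ᶜ ∪
          ⋃ e', ({T | Set.range (cmp A Q C O e' T) = OTAUT (ZT A T)} ∩ (Sim e e')ᶜ) := by
      ext T
      simp only [Set.mem_compl_iff, Set.mem_ofPred_eq, Set.mem_union, Set.mem_iUnion,
        Set.mem_inter_iff]
      rw [not_and_or]
      push Not
      rfl
    rw [e1]
    refine sig_union (sig_succ (PS_sig hPD hO e)) (sig_iUnion fun e' => sig_inter
      (sig_pi (PS_sig hPD hO e')) (sig_pi ?_))
    rw [compl_compl]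
    exact hSim e e'
  · ext T
    simp only [Set.mem_ofPred_eq, Set.mem_iUnion]

end

theorem optimal_sig (A : List Bool → Bool) : SigmaSet 3 {T | ∃ f, OptimalRel (ZT A T) f} := by
  obtain ⟨Q, C, O, PD, hpt, hsur, -, hPD⟩ := exists_enum
  have hO : ∀ e, ∃ PO : Polynomial ℕ, ∀ x, (O e x).length ≤ PO.eval x.length :=
    fun e => (hpt e).2.2.fp.length
  have hcmp : ∀ e T, PolyTimeRel (ZT A T) (cmp A Q C O e T) := fun e T =>
    ⟨Q e, C e, O e, (hpt e).1, (hpt e).2.1, (hpt e).2.2, fun w => rfl⟩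
  have hex : ∀ T f, PolyTimeRel (ZT A T) f → ∃ e, f = cmp A Q C O e T := by
    rintro T f ⟨Q', C', O', h1, h2, h3, h4⟩
    obtain ⟨e, rfl, rfl, rfl⟩ := hsur Q' C' O' h1 h2 h3
    exact ⟨e, funext h4⟩
  have key := opt_sig (A := A) hPD hO (Sim := fun e e' => ⋃ k : ℕ, {T | ∀ w : List Bool,
    ∃ w' : List Bool, w'.length ≤ w.length ^ k + k ∧ cmp A Q C O e T w' = cmp A Q C O e' T w})
    (fun e e' => sig_iUnion fun k => sig_closed (by
      rw [← isOpen_compl_iff]
      have e2 : {T | ∀ w : List Bool, ∃ w' : List Bool, w'.length ≤ w.length ^ k + k ∧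
          cmp A Q C O e T w' = cmp A Q C O e' T w}ᶜ = ⋃ w : List Bool,
          {T | ∃ w' : List Bool, w'.length ≤ w.length ^ k + k ∧
            cmp A Q C O e T w' = cmp A Q C O e' T w}ᶜ := by
        ext T
        simp
      rw [e2]
      refine isOpen_iUnion fun w => (loc_clopen ⟨(PD e).eval (w.length ^ k + k) + 1 +
        ((PD e').eval w.length + 1), fun T T' h hT => ?_⟩).compl.isOpen
      obtain ⟨w', h1, h2⟩ := hT
      refine ⟨w', h1, ?_⟩
      rw [cmp_local hPD e (w.length ^ k + k) (fun i hi => h i (by omega)) w' h1,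
        cmp_local hPD e' w.length (fun i hi => h i (by omega)) w le_rfl, h2]))
  have e : {T | ∃ f, OptimalRel (ZT A T) f} = {T | ∃ e, Set.range (cmp A Q C O e T) =
      OTAUT (ZT A T) ∧ ∀ e', Set.range (cmp A Q C O e' T) = OTAUT (ZT A T) →
      T ∈ ⋃ k : ℕ, {T | ∀ w : List Bool, ∃ w' : List Bool, w'.length ≤ w.length ^ k + k ∧
        cmp A Q C O e T w' = cmp A Q C O e' T w}} := by
    ext T
    simp only [Set.mem_ofPred_eq, Set.mem_iUnion]
    constructor
    · rintro ⟨f, ⟨hf, hr⟩, hopt⟩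
      obtain ⟨e, rfl⟩ := hex T f hf
      refine ⟨e, hr, fun e' he' => ?_⟩
      obtain ⟨h, p, hh⟩ := hopt _ ⟨hcmp e' T, he'⟩
      obtain ⟨K, hK⟩ := poly_le_pow p
      exact ⟨K, fun w => ⟨h w, (hh w).2.trans (hK _), (hh w).1⟩⟩
    · rintro ⟨e, hr, hopt⟩
      refine ⟨_, ⟨hcmp e T, hr⟩, fun g hg => ?_⟩
      obtain ⟨e', rfl⟩ := hex T g hg.1
      obtain ⟨k, hk⟩ := hopt e' hg.2
      choose h h1 h2 using hk
      refine ⟨h, X ^ k + Polynomial.C k, fun w => ⟨h2 w, ?_⟩⟩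
      simpa using h1 w
  rw [e]
  exact key

theorem poptimal_sig (A : List Bool → Bool) : SigmaSet 3 {T | ∃ f, POptimalRel (ZT A T) f} := by
  obtain ⟨Q, C, O, PD, hpt, hsur, -, hPD⟩ := exists_enum
  have hO : ∀ e, ∃ PO : Polynomial ℕ, ∀ x, (O e x).length ≤ PO.eval x.length :=
    fun e => (hpt e).2.2.fp.length
  have hcmp : ∀ e T, PolyTimeRel (ZT A T) (cmp A Q C O e T) := fun e T =>
    ⟨Q e, C e, O e, (hpt e).1, (hpt e).2.1, (hpt e).2.2, fun w => rfl⟩
  have hex : ∀ T f, PolyTimeRel (ZT A T) f → ∃ e, f = cmp A Q C O e T := by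
    rintro T f ⟨Q', C', O', h1, h2, h3, h4⟩
    obtain ⟨e, rfl, rfl, rfl⟩ := hsur Q' C' O' h1 h2 h3
    exact ⟨e, funext h4⟩
  have key := opt_sig (A := A) hPD hO (Sim := fun e e' => ⋃ j : ℕ, {T | ∀ w : List Bool,
    cmp A Q C O e T (Q j w) = cmp A Q C O e' T w})
    (fun e e' => sig_iUnion fun j => sig_closed (by
      rw [← isOpen_compl_iff]
      have e2 : {T | ∀ w : List Bool, cmp A Q C O e T (Q j w) = cmp A Q C O e' T w}ᶜ =
          ⋃ w : List Bool, {T | cmp A Q C O e T (Q j w) = cmp A Q C O e' T w}ᶜ := by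
        ext T
        simp
      rw [e2]
      refine isOpen_iUnion fun w => (loc_clopen ⟨(PD e).eval (Q j w).length + 1 +
        ((PD e').eval w.length + 1), fun T T' h hT => ?_⟩).compl.isOpen
      rw [cmp_local hPD e (Q j w).length (fun i hi => h i (by omega)) _ le_rfl,
        cmp_local hPD e' w.length (fun i hi => h i (by omega)) w le_rfl, hT]))
  have e : {T | ∃ f, POptimalRel (ZT A T) f} = {T | ∃ e, Set.range (cmp A Q C O e T) =
      OTAUT (ZT A T) ∧ ∀ e', Set.range (cmp A Q C O e' T) = OTAUT (ZT A T) →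
      T ∈ ⋃ j : ℕ, {T | ∀ w : List Bool, cmp A Q C O e T (Q j w) = cmp A Q C O e' T w}} := by
    ext T
    simp only [Set.mem_ofPred_eq, Set.mem_iUnion]
    constructor
    · rintro ⟨f, ⟨hf, hr⟩, hopt⟩
      obtain ⟨e, rfl⟩ := hex T f hf
      refine ⟨e, hr, fun e' he' => ?_⟩
      obtain ⟨h, hp, hh⟩ := hopt _ ⟨hcmp e' T, he'⟩
      obtain ⟨j, hj, -, -⟩ := hsur h h h hp hp hp
      exact ⟨j, fun w => by rw [hj]; exact hh w⟩
    · rintro ⟨e, hr, hopt⟩
      refine ⟨_, ⟨hcmp e T, hr⟩, fun g hg => ?_⟩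
      obtain ⟨e', rfl⟩ := hex T g hg.1
      obtain ⟨j, hj⟩ := hopt e' hg.2
      exact ⟨Q j, (hpt j).1, hj⟩
  rw [e]
  exact key

end Pool.Agent.Work.MP_0532f7_lc.TD
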