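import Mathlib
import Pool.Agent.Work.MP_0532f7_lc.SpMain
import Pool.Agent.Work.MP_0532f7_lc.TD.InDefs

/-!
# The bits of the continuation with a record are computable in polynomial time
-/

set_option autoImplicit false

namespace Pool.Agent.Work.MP_0532f7_lc.TD

private theorem lst_eq {p : List Bool → Bool} {c : List Bool} {K r : ℕ} (hr : r < K)
    (h1 : p (pr c (un r)) = true) (h2 : ∀ i < r, p (pr c (un i)) = false) : lst p c K = r := by
  obtain ⟨a, b, d⟩ := lst_spec p c K
  rcases lt_trichotomy (lst p c K) r with h | h | h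
  · have := d (by omega)
    rw [h2 _ h] at this
    exact absurd this (by simp)
  · exact h
  · rw [b r h] at h1
    exact absurd h1 (by simp)

theorem sqrt_fp {f : List Bool → List Bool} (hf : FP f) :
    FP (fun x => un (Nat.sqrt (f x).length)) := by
  have hp : FPb (fun z => decide ((fs z).length < (un ((true :: sn z).length *
      (true :: sn z).length)).length)) :=
    FPb.ltI FP.fsI (FP.mulU ((FP.cons true).comp FP.snI) ((FP.cons true).comp FP.snI))
  refine (FP.lstI hp hf ((FP.cons true).comp hf)).congr (fun x => ?_)
  congr 1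
  apply lst_eq
  · rw [List.length_cons]
    have := Nat.sqrt_le_self (f x).length
    omega
  · simp only [fs_pr, sn_pr, un_length, List.length_cons, decide_eq_true_eq]
    exact Nat.lt_succ_sqrt _
  · intro i hi
    simp only [fs_pr, sn_pr, un_length, List.length_cons, decide_eq_false_iff_not, not_lt]
    exact Nat.le_sqrt.mp hi

theorem sub_fp {f g : List Bool → List Bool} (hf : FP f) (hg : FP g) :
    FP (fun x => un ((f x).length - (g x).length)) :=
  (FP.unL (FP.drop hg hf)).congr (fun x => by rw [List.length_drop])

private theorem unpair_eq (n : ℕ) : Nat.unpair n =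
    if n - Nat.sqrt n * Nat.sqrt n < Nat.sqrt n then (n - Nat.sqrt n * Nat.sqrt n, Nat.sqrt n)
    else (Nat.sqrt n, n - Nat.sqrt n * Nat.sqrt n - Nat.sqrt n) := rfl

theorem unpair_fp {f : List Bool → List Bool} (hf : FP f) :
    FP (fun x => un (Nat.unpair (f x).length).1) ∧ FP (fun x => un (Nat.unpair (f x).length).2) := by
  have hs := sqrt_fp hf
  have hd : FP (fun x => un ((f x).length - Nat.sqrt (f x).length * Nat.sqrt (f x).length)) :=
    (sub_fp hf (FP.mulU hs hs)).congr (fun x => by simp only [un_length])
  have hd2 : FP (fun x => un ((f x).length - Nat.sqrt (f x).length * Nat.sqrt (f x).length -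
      Nat.sqrt (f x).length)) :=
    (sub_fp hd hs).congr (fun x => by simp only [un_length])
  have hc := FPb.ltI hd hs
  constructor
  · refine (FP.ite hc hd hs).congr (fun x => ?_)
    simp only [un_length, decide_eq_true_eq]
    rw [unpair_eq]
    split_ifs <;> rfl
  · refine (FP.ite hc hs hd2).congr (fun x => ?_)
    simp only [un_length, decide_eq_true_eq]
    rw [unpair_eq]
    split_ifs <;> rfl

theorem divmod_fp {f : List Bool → List Bool} (hf : FP f) :
    FP (fun x => un ((f x).length / 4)) ∧ FP (fun x => un ((f x).length % 4)) := by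
  have hp : FPb (fun z => decide ((fs z).length < (un ((true :: sn z).length *
      [true, true, true, true].length)).length)) :=
    FPb.ltI FP.fsI (FP.mulU ((FP.cons true).comp FP.snI) (FP.const [true, true, true, true]))
  have h1 : FP (fun x => un ((f x).length / 4)) := by
    refine (FP.lstI hp hf ((FP.cons true).comp hf)).congr (fun x => ?_)
    congr 1
    apply lst_eq
    · rw [List.length_cons]
      omega
    · simp only [fs_pr, sn_pr, un_length, List.length_cons, decide_eq_true_eq, List.length_nil]
      omega
    · intro i hi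
      simp only [fs_pr, sn_pr, un_length, List.length_cons, decide_eq_false_iff_not, not_lt,
        List.length_nil]
      omega
  refine ⟨h1, ?_⟩
  refine (sub_fp hf (FP.mulU h1 (FP.const [true, true, true, true]))).congr (fun x => ?_)
  simp only [un_length, List.length_cons, List.length_nil]
  congr 1
  omega

theorem eqU_fp {f : List Bool → List Bool} (hf : FP f) (n : ℕ) :
    FPb (fun x => decide ((f x).length = n)) := by
  refine (FPb.eq (FP.unL hf) (FP.const (un n))).congr (fun x => ?_)
  simp only [un_eq_iff]

theorem ltU_fp {f : List Bool → List Bool} (hf : FP f) (n : ℕ) :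
    FPb (fun x => decide ((f x).length < n)) := by
  refine (FPb.ltI hf (FP.const (un n))).congr (fun x => ?_)
  rw [un_length]

theorem mem_fp {f : List Bool → List Bool} (hf : FP f) (L : Finset ℕ) :
    FPb (fun x => decide ((f x).length ∈ L)) := by
  classical
  induction L using Finset.induction_on with
  | empty => exact (FPb.const false).congr (fun x => by simp)
  | insert a L _ ih =>
    refine ((eqU_fp hf a).or ih).congr (fun x => ?_)
    rw [← Bool.decide_or]
    congr 1
    rw [Finset.mem_insert]

theorem fin_fp {f : List Bool → List Bool} (hf : FP f) (N : ℕ) (τ : ℕ → Bool) :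
    FPb (fun x => decide ((f x).length < N) && τ (f x).length) := by
  refine (mem_fp hf ((Finset.range N).filter (fun i => τ i = true))).congr (fun x => ?_)
  rw [Bool.eq_iff_iff, decide_eq_true_eq, Finset.mem_filter, Finset.mem_range, Bool.and_eq_true,
    decide_eq_true_eq]

theorem reg_fp {f : List Bool → List Bool} (hf : FP f) (N : ℕ) :
    FP (fun x => un (reg N (f x))) := by
  refine ((FP.unL hf).app (FP.const (un ((N + 1) ^ 3)))).congr (fun x => ?_)
  rw [un_append]; rfl

/-- `z.getD n false` for a unary `n` -/
theorem getD_fp {f g : List Bool → List Bool} (hf : FP f) (hg : FP g) :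
    FPb (fun x => (g x).getD (f x).length false) := by
  refine (FPb.hd.comp (FP.drop hf hg)).congr (fun x => ?_)
  rw [List.head?_drop, List.getD_eq_getElem?_getD]

theorem ex_fp (N : ℕ) (τ : ℕ → Bool) (L : Finset ℕ) (m : ℕ) :
    FPb (fun w => ex N τ L m (fs w) (sn w).length) := by
  have hi := FP.snI
  have hr := (unpair_fp hi).1
  have hs := (unpair_fp hi).2
  have hq := (divmod_fp hr).1
  have hc := (divmod_fp hr).2
  simp only [un_length] at hq hc
  have ha := (unpair_fp hq).1
  have hv := (unpair_fp hq).2
  simp only [un_length] at ha hv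
  have hreg := reg_fp FP.fsI N
  have hseg : FP (fun w => un ((Nat.unpair (sn w).length).2 - reg N (fs w))) :=
    (sub_fp hs hreg).congr (fun w => by simp only [un_length])
  have h1 := (mem_fp hv L).and ((((FPb.ltI FP.snI hreg).not.and (ltU_fp ha (m + 1))).and
    (ltU_fp hv m).not).not)
  have h2 := (eqU_fp hq m).and (FPb.ltI hs hreg).not
  have h3 := FPb.ite (eqU_fp hc 1) (getD_fp hseg FP.fsI) (FPb.ite (eqU_fp hc 2)
    (FPb.eq hs hreg) (FPb.eq hs (hreg.app (FP.unL FP.fsI))))
  refine (FPb.ite (ltU_fp FP.snI N) ((ltU_fp FP.snI N).and (FPb.const true) |>.and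
    (fin_fp FP.snI N τ)) (FPb.ite (eqU_fp hc 0) h1 (FPb.ite h2 h3 (FPb.const false)))).congr
      (fun w => ?_)
  simp only [un_length, decide_eq_true_eq, Bool.and_eq_true, Bool.not_eq_true',
    decide_eq_false_iff_not, not_lt, un_append, un_eq_iff]
  unfold ex
  split_ifs with a1 a2 a3 a4 a5
  · simp [a1]
  · by_cases b1 : (Nat.unpair ((Nat.unpair (sn w).length).1 / 4)).2 ∈ L <;>
    by_cases b2 : (sn w).length < reg N (fs w) <;>
    by_cases b3 : (Nat.unpair ((Nat.unpair (sn w).length).1 / 4)).1 < m + 1 <;>
    by_cases b4 : (Nat.unpair ((Nat.unpair (sn w).length).1 / 4)).2 < m <;>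
    simp [b1, b2, b3, b4, Nat.lt_succ_iff.mp, Nat.le_of_not_lt]
    omega
  all_goals rfl

end Pool.Agent.Work.MP_0532f7_lc.TD
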