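import Mathlib
import Pool.Agent.Work.MP_0532f7_lc.SlUp
import Pool.Agent.Work.MP_0532f7_lc.TD.CDefs

/-!
# Computations relative to `A ⊕ 1^T` with a polynomial-time `T` need the oracle `A` only
-/

set_option autoImplicit false

namespace Pool.Agent.Work.MP_0532f7_lc.TD

open Polynomial

/-- the answer of `A ⊕ 1^(B z)` to the query `q`, if `b` is the answer of `A` to `q.tail` -/
private def hbit (B : List Bool → ℕ → Bool) (z q : List Bool) (b : Bool) : Bool :=
  if q.isEmpty then false
  else if q.head?.getD false then decide (q.tail = un q.tail.length) && B z q.tail.length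
  else b

private theorem hbit_eq (A : List Bool → Bool) (B : List Bool → ℕ → Bool) (z q : List Bool) :
    hbit B z q (A q.tail) = ojoin A (tally (B z)) q := by
  match q with
  | [] => rfl
  | false :: y => rfl
  | true :: y => rfl

/-- one answer; `p = pr z u`, `s = pr a r` with the reconstructed answers `a` and the rest `r` -/
private def hst (B : List Bool → ℕ → Bool) (Q : List Bool → List Bool) (p s : List Bool) :
    List Bool :=
  pr (fs s ++ [hbit B (fs p) (Q (pr (sn p) (fs s))) ((sn s).head?.getD false)]) (sn s).tail

/-- the reconstructed answers -/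
private def hrec (B : List Bool → ℕ → Bool) (Q : List Bool → List Bool) (p r : List Bool) :
    List Bool :=
  fs ((hst B Q p)^[r.length] (pr [] r))

private theorem hst_iter (A : List Bool → Bool) (B : List Bool → ℕ → Bool)
    (Q : List Bool → List Bool) (z u : List Bool) (n : ℕ) :
    ∀ r : List Bool, (∀ i < n, r.getD i false =
      A (Q (pr u (answers Q (ojoin A (tally (B z))) u i))).tail) →
    (hst B Q (pr z u))^[n] (pr [] r) =
      pr (answers Q (ojoin A (tally (B z))) u n) (r.drop n) := by
  induction n with
  | zero => intro r _; rfl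
  | succ n ih =>
    intro r h
    rw [Function.iterate_succ_apply', ih r (fun i hi => h i (by omega))]
    unfold hst
    simp only [fs_pr, sn_pr]
    have h1 : ((r.drop n).head?.getD false) = r.getD n false := by
      rw [List.head?_drop, List.getD_eq_getElem?_getD]
    rw [h1, h n (by omega), hbit_eq, List.tail_drop]
    rfl

private theorem hrec_eq (A : List Bool → Bool) (B : List Bool → ℕ → Bool)
    (Q : List Bool → List Bool) (z u r : List Bool)
    (h : ∀ i < r.length, r.getD i false =
      A (Q (pr u (answers Q (ojoin A (tally (B z))) u i))).tail) :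
    hrec B Q (pr z u) r = answers Q (ojoin A (tally (B z))) u r.length := by
  unfold hrec
  rw [hst_iter A B Q z u r.length r h, fs_pr]

private theorem hst_length (B : List Bool → ℕ → Bool) (Q : List Bool → List Bool)
    (p s : List Bool) : (hst B Q p s).length ≤ (fs s).length * 2 + 3 + (sn s).length := by
  unfold hst
  rw [pr_length, List.length_append, List.length_tail]
  simp only [List.length_cons, List.length_nil]
  omega

private theorem hst_iter_length (B : List Bool → ℕ → Bool) (Q : List Bool → List Bool)
    (p r : List Bool) (i : ℕ) :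
    (fs ((hst B Q p)^[i] (pr [] r))).length ≤ i ∧
      (sn ((hst B Q p)^[i] (pr [] r))).length ≤ r.length ∧
      ((hst B Q p)^[i] (pr [] r)).length ≤ 2 * i + 1 + r.length := by
  induction i with
  | zero =>
    rw [Function.iterate_zero, id_eq, fs_pr, sn_pr, pr_length]
    simp
  | succ i ih =>
    rw [Function.iterate_succ_apply']
    obtain ⟨h1, h2, h3⟩ := ih
    generalize (hst B Q p)^[i] (pr [] r) = s at h1 h2 h3
    unfold hst
    rw [fs_pr, sn_pr, pr_length, List.length_append, List.length_tail]
    simp only [List.length_cons, List.length_nil]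
    omega

private theorem hst_fp {B : List Bool → ℕ → Bool} (hB : FPb (fun w => B (fs w) (sn w).length))
    {Q : List Bool → List Bool} (hQ : FP Q) : FP (fun w => hst B Q (fs w) (sn w)) := by
  have hq : FP (fun w => Q (pr (sn (fs w)) (fs (sn w)))) := hQ.comp (FP.fsI.snd.pair FP.snI.fst)
  have hqt := FP.tail.comp hq
  have hb : FPb (fun w => B (fs (fs w)) (Q (pr (sn (fs w)) (fs (sn w)))).tail.length) :=
    (hB.comp (FP.fsI.fst.pair hqt)).congr (fun w => by rw [fs_pr, sn_pr])
  exact (FP.snI.fst.app (FPb.ite (FPb.isNil.comp hq) (FPb.const false)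
    (FPb.ite (FPb.hd.comp hq) ((FPb.eq hqt (FP.unL hqt)).and hb) (FPb.hd.comp FP.snI.snd)))).pair
      (FP.tail.comp FP.snI.snd)

private theorem hrec_fp {B : List Bool → ℕ → Bool} (hB : FPb (fun w => B (fs w) (sn w).length))
    {Q : List Bool → List Bool} (hQ : FP Q) {f g : List Bool → List Bool} (hf : FP f)
    (hg : FP g) : FP (fun x => hrec B Q (f x) (g x)) := by
  obtain ⟨Pg, hPg⟩ := hg.length
  refine FP.fst (FP.iterc (step := hst B Q) (hst_fp hB hQ) hf hg (FP.nil.pair hg)
    (2 * Pg + 1 + Pg) (fun x i hi => ?_))
  have h1 := (hst_iter_length B Q (f x) (g x) i).2.2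
  have h2 := hPg x
  simp only [eval_add, eval_mul, eval_ofNat, eval_one]
  omega

theorem hybrid {A : List Bool → Bool} {B : List Bool → ℕ → Bool}
    (hB : FPb (fun w => B (fs w) (sn w).length)) {Q C O : List Bool → List Bool} (hQ : FP Q)
    (hC : FP C) (hO : FP O) :
    PolyTimeRel A (fun w => O (pr (sn w)
      (answers Q (ojoin A (tally (B (fs w)))) (sn w) (C (sn w)).length))) := by
  have hr : FP (fun v => hrec B Q (pr (fs (fs v)) (sn (fs v))) (sn v)) :=
    hrec_fp hB hQ (FP.fsI.fst.pair FP.fsI.snd) FP.snI
  refine ⟨fun v => (Q (pr (sn (fs v)) (hrec B Q (pr (fs (fs v)) (sn (fs v))) (sn v)))).tail,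
    fun w => C (sn w), fun v => O (pr (sn (fs v)) (hrec B Q (pr (fs (fs v)) (sn (fs v))) (sn v))),
    (FP.tail.comp (hQ.comp (FP.fsI.snd.pair hr))).polyTime, (hC.comp FP.snI).polyTime,
    (hO.comp (FP.fsI.snd.pair hr)).polyTime, fun w => ?_⟩
  have key : ∀ n, (∀ i < n, (answers (fun v => (Q (pr (sn (fs v)) (hrec B Q (pr (fs (fs v))
      (sn (fs v))) (sn v)))).tail) A w n).getD i false =
      A (Q (pr (sn w) (answers Q (ojoin A (tally (B (fs w)))) (sn w) i))).tail) := by
    intro n
    induction n with
    | zero => intro i hi; omega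
    | succ n ih =>
      intro i hi
      show (answers _ A w n ++ [A ((fun v => (Q (pr (sn (fs v)) (hrec B Q (pr (fs (fs v))
        (sn (fs v))) (sn v)))).tail) (pr w (answers _ A w n)))]).getD i false = _
      rcases Nat.lt_or_ge i n with h | h
      · rw [List.getD_append _ _ _ _ (by rw [answers_length]; exact h)]
        exact ih i h
      · have : i = n := by omega
        subst this
        rw [List.getD_append_right _ _ _ _ (by rw [answers_length]), answers_length,
          Nat.sub_self]
        show A _ = _
        simp only [fs_pr, sn_pr]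
        rw [hrec_eq A B Q _ _ _ (by rw [answers_length]; exact ih), answers_length]
  simp only [fs_pr, sn_pr]
  rw [hrec_eq A B Q _ _ _ (by rw [answers_length]; exact key _), answers_length]

private theorem run_answers (X : List Bool → Bool) (u : List Bool) (n : ℕ) :
    answers (fun v => rQ (fs v) (sn v)) X u n = answers (fun z => rQ u (sn z)) X [] n := by
  induction n with
  | zero => rfl
  | succ n ih =>
    show answers (fun v => rQ (fs v) (sn v)) X u n ++
      [X (rQ (fs (pr u (answers (fun v => rQ (fs v) (sn v)) X u n)))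
        (sn (pr u (answers (fun v => rQ (fs v) (sn v)) X u n))))] =
      answers (fun z => rQ u (sn z)) X [] n ++
      [X (rQ u (sn (pr [] (answers (fun z => rQ u (sn z)) X [] n))))]
    rw [ih, fs_pr, sn_pr, sn_pr]

theorem hybrid_run {A : List Bool → Bool} {B : List Bool → ℕ → Bool}
    (hB : FPb (fun w => B (fs w) (sn w).length)) :
    PolyTimeRel A (fun w => run (ZT A (B (fs w))) (sn w)) := by
  have h := hybrid (A := A) hB (Q := fun v => rQ (fs v) (sn v)) (C := fun u => (rC u).tail)
    (O := fun v => rOut (fs v) (sn v)) (FP.rQI FP.fsI FP.snI) (FP.tail.comp (FP.rCI FP.id))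
    (FP.rOutI FP.fsI FP.snI)
  have e : (fun w => rOut (fs (pr (sn w) (answers (fun v => rQ (fs v) (sn v))
      (ojoin A (tally (B (fs w)))) (sn w) ((rC (sn w)).tail).length)))
      (sn (pr (sn w) (answers (fun v => rQ (fs v) (sn v)) (ojoin A (tally (B (fs w)))) (sn w)
        ((rC (sn w)).tail).length)))) = fun w => run (ZT A (B (fs w))) (sn w) := by
    funext w
    rw [fs_pr, sn_pr, run_answers]
    rfl
  rw [← e]
  exact h

end Pool.Agent.Work.MP_0532f7_lc.TD
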