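import Mathlib
import Pool.Agent.Work.MP_0532f7_lc.TD.Hybrid
import Pool.Agent.Work.MP_0532f7_lc.TD.ExFP

/-!
# The concrete parameters satisfy the assumptions of the construction
-/

set_option autoImplicit false

namespace Pool.Agent.Work.MP_0532f7_lc.TD

open Polynomial

theorem bb_mono {k k' n n' : ℕ} (hk : k ≤ k') (hn : n ≤ n') : bb k n ≤ bb k' n' := by
  unfold bb
  have h1 : (n + 1) ^ k ≤ (n' + 1) ^ k := Nat.pow_le_pow_left (by omega) k
  have h2 : (n' + 1) ^ k ≤ (n' + 1) ^ k' := Nat.pow_le_pow_right (by omega) hk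
  omega

theorem bb_clock (k c : ℕ) : ∃ f, FP f ∧ ∀ z : List Bool, (f z).length = bb k (z.length + c) := by
  obtain ⟨f, hf, hf'⟩ := FP.clock ((X + C (c + 1)) ^ k + C k)
  refine ⟨f, hf, fun z => ?_⟩
  rw [hf']
  simp only [eval_add, eval_pow, eval_X, eval_C]
  rfl

theorem MM_mono (P : Polynomial ℕ) (m m' k k' n n' : ℕ) (hm : m ≤ m') (hk : k ≤ k')
    (hn : n ≤ n') : MM P m k n ≤ MM P m' k' n' := by
  unfold MM
  have h1 := bb_mono hk hn
  have h2 := pmono P (by omega : 3 * bb k n + 2 * m + 2 ≤ 3 * bb k' n' + 2 * m' + 2)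
  have h3 : (4 * m + 2 * n + 6) ^ 2 ≤ (4 * m' + 2 * n' + 6) ^ 2 :=
    Nat.pow_le_pow_left (by omega) 2
  omega

/-- the universal computation on short inputs is decided below `MM P m k n` -/
theorem run_agree {A : List Bool → Bool} {P : Polynomial ℕ} (hP : RunLoc P) {m k n v : ℕ}
    {τ τ' : ℕ → Bool} (h : ∀ j < MM P m k n, τ j = τ' j) (hv : v ≤ m) {x t : List Bool}
    (hx : x.length ≤ bb k n) (ht : t.length ≤ bb k n) :
    run (ZT A τ') (pr (num v) (pr x t)) = run (ZT A τ) (pr (num v) (pr x t)) := by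
  refine (hP (ZT A τ) (ZT A τ') _ (3 * bb k n + 2 * m + 2) ?_ (fun y hy => ?_)).1
  · rw [pr_length, pr_length]
    have := num_length v
    omega
  · refine loc_ZT A _ _ _ fun j hj => h j ?_
    unfold MM
    omega

/-- a sound program gives tautologies only -/
theorem mem_of_not_UU {A : List Bool → Bool} {P : Polynomial ℕ} {m k n v : ℕ} {τ : ℕ → Bool}
    (h : ¬ UU A P v (MM P m k n) τ) (hv : v ≤ m) {x t : List Bool}
    (hx : x.length ≤ bb k n) (ht : t.length ≤ bb k n) :
    run (ZT A τ) (pr (num v) (pr x t)) ∈ OTAUT (ZT A τ) := by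
  by_contra hc
  refine h ⟨x, t, ?_, hc⟩
  have := pmono P (by omega : 2 * v + 2 * x.length + t.length + 2 ≤ 3 * bb k n + 2 * m + 2)
  unfold MM
  omega

theorem ptr_orb {X : List Bool → Bool} {c d : List Bool → Bool}
    (hc : PolyTimeRel X (fun z => [c z])) (hd : PolyTimeRel X (fun z => [d z])) :
    PolyTimeRel X (fun z => [c z || d z]) := by
  have h := (hc.pair hd).post (k := fun v => [(fs v).head?.getD false || (sn v).head?.getD false])
    ((FPb.hd.comp FP.fsI).or (FPb.hd.comp FP.snI))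
  have e : (fun z => [(fs (pr [c z] [d z])).head?.getD false ||
      (sn (pr [c z] [d z])).head?.getD false]) = fun z => [c z || d z] := by
    funext z
    rw [fs_pr, sn_pr]
    rfl
  rwa [e] at h

theorem ptr_any {X : List Bool → Bool} {c : ℕ → List Bool → Bool} (S : List ℕ)
    (hc : ∀ i ∈ S, PolyTimeRel X (fun z => [c i z])) :
    PolyTimeRel X (fun z => [S.any (fun i => c i z)]) := by
  induction S with
  | nil => exact PolyTimeRel.of_fp (FP.const [false]) X
  | cons a S ih =>
    exact ptr_orb (hc a List.mem_cons_self) (ih fun i hi => hc i (List.mem_cons_of_mem a hi))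

section

variable {A : List Bool → Bool} {𝓛 : Set (List Bool)} {tf : List Bool → List Bool}
  {P : Polynomial ℕ} (hP : RunLoc P) (htf : FP tf)
  (ht : ∀ (B : List Bool → Bool) (z : List Bool), tf z ∈ OTAUT (ojoin A B) ↔ z ∈ 𝓛)

include hP

theorem par_base (H : ℕ → ℕ → ℕ → Finset ℕ → (ℕ → Bool) → List Bool → Prop)
    (hloc : ∀ m k n L τ τ' z, (∀ j < MM P m k n, τ j = τ' j) → H m k n L τ z → H m k n L τ' z)
    (hhard : ∀ N τ L m k, (∀ z, ∀ v ∈ L, v ≤ m →
      ¬ UU A P v (MM P m k (reg N z)) (ex N τ L m z)) →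
        ∃ z ∈ 𝓛, ¬ H m k (reg N z) L (ex N τ L m z) z) :
    Par (UU A P) 𝓛 (MM P) H := by
  refine ⟨?_, ?_, ?_, ?_, hloc, hhard⟩
  · rintro v s s' τ hs ⟨x, t, h1, h2⟩
    exact ⟨x, t, by omega, h2⟩
  · intro v s τ τ' h hU
    exact uns_congr (loc_ZT A) hP h hU
  · intro m k n
    unfold MM
    omega
  · intro m m' k k' n n' hm hk hn
    exact MM_mono P m m' k k' n n' hm hk hn

include htf ht

theorem par_HO (hn : ¬ NPRel A 𝓛) : Par (UU A P) 𝓛 (MM P) (HO A tf) := by
  refine par_base hP _ ?_ ?_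
  · rintro m k n L τ τ' z h ⟨v, hv, hvm, x, t, hx, ht, he⟩
    exact ⟨v, hv, hvm, x, t, hx, ht, by rw [run_agree hP h hvm hx ht, he]⟩
  · intro N τ L m k hs
    by_contra hcon
    push Not at hcon
    apply hn
    obtain ⟨bf, hbf, hbf'⟩ := bb_clock k ((N + 1) ^ 3)
    have hbr : ∀ z, (bf z).length = bb k (reg N z) := hbf'
    have hrun := hybrid_run (A := A) (B := ex N τ L m) (ex_fp N τ L m)
    have hk : FP (fun w => pr (fs w) (pr (num (fs (sn w)).length)
        (pr (fs (sn (sn w))) (sn (sn (sn w)))))) :=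
      FP.fsI.pair ((FP.numI FP.snI.fst).pair (FP.snI.snd.fst.pair FP.snI.snd.snd))
    have h1 := ((PolyTimeRel.of_fp FP.id A).pair (hrun.pre hk)).post
      (k := fun v => if ((((decide ((fs (sn (fs v))).length ∈ L) &&
        decide ((fs (sn (fs v))).length < m + 1)) &&
        !decide ((bf (fs (fs v))).length < (fs (sn (sn (fs v)))).length)) &&
        !decide ((bf (fs (fs v))).length < (sn (sn (sn (fs v)))).length)) &&
        decide (sn v = tf (fs (fs v)))) then [true] else [false])
      (FP.ite (((((mem_fp FP.fsI.snd.fst L).and (ltU_fp FP.fsI.snd.fst (m + 1))).and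
        (FPb.ltI (hbf.comp FP.fsI.fst) FP.fsI.snd.snd.fst).not).and
        (FPb.ltI (hbf.comp FP.fsI.fst) FP.fsI.snd.snd.snd).not).and
        (FPb.eq FP.snI (htf.comp FP.fsI.fst))) (FP.const _) (FP.const _))
    refine ⟨_, h1, C (2 * m + 2) + 3 * ((X + C ((N + 1) ^ 3 + 1)) ^ k + C k), fun z => ?_⟩
    simp only [fs_pr, sn_pr, Bool.and_eq_true, Bool.not_eq_true', decide_eq_true_eq,
      decide_eq_false_iff_not, not_lt]
    have hp : (C (2 * m + 2) + 3 * ((X + C ((N + 1) ^ 3 + 1)) ^ k + C k)).eval z.length =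
        2 * m + 2 + 3 * bb k (reg N z) := by
      simp only [eval_add, eval_mul, eval_pow, eval_X, eval_C, eval_ofNat]
      rfl
    rw [hp]
    constructor
    · intro hz
      obtain ⟨v, hv, hvm, x, t, hx, ht, he⟩ := hcon z hz
      refine ⟨pr (un v) (pr x t), ?_, ?_⟩
      · rw [pr_length, pr_length, un_length]
        omega
      · simp only [fs_pr, sn_pr, un_length]
        rw [if_pos]
        refine ⟨⟨⟨⟨hv, by omega⟩, ?_⟩, ?_⟩, he⟩
        · rw [hbr]; exact hx
        · rw [hbr]; exact ht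
    · rintro ⟨y, -, hy⟩
      split_ifs at hy with h2
      · obtain ⟨⟨⟨⟨a1, a2⟩, a3⟩, a4⟩, a5⟩ := h2
        rw [hbr] at a3 a4
        have h3 := mem_of_not_UU (hs z _ a1 (by omega)) (by omega) a3 a4
        rw [a5] at h3
        exact (ht _ z).mp h3
      · exact absurd hy (by simp)

theorem par_HP (hn : ¬ PRel A 𝓛) : Par (UU A P) 𝓛 (MM P) (HP A tf) := by
  refine par_base hP _ ?_ ?_
  · rintro m k n L τ τ' z h ⟨v, hv, hvm, j, hj, he⟩
    refine ⟨v, hv, hvm, j, hj, ?_⟩
    rw [run_agree hP h hvm ((List.length_take_le _ _)) (by rw [un_length]), he]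
  · intro N τ L m k hs
    by_contra hcon
    push Not at hcon
    apply hn
    obtain ⟨bf, hbf, hbf'⟩ := bb_clock k ((N + 1) ^ 3)
    have hbr : ∀ z, (bf z).length = bb k (reg N z) := hbf'
    have hrun := hybrid_run (A := A) (B := ex N τ L m) (ex_fp N τ L m)
    have hin : FP (fun z => inpW (reg N z) z) :=
      (FP.cons true).comp ((reg_fp FP.id N).pair (FP.unL FP.id))
    have key : ∀ v j, PolyTimeRel A (fun z => [decide (run (ZT A (ex N τ L m z))
        (pr (num v) (pr (((uni (num j) (inpW (reg N z) z) (un (bb k (reg N z)))).tail).take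
          (bb k (reg N z))) (un (bb k (reg N z))))) = tf z)]) := by
      intro v j
      have hb : FP (fun z => un (bb k (reg N z))) :=
        (FP.unL hbf).congr (fun z => by rw [hbr])
      have hx : FP (fun z => ((uni (num j) (inpW (reg N z) z) (un (bb k (reg N z)))).tail).take
          (bb k (reg N z))) :=
        (FP.take hb (FP.tail.comp (FP.uniI (FP.const (num j)) hin hb))).congr
          (fun z => by rw [un_length])
      have hk : FP (fun z => pr z (pr (num v) (pr (((uni (num j) (inpW (reg N z) z)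
          (un (bb k (reg N z)))).tail).take (bb k (reg N z))) (un (bb k (reg N z)))))) :=
        FP.id.pair ((FP.const (num v)).pair (hx.pair hb))
      have h1 := ((PolyTimeRel.of_fp FP.id A).pair (hrun.pre hk)).post
        (k := fun w => [decide (sn w = tf (fs w))]) (FPb.eq FP.snI (htf.comp FP.fsI))
      simpa only [fs_pr, sn_pr] using h1
    have h2 := ptr_any (c := fun v z => (List.range (k + 1)).any (fun j =>
      decide (run (ZT A (ex N τ L m z)) (pr (num v) (pr (((uni (num j) (inpW (reg N z) z)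
        (un (bb k (reg N z)))).tail).take (bb k (reg N z))) (un (bb k (reg N z))))) = tf z)))
      (L.filter (fun v => v ≤ m)).toList (fun v _ => ptr_any _ (fun j _ => key v j))
    refine ⟨_, h2, fun z => ?_⟩
    simp only [List.cons.injEq, and_true, List.any_eq_true, decide_eq_true_eq, Finset.mem_toList,
      Finset.mem_filter, List.mem_range]
    constructor
    · rintro ⟨v, ⟨hv, hvm⟩, j, hj, he⟩
      have h3 := mem_of_not_UU (hs z v hv hvm) hvm
        (List.length_take_le (bb k (reg N z)) (uni (num j) (inpW (reg N z) z)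
          (un (bb k (reg N z)))).tail) (show (un (bb k (reg N z))).length ≤ _ by rw [un_length])
      rw [he] at h3
      exact (ht _ z).mp h3
    · intro hz
      obtain ⟨v, hv, hvm, j, hj, he⟩ := hcon z hz
      exact ⟨v, ⟨hv, hvm⟩, j, by omega, he⟩

end

end Pool.Agent.Work.MP_0532f7_lc.TD
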