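import Mathlib
import Pool.Agent.Work.MP_0532f7_lc.TD.CDefs
import Pool.Agent.Work.MP_0532f7_lc.TD.ExFP

/-!
# The proof system that trusts one slot
-/

set_option autoImplicit false

namespace Pool.Agent.Work.MP_0532f7_lc.TD

open Polynomial

theorem tally_un (T : ℕ → Bool) (n : ℕ) : tally T (un n) = T n := by
  unfold tally un
  rw [List.length_replicate]
  simp

/-- tables of bits of `T` -/
theorem tab_ptr (A : List Bool → Bool) (T : ℕ → Bool) {q : List Bool → ℕ → ℕ}
    (hq : FP (fun v => un (q (fs v) (sn v).length))) {c : List Bool → List Bool} (hc : FP c) :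
    PolyTimeRel (ZT A T) (fun z => (List.range (c z).length).map (fun j => T (q z j))) := by
  have h := PolyTimeRel.table (ZT A T) (q := fun v => true :: un (q (fs v) (sn v).length))
    ((FP.cons true).comp hq) hc
  have e : (fun z => (List.range (c z).length).map (fun j => ZT A T
      (true :: un (q (fs (pr z (un j))) (sn (pr z (un j))).length)))) =
      fun z => (List.range (c z).length).map (fun j => T (q z j)) := by
    funext z
    apply List.map_congr_left
    intro j _
    rw [fs_pr, sn_pr, un_length]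
    exact tally_un T _
  rwa [e] at h

/-- the record test -/
def rdc (T : ℕ → Bool) (m n R : ℕ) : Bool :=
  decide ((List.range (R + 1)).map (fun j => T (Nat.pair (4 * m + 2) (n + j))) =
    true :: List.replicate R false) &&
  decide ((List.range (R + 1)).map (fun j => T (Nat.pair (4 * m + 3) (n + j))) =
    List.replicate R false ++ [true])

theorem rdc_iff (T : ℕ → Bool) (m n R : ℕ) : rdc T m n R = true ↔ Read T m n R := by
  unfold rdc Read
  rw [Bool.and_eq_true, decide_eq_true_eq, decide_eq_true_eq]
  have e1 : (List.range (R + 1)).map (fun j => T (Nat.pair (4 * m + 2) (n + j))) =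
      true :: List.replicate R false ↔ T (Nat.pair (4 * m + 2) n) = true ∧
        ∀ j < R, T (Nat.pair (4 * m + 2) (n + (j + 1))) = false := by
    rw [List.range_succ_eq_map, List.map_cons, List.map_map, List.cons.injEq]
    refine and_congr Iff.rfl ?_
    rw [List.eq_replicate_iff]
    simp
  have e2 : (List.range (R + 1)).map (fun j => T (Nat.pair (4 * m + 3) (n + j))) =
      List.replicate R false ++ [true] ↔ T (Nat.pair (4 * m + 3) (n + R)) = true ∧
        ∀ j < R, T (Nat.pair (4 * m + 3) (n + j)) = false := by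
    rw [List.range_succ, List.map_append]
    constructor
    · intro h
      obtain ⟨h1, h2⟩ := List.append_inj h (by simp)
      rw [List.eq_replicate_iff] at h1
      simp only [List.map_cons, List.map_nil, List.cons.injEq, and_true] at h2
      refine ⟨h2, fun j hj => h1.2 _ (List.mem_map.mpr ⟨j, List.mem_range.mpr hj, rfl⟩)⟩
    · rintro ⟨h1, h2⟩
      congr 1
      · rw [List.eq_replicate_iff]
        refine ⟨by simp, fun b hb => ?_⟩
        obtain ⟨j, hj, rfl⟩ := List.mem_map.mp hb
        exact h2 j (List.mem_range.mp hj)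
      · simp only [List.map_cons, List.map_nil, h1]
  rw [e1, e2]
  constructor
  · rintro ⟨⟨a1, a2⟩, a3, a4⟩
    refine ⟨a1, a3, fun j h1 h2 => ?_, fun j h1 h2 => ?_⟩
    · obtain ⟨i, rfl⟩ := Nat.exists_eq_add_of_lt h1
      exact a2 i (by omega)
    · obtain ⟨i, rfl⟩ := Nat.exists_eq_add_of_le h1
      exact a4 i (by omega)
  · rintro ⟨a1, a3, a2, a4⟩
    exact ⟨⟨a1, fun j hj => a2 _ (by omega) (by omega)⟩, a3, fun j hj => a4 _ (by omega) (by omega)⟩

/-- the records from the column `s0` on -/
def rd1 (T : ℕ → Bool) (tf : List Bool → List Bool) (m s0 : ℕ) (w : List Bool) : List Bool :=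
  if !decide ((fs w).length < s0) && rdc T m (fs w).length (sn w).length then
    tf (word T m (fs w).length (sn w).length)
  else oTop.code

/-- the system that trusts the slot `m` from the column `s0` on -/
def rdr (T : ℕ → Bool) (f tf : List Bool → List Bool) (m s0 : ℕ) (w : List Bool) : List Bool :=
  if w.head?.getD false then rd1 T tf m s0 w.tail else f w.tail

theorem rd1_ptr (A : List Bool → Bool) (T : ℕ → Bool) {tf : List Bool → List Bool} (htf : FP tf)
    (m s0 : ℕ) : PolyTimeRel (ZT A T) (rd1 T tf m s0) := by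
  have hq : ∀ c, FP (fun v => un (Nat.pair c ((fs (fs v)).length + (sn v).length))) := by
    intro c
    refine (FP.pairU (FP.const (un c)) (FP.fsI.fst.app FP.snI)).congr (fun v => ?_)
    rw [un_length, List.length_append]
  have t2 := tab_ptr A T (q := fun z j => Nat.pair (4 * m + 2) ((fs z).length + j)) (hq _)
    ((FP.cons true).comp FP.snI)
  have t3 := tab_ptr A T (q := fun z j => Nat.pair (4 * m + 3) ((fs z).length + j)) (hq _)
    ((FP.cons true).comp FP.snI)
  have t1 := tab_ptr A T (q := fun z j => Nat.pair (4 * m + 1) ((fs z).length + j)) (hq _) FP.snI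
  have h := ((PolyTimeRel.of_fp FP.id (ZT A T)).pair (t2.pair (t3.pair t1))).post
    (k := fun v => if !decide ((fs (fs v)).length < s0) && (decide (fs (sn v) =
      true :: zer (sn (fs v))) && decide (fs (sn (sn v)) = zer (sn (fs v)) ++ [true])) then
        tf (sn (sn (sn v))) else oTop.code)
    (FP.ite ((ltU_fp FP.fsI.fst s0).not.and ((FPb.eq FP.snI.fst ((FP.cons true).comp
      (FP.zerI FP.fsI.snd))).and (FPb.eq FP.snI.snd.fst ((FP.zerI FP.fsI.snd).app
        (FP.const [true]))))) (htf.comp FP.snI.snd.snd) (FP.const _))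
  simp only [fs_pr, sn_pr, List.length_cons] at h
  exact h

theorem rdr_ptr {A : List Bool → Bool} {T : ℕ → Bool} {f tf : List Bool → List Bool}
    (hf : PolyTimeRel (ZT A T) f) (htf : FP tf) (m s0 : ℕ) :
    PolyTimeRel (ZT A T) (rdr T f tf m s0) := hf.sum (rd1_ptr A T htf m s0)

theorem rdr_sys {A : List Bool → Bool} {T : ℕ → Bool} {f tf : List Bool → List Bool}
    {𝓛 : Set (List Bool)} (hf : ProofSystemRel (ZT A T) f) (htf : FP tf)
    (ht : ∀ (B : List Bool → Bool) (z : List Bool), tf z ∈ OTAUT (ojoin A B) ↔ z ∈ 𝓛)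
    {m s0 : ℕ} (hs : ∀ n ≥ s0, ∀ R, Read T m n R → word T m n R ∈ 𝓛) :
    ProofSystemRel (ZT A T) (rdr T f tf m s0) := by
  refine ⟨rdr_ptr hf.1 htf m s0, ?_⟩
  apply Set.Subset.antisymm
  · rintro _ ⟨w, rfl⟩
    unfold rdr
    split_ifs with h1
    · unfold rd1
      split_ifs with h2
      · rw [Bool.and_eq_true, Bool.not_eq_true', decide_eq_false_iff_not, not_lt, rdc_iff] at h2
        exact (ht _ _).mpr (hs _ h2.1 _ h2.2)
      · exact oTop_mem _
    · rw [← hf.2]
      exact ⟨_, rfl⟩
  · intro c hc
    rw [← hf.2] at hc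
    obtain ⟨w, rfl⟩ := hc
    exact ⟨false :: w, rfl⟩

theorem rdr_inpW (T : ℕ → Bool) (f tf : List Bool → List Bool) {m s0 n : ℕ} {z : List Bool}
    (hn : s0 ≤ n) (hR : Read T m n z.length) (hw : word T m n z.length = z) :
    rdr T f tf m s0 (inpW n z) = tf z := by
  unfold rdr inpW
  show (if true = true then rd1 T tf m s0 (pr (un n) (un z.length)) else _) = _
  rw [if_pos rfl]
  unfold rd1
  rw [fs_pr, sn_pr, un_length, un_length, if_pos, hw]
  rw [Bool.and_eq_true, Bool.not_eq_true', decide_eq_false_iff_not, not_lt, rdc_iff]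
  exact ⟨hn, hR⟩

end Pool.Agent.Work.MP_0532f7_lc.TD
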