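import Mathlib
import Pool.Agent.Work.MP_0532f7_lc.SlDec
import Pool.Agent.Work.MP_0532f7_lc.TD.ParC
import Pool.Agent.Work.MP_0532f7_lc.TD.Reader

/-!
# No optimal (p-optimal) system, if infinitely many slots have hard records
-/

set_option autoImplicit false

namespace Pool.Agent.Work.MP_0532f7_lc.TD

open Polynomial

theorem poly_le_bb (p : Polynomial ℕ) : ∃ K, ∀ k n, K ≤ k → p.eval n ≤ bb k n := by
  obtain ⟨K, hK⟩ := poly_le_pow p
  refine ⟨K, fun k n hk => (hK n).trans ?_⟩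
  have h1 : n ^ K ≤ (n + 1) ^ K := Nat.pow_le_pow_left (by omega) K
  have h2 : (n + 1) ^ K ≤ (n + 1) ^ k := Nat.pow_le_pow_right (by omega) hk
  unfold bb
  omega

theorem inpW_length (n : ℕ) (z : List Bool) : (inpW n z).length = 2 * n + 2 + z.length := by
  unfold inpW
  rw [List.length_cons, pr_length, un_length, un_length]
  omega

section

variable {A : List Bool → Bool} {𝓛 : Set (List Bool)} {tf : List Bool → List Bool}
  {P : Polynomial ℕ} {T : ℕ → Bool} (htf : FP tf)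
  (ht : ∀ (B : List Bool → Bool) (z : List Bool), tf z ∈ OTAUT (ojoin A B) ↔ z ∈ 𝓛)
  (hrec : ∀ m, ∃ s0, ∀ n ≥ s0, ∀ R, Read T m n R → word T m n R ∈ 𝓛)

include htf ht hrec

theorem no_opt (HD : ∀ i, ∃ m ≥ i, ∀ v, (∀ s, ¬ UU A P v s T) → ∀ B, ∃ k ≥ B, ∃ n ≥ B,
      ∃ (L : Finset ℕ) (z : List Bool), z.length ≤ n ∧ v ∈ L ∧ z ∈ 𝓛 ∧ Read T m n z.length ∧
        word T m n z.length = z ∧ ¬ HO A tf m k n L T z) :
    ¬ ∃ f, OptimalRel (ZT A T) f := by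
  rintro ⟨f, hf⟩
  obtain ⟨c, P0, hc⟩ := run_spec hf.1.1 (fun w => by rw [← hf.1.2]; exact ⟨w, rfl⟩)
  obtain ⟨m, hm, hmv⟩ := HD (val c)
  obtain ⟨s0, hs0⟩ := hrec m
  obtain ⟨h, p, hh⟩ := hf.2 _ (rdr_sys hf.1 htf ht hs0)
  obtain ⟨K, hK⟩ := poly_le_bb (p.comp (3 * X + 2) + P0.comp (p.comp (3 * X + 2)))
  obtain ⟨k, hk, n, hn, L, z, hz, hv, h𝓛, hR, hw, hno⟩ := hmv (val c) (by
    rintro s ⟨x, t, -, h2⟩
    rw [num_val] at h2
    exact h2 (hc x t).2) (max K s0)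
  have hb := hK k n (le_trans (le_max_left _ _) hk)
  simp only [eval_add, eval_mul, eval_comp, eval_X, eval_ofNat] at hb
  have h1 := hh (inpW n z)
  rw [rdr_inpW T f tf (le_trans (le_max_right _ _) hn) hR hw] at h1
  have h2 : (h (inpW n z)).length ≤ p.eval (3 * n + 2) := by
    refine h1.2.trans (pmono p ?_)
    rw [inpW_length]
    omega
  have h3 := pmono P0 h2
  refine hno ⟨val c, hv, hm, h (inpW n z), un (P0.eval (h (inpW n z)).length), by omega, ?_, ?_⟩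
  · rw [un_length]; omega
  · rw [num_val, (hc _ _).1 (by rw [un_length]), h1.1]

theorem no_popt (HD : ∀ i, ∃ m ≥ i, ∀ v, (∀ s, ¬ UU A P v s T) → ∀ B, ∃ k ≥ B, ∃ n ≥ B,
      ∃ (L : Finset ℕ) (z : List Bool), z.length ≤ n ∧ v ∈ L ∧ z ∈ 𝓛 ∧ Read T m n z.length ∧
        word T m n z.length = z ∧ ¬ HP A tf m k n L T z) :
    ¬ ∃ f, POptimalRel (ZT A T) f := by
  rintro ⟨f, hf⟩
  obtain ⟨c, P0, hc⟩ := run_spec hf.1.1 (fun w => by rw [← hf.1.2]; exact ⟨w, rfl⟩)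
  obtain ⟨m, hm, hmv⟩ := HD (val c)
  obtain ⟨s0, hs0⟩ := hrec m
  obtain ⟨h, hhp, hh⟩ := hf.2 _ (rdr_sys hf.1 htf ht hs0)
  obtain ⟨p, hp⟩ := hhp.fp.length
  obtain ⟨c', P', hc'⟩ := uni_spec hhp
  obtain ⟨K, hK⟩ := poly_le_bb (p.comp (3 * X + 2) + P'.comp (3 * X + 2) +
    P0.comp (p.comp (3 * X + 2)))
  obtain ⟨k, hk, n, hn, L, z, hz, hv, h𝓛, hR, hw, hno⟩ := hmv (val c) (by
    rintro s ⟨x, t, -, h2⟩
    rw [num_val] at h2
    exact h2 (hc x t).2) (K + s0 + val c')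
  have hb := hK k n (by omega)
  simp only [eval_add, eval_mul, eval_comp, eval_X, eval_ofNat] at hb
  have h1 := hh (inpW n z)
  rw [rdr_inpW T f tf (by omega) hR hw] at h1
  have h0 : (inpW n z).length ≤ 3 * n + 2 := by
    rw [inpW_length]
    omega
  have h2 : (h (inpW n z)).length ≤ p.eval (3 * n + 2) := (hp _).trans (pmono p h0)
  have h3 := pmono P0 h2
  have h4 := pmono P' h0
  refine hno ⟨val c, hv, hm, val c', by omega, ?_⟩
  rw [num_val, num_val, (hc' _ _).1 (by rw [un_length]; omega), List.tail_cons,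
    List.take_of_length_le (by omega), (hc _ _).1 (by rw [un_length]; omega), h1]

end

end Pool.Agent.Work.MP_0532f7_lc.TD
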