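import Mathlib
import Pool.Agent.Work.MP_0532f7_lc.SlUp
import Pool.Agent.Work.MP_0532f7_lc.TD.Hybrid
import Pool.Agent.Work.MP_0532f7_lc.TD.Reader

/-!
# Falsifiability relative to `A ⊕ 1^T` with a table of `T` is in NP relative to `A`
-/

set_option autoImplicit false

namespace Pool.Agent.Work.MP_0532f7_lc.TD

open Polynomial

/-- `exists_fal` with one oracle machine for all oracles -/
theorem fal_unif : ∃ Q C O : List Bool → List Bool, FP Q ∧ FP C ∧ FP O ∧
    (∀ X c y, O (pr (pr c y) (answers Q X (pr c y) (C (pr c y)).length)) = [true] →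
      ∃ φ : OForm, φ.code = c ∧ ∃ u, φ.eval X u = false) ∧
    ∃ P : Polynomial ℕ, ∀ (X : List Bool → Bool) (φ : OForm) (u : List Bool → Bool),
      φ.eval X u = false →
      ∃ y : List Bool, y.length ≤ P.eval φ.code.length ∧
        O (pr (pr φ.code y) (answers Q X (pr φ.code y) (C (pr φ.code y)).length)) = [true] := by
  have key : ∀ X w, slcert_O (pr w (answers slcert_Q X w (slcert_C w).length)) = slcert_F X w :=
    fun X w => rfl
  refine ⟨slcert_Q, slcert_C, slcert_O, slcert_QI, slcert_CI, slcert_OI, ?_,
    2 * (2 * X + 1 + (X + 1) * (2 * (15 * X + 12) + 1)) + 1 + X * (2 * (15 * X + 12) + 1), ?_⟩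
  · intro X c y h
    rw [key, slcert_F_eq, slcert_F_iff] at h
    obtain ⟨φ, h1, h2⟩ := slcert_sound X _ _ _ _ _ h.1 h.2
    exact ⟨φ, h1, _, h2⟩
  · intro X φ u hu
    obtain ⟨v, hv⟩ : ∃ v, v = encL ((gfin_vars φ).filter u) := ⟨_, rfl⟩
    have hev : φ.eval X (fun x => memS x v) = false := by
      rw [← hu]
      refine gfin_eval X u X _ φ (fun _ _ => rfl) (fun x hx => ?_)
      simp only [hv, memS_eq, List.mem_filter]
      by_cases h : u x = true
      · simp [h, hx]
      · simp [h]
    obtain ⟨E, hE⟩ : ∃ E, E = φ.cert X (fun x => memS x v) := ⟨_, rfl⟩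
    obtain ⟨W, hW⟩ : ∃ W, W = [] :: E.map slcert_word := ⟨_, rfl⟩
    obtain ⟨s, hs⟩ : ∃ s, s = encL (W.filter X) := ⟨_, rfl⟩
    have hmem : ∀ x ∈ W, memS x s = X x := by
      intro x hx
      rw [hs, memS_eq]
      by_cases h : X x = true
      · rw [h, decide_eq_true_eq, List.mem_filter]; exact ⟨hx, h⟩
      · rw [decide_eq_false_iff_not.mpr (fun h' => h (List.mem_filter.1 h').2)]
        simpa using h
    have hEl : ∀ e ∈ E, e.length ≤ 15 * φ.code.length + 12 := by
      rw [hE]; exact gder_cert_len X _ φ
    have hEn : E.length ≤ φ.code.length := by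
      rw [hE]; exact gder_cert_num X _ φ
    refine ⟨pr (pr v s) (encL E), ?_, ?_⟩
    · have h1 := gder_encL_len _ _ hEl
      have h2 : (encL W).length ≤ W.length * (2 * (15 * φ.code.length + 12) + 1) := by
        apply gder_encL_len
        intro x hx
        rw [hW, List.mem_cons, List.mem_map] at hx
        rcases hx with rfl | ⟨e, he, rfl⟩
        · simp
        · exact (slcert_word_length e).trans (hEl e he)
      have h3 := gfin_encL_filter X W
      have h4 := gfin_encL_filter u (gfin_vars φ)
      have h5 := gfin_vars_length φ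
      have h6 : W.length = E.length + 1 := by rw [hW]; simp
      rw [h6] at h2
      have h7 : E.length * (2 * (15 * φ.code.length + 12) + 1) ≤
        φ.code.length * (2 * (15 * φ.code.length + 12) + 1) := Nat.mul_le_mul_right _ hEn
      have h8 : (E.length + 1) * (2 * (15 * φ.code.length + 12) + 1) ≤
        (φ.code.length + 1) * (2 * (15 * φ.code.length + 12) + 1) :=
        Nat.mul_le_mul_right _ (by omega)
      rw [← hs] at h3
      rw [← hv] at h4
      rw [pr_length, pr_length]
      simp only [eval_add, eval_mul, eval_X, eval_one, eval_ofNat]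
      omega
    · rw [key, slcert_F_iff]
      refine ⟨?_, fun i _ => ?_⟩
      · unfold gder
        simp only [fs_pr, sn_pr]
        have h1 := gder_iter v s (encL E).length E [] (encL_length _)
        rw [encL_nil] at h1
        rw [h1, sn_pr, memS_eq, decide_eq_true_eq]
        have h2 := slcert_complete X v s φ [] (fun e he => hmem _ (by
          rw [hW, List.mem_cons, List.mem_map]
          exact Or.inr ⟨e, by rw [hE]; exact he, rfl⟩))
        rw [← hE] at h2
        have h3 : φ.item X (fun x => memS x v) = true :: false :: φ.code := by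
          rw [OForm.item, hev]
        rwa [h3] at h2
      · apply hmem
        rw [nth_encL, un_length, hW, List.mem_cons, List.mem_map]
        by_cases hi : i < E.length
        · right
          refine ⟨E[i], List.getElem_mem hi, ?_⟩
          rw [List.getD_eq_getElem?_getD, List.getElem?_eq_getElem hi]
          rfl
        · left
          rw [List.getD_eq_default _ _ (by omega)]
          rfl


/-- the oracle with the table `d` -/
def tbo (A : List Bool → Bool) (d : List Bool) : List Bool → Bool :=
  ojoin A (tally (fun i => d.getD i false))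

/-- the words `pr c d` such that `c` is not the code of a false formula -/
def LN (A : List Bool → Bool) : Set (List Bool) := {w | NF (tbo A (sn w)) (fs w)}

theorem LN_coNP (A : List Bool → Bool) : CoNPRel A (LN A) := by
  obtain ⟨Q, C, O, hQ, hC, hO, h1, P, h2⟩ := fal_unif
  have h3 := hybrid (A := A) (B := fun z i => z.getD i false) (getD_fp FP.snI FP.fsI) hQ hC hO
  have h4 := (h3.pre (k := fun v => pr (sn (fs v)) (pr (fs (fs v)) (sn v)))
    (FP.fsI.snd.pair (FP.fsI.fst.pair FP.snI))).post (k := fun a => if decide (a = [true]) then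
      [false] else [true]) (FP.ite (FPb.eq FP.id (FP.const _)) (FP.const _) (FP.const _))
  refine ⟨_, h4, P, fun z => ?_⟩
  simp only [fs_pr, sn_pr, decide_eq_true_eq]
  constructor
  · intro hz y _
    rw [if_neg]
    intro h5
    obtain ⟨φ, h6, u, h7⟩ := h1 (tbo A (sn z)) _ _ h5
    rw [hz φ h6 u] at h7
    exact absurd h7 (by simp)
  · intro h φ hφ u
    by_contra h5
    rw [Bool.not_eq_true] at h5
    obtain ⟨y, h6, h7⟩ := h2 (tbo A (sn z)) φ u h5
    rw [hφ] at h6 h7
    unfold tbo at h7
    have h8 := h y (h6.trans (pmono P (fs_length z)))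
    rw [if_pos h7] at h8
    exact absurd h8 (by simp)

/-- the table of `T` for formulas of the length of `c` -/
def tbT (T : ℕ → Bool) (c : List Bool) : List Bool := (List.range (c.length + 1)).map T

theorem NF_tab (A : List Bool → Bool) (T : ℕ → Bool) (c : List Bool) :
    pr c (tbT T c) ∈ LN A ↔ NF (ZT A T) c := by
  have key : ∀ φ : OForm, φ.code = c → ∀ u, φ.eval (tbo A (tbT T c)) u = φ.eval (ZT A T) u := by
    intro φ hφ u
    apply eval_len
    intro x hx
    rw [hφ] at hx
    match x, hx with
    | [], _ => rfl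
    | false :: y, _ => rfl
    | true :: y, hx =>
      show tally (fun i => (tbT T c).getD i false) y = tally T y
      unfold tally
      congr 1
      unfold tbT
      rw [List.length_cons] at hx
      show (List.map T (List.range (c.length + 1))).getD y.length false = T y.length
      rw [List.getD_eq_getElem?_getD, List.getElem?_map, List.getElem?_range (by omega)]
      rfl
  unfold LN NF
  rw [Set.mem_ofPred_eq, fs_pr, sn_pr]
  constructor
  · intro h φ hφ u
    rw [← key φ hφ u]
    exact h φ hφ u
  · intro h φ hφ u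
    rw [key φ hφ u]
    exact h φ hφ u

theorem tbT_ptr (A : List Bool → Bool) (T : ℕ → Bool) {f : List Bool → List Bool}
    (hf : PolyTimeRel (ZT A T) f) : PolyTimeRel (ZT A T) (fun w => pr (f w) (tbT T (f w))) := by
  have h1 := tab_ptr A T (q := fun _ j => j) (FP.unL FP.snI) (c := fun z => true :: z)
    (FP.cons true)
  have h2 : PolyTimeRel (ZT A T) (fun w => tbT T (f w)) := by
    have h3 := h1.comp hf
    simp only [List.length_cons] at h3
    exact h3
  exact hf.pair h2

theorem mem_OTAUT_iff (X : List Bool → Bool) (c : List Bool) :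
    c ∈ OTAUT X ↔ (∃ φ : OForm, φ.code = c) ∧ NF X c := by
  constructor
  · intro h
    have h2 := NF_of_mem h
    obtain ⟨φ, h1, -⟩ := h
    exact ⟨⟨φ, h1⟩, h2⟩
  · rintro ⟨⟨φ, h1⟩, h2⟩
    exact ⟨φ, h1, h2 φ h1⟩

/-- certificates for codes -/
theorem exists_cod : ∃ (b : List Bool → Bool) (P : Polynomial ℕ), FPb b ∧
    (∀ c d, b (pr c d) = true → ∃ φ : OForm, φ.code = c) ∧
    ∀ φ : OForm, ∃ d : List Bool, d.length ≤ P.eval φ.code.length ∧ b (pr φ.code d) = true := by
  obtain ⟨der, hder, hd1, P, hd2⟩ := exists_der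
  refine ⟨fun v => cod der (fs v) (sn v), P, FPb.codI hder FP.fsI FP.snI, ?_, ?_⟩
  · intro c d h
    simp only [fs_pr, sn_pr] at h
    unfold cod at h
    rw [Bool.or_eq_true] at h
    rcases h with h | h
    · obtain ⟨φ, h7, -⟩ := hd1 _ _ _ _ _ h; exact ⟨φ, h7⟩
    · obtain ⟨φ, h7, -⟩ := hd1 _ _ _ _ _ h; exact ⟨φ, h7⟩
  · intro φ
    obtain ⟨d, h1, h2⟩ := hd2 φ [] []
    refine ⟨d, h1, ?_⟩
    simp only [fs_pr, sn_pr]
    unfold cod
    rw [Bool.or_eq_true]
    cases hv : φ.eval (fun x => memS x []) (fun x => memS x []) with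
    | true => rw [hv] at h2; exact Or.inl h2
    | false => rw [hv] at h2; exact Or.inr h2

end Pool.Agent.Work.MP_0532f7_lc.TD
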