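import Mathlib
import Pool.Agent.Work.MP_0532f7_lc.TD.Fal

/-!
# The positive halves
-/

set_option autoImplicit false

namespace Pool.Agent.Work.MP_0532f7_lc.TD

open Polynomial

/-- negation of a computed condition -/
theorem not_ptr {V : List Bool → List Bool} {A : List Bool → Bool} (h : PolyTimeRel A V) :
    PolyTimeRel A (fun v => if V v = [true] then [false] else [true]) := by
  have h1 := h.post (k := fun a => if decide (a = [true]) then [false] else [true])
    (FP.ite (FPb.eq FP.id (FP.const _)) (FP.const _) (FP.const _))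
  simpa only [decide_eq_true_eq] using h1

private theorem neg_eq (a : List Bool) : (if a = [true] then [false] else [true]) = [true] ↔
    a ≠ [true] := by
  split_ifs with h
  · simp [h]
  · simp [h]

theorem PRel.compl {A : List Bool → Bool} {L : Set (List Bool)} (h : PRel A L) : PRel A Lᶜ := by
  obtain ⟨D, h1, h2⟩ := h
  exact ⟨_, not_ptr h1, fun z => by rw [neg_eq, Set.mem_compl_iff, ← h2 z]⟩

theorem NPRel.compl {A : List Bool → Bool} {L : Set (List Bool)} (h : NPRel A L) :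
    CoNPRel A Lᶜ := by
  obtain ⟨V, h1, p, h2⟩ := h
  refine ⟨_, not_ptr h1, p, fun z => ?_⟩
  rw [Set.mem_compl_iff, h2 z]
  push Not
  refine forall_congr' fun y => ?_
  rw [neg_eq]

theorem CoNPRel.compl {A : List Bool → Bool} {L : Set (List Bool)} (h : CoNPRel A L) :
    NPRel A Lᶜ := by
  obtain ⟨V, h1, p, h2⟩ := h
  refine ⟨_, not_ptr h1, p, fun z => ?_⟩
  rw [Set.mem_compl_iff, h2 z]
  push Not
  refine exists_congr fun y => ?_
  rw [neg_eq]

theorem PRel.np {A : List Bool → Bool} {L : Set (List Bool)} (h : PRel A L) : NPRel A L := by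
  obtain ⟨D, h1, h2⟩ := h
  refine ⟨fun v => D (fs v), h1.pre FP.fsI, 0, fun z => ?_⟩
  simp only [fs_pr, h2]
  exact ⟨fun h => ⟨[], by simp, h⟩, fun ⟨_, _, h⟩ => h⟩

theorem pos_O {A : List Bool → Bool} (hA : NPeqCoNP A) (T : ℕ → Bool) :
    ∃ f, OptimalRel (ZT A T) f := by
  obtain ⟨V, hV, p, hVp⟩ := (hA _).mpr (LN_coNP A)
  obtain ⟨b, Pb, hb, hb1, hb2⟩ := exists_cod
  obtain ⟨pk, hpk, hpk'⟩ := FP.clock p
  -- the system
  obtain ⟨f, hf⟩ : ∃ f : List Bool → List Bool, f = fun w =>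
    if (V (pr (pr (fs w) (tbT T (fs w))) (fs (sn w))) = [true] ∧
      (fs (sn w)).length ≤ p.eval (pr (fs w) (tbT T (fs w))).length) ∧
      b (pr (fs w) (sn (sn w))) = true then fs w else oTop.code := ⟨_, rfl⟩
  have hfp : PolyTimeRel (ZT A T) f := by
    have h0 := tbT_ptr A T (PolyTimeRel.of_fp FP.fsI (ZT A T))
    have h1 : PolyTimeRel (ZT A T) (fun w => V (pr (pr (fs w) (tbT T (fs w))) (fs (sn w)))) :=
      PolyTimeRel.comp (f := V) (hV.join _) (h0.pair (PolyTimeRel.of_fp FP.snI.fst _))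
    have h2 := ((PolyTimeRel.of_fp FP.id (ZT A T)).pair (h0.pair h1)).post
      (k := fun v => if ((decide (sn (sn v) = [true]) &&
        !decide ((pk (fs (sn v))).length < (fs (sn (fs v))).length)) &&
          b (pr (fs (fs v)) (sn (sn (fs v))))) then fs (fs v) else oTop.code)
      (FP.ite (((FPb.eq FP.snI.snd (FP.const _)).and (FPb.ltI (hpk.comp FP.snI.fst)
        FP.fsI.snd.fst).not).and (hb.comp (FP.fsI.fst.pair FP.fsI.snd.snd)))
        FP.fsI.fst (FP.const _))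
    simp only [fs_pr, sn_pr, Bool.and_eq_true, decide_eq_true_eq, Bool.not_eq_true',
      decide_eq_false_iff_not, not_lt, hpk'] at h2
    rw [hf]
    exact h2
  have hmem : ∀ w, f w ∈ OTAUT (ZT A T) := by
    intro w
    rw [hf]
    beta_reduce
    split_ifs with h
    · rw [mem_OTAUT_iff, ← NF_tab]
      exact ⟨hb1 _ _ h.2, (hVp _).mpr ⟨_, h.1.2, h.1.1⟩⟩
    · exact oTop_mem _
  -- short proofs
  have hshort : ∀ c ∈ OTAUT (ZT A T), ∃ w, f w = c ∧ w.length ≤
      (2 * X + 1 + (2 * p.comp (2 * X + 1 + (X + 1)) + 1 + Pb)).eval c.length := by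
    intro c hc
    rw [mem_OTAUT_iff, ← NF_tab] at hc
    obtain ⟨⟨φ, hφ⟩, h1⟩ := hc
    obtain ⟨y, hy1, hy2⟩ := (hVp _).mp h1
    obtain ⟨d, hd1, hd2⟩ := hb2 φ
    rw [hφ] at hd1 hd2
    refine ⟨pr c (pr y d), ?_, ?_⟩
    · rw [hf]
      simp only [fs_pr, sn_pr]
      rw [if_pos ⟨⟨hy2, hy1⟩, hd2⟩]
    · have e : (pr c (tbT T c)).length = 2 * c.length + 1 + (c.length + 1) := by
        rw [pr_length]; simp [tbT]
      rw [e] at hy1
      rw [pr_length, pr_length]
      simp only [eval_add, eval_mul, eval_comp, eval_X, eval_ofNat, eval_one]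
      omega
  choose! h hh1 hh2 using hshort
  refine ⟨f, ⟨hfp, ?_⟩, fun g hg => ?_⟩
  · apply Set.Subset.antisymm
    · rintro _ ⟨w, rfl⟩
      exact hmem w
    · intro c hc
      exact ⟨h c, hh1 c hc⟩
  · obtain ⟨Pg, hPg⟩ := hg.1.length
    have hgm : ∀ w, g w ∈ OTAUT (ZT A T) := fun w => by rw [← hg.2]; exact ⟨w, rfl⟩
    refine ⟨fun w => h (g w), (2 * X + 1 + (2 * p.comp (2 * X + 1 + (X + 1)) + 1 + Pb)).comp Pg,
      fun w => ⟨hh1 _ (hgm w), (hh2 _ (hgm w)).trans ?_⟩⟩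
    rw [eval_comp]
    exact pmono _ (hPg w)

theorem pos_P {A : List Bool → Bool} (hA : PeqNP A) (T : ℕ → Bool) :
    ∃ f, POptimalRel (ZT A T) f := by
  obtain ⟨b, Pb, hb, hb1, hb2⟩ := exists_cod
  -- decidability of the set of non-falsifiable words
  have h1 : PRel A (LN A) := by
    have h2 := PRel.compl ((hA _).mpr (CoNPRel.compl (LN_coNP A)))
    rwa [compl_compl] at h2
  have h2 : PRel A {c | ∃ φ : OForm, φ.code = c} := by
    apply (hA _).mpr
    refine ⟨fun v => [b v], PolyTimeRel.of_fp hb A, Pb, fun c => ?_⟩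
    rw [Set.mem_ofPred_eq]
    constructor
    · rintro ⟨φ, rfl⟩
      obtain ⟨d, hd1, hd2⟩ := hb2 φ
      exact ⟨d, hd1, by show [b _] = [true]; rw [hd2]⟩
    · rintro ⟨d, -, hd⟩
      exact hb1 c d (by simpa using hd)
  obtain ⟨D1, hD1, hD1'⟩ := h1
  obtain ⟨D2, hD2, hD2'⟩ := h2
  obtain ⟨r, hr⟩ : ∃ r : List Bool → List Bool, r = fun w => run (ZT A T)
    (pr (num (fs w).length) (sn w)) := ⟨_, rfl⟩
  have hrp : PolyTimeRel (ZT A T) r := by
    rw [hr]
    exact (PolyTimeRel.run (ZT A T)).pre ((FP.numI FP.fsI).pair FP.snI)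
  obtain ⟨f, hf⟩ : ∃ f : List Bool → List Bool, f = fun w =>
    if D1 (pr (r w) (tbT T (r w))) = [true] then
      (if D2 (r w) = [true] then r w else oTop.code) else oTop.code := ⟨_, rfl⟩
  have hfp : PolyTimeRel (ZT A T) f := by
    rw [hf]
    exact PolyTimeRel.ite (PolyTimeRel.comp (f := D1) (hD1.join _) (tbT_ptr A T hrp))
      (PolyTimeRel.ite (PolyTimeRel.comp (f := D2) (hD2.join _) hrp) hrp
        (PolyTimeRel.of_fp (FP.const _) _)) (PolyTimeRel.of_fp (FP.const _) _)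
  have hfr : ∀ w, r w ∈ OTAUT (ZT A T) → f w = r w := by
    intro w hw
    rw [mem_OTAUT_iff, ← NF_tab] at hw
    rw [hf]
    beta_reduce
    rw [if_pos ((hD1' _).mpr hw.2), if_pos ((hD2' _).mpr hw.1)]
  have hmem : ∀ w, f w ∈ OTAUT (ZT A T) := by
    intro w
    rw [hf]
    beta_reduce
    split_ifs with h3 h4
    · rw [mem_OTAUT_iff, ← NF_tab]
      exact ⟨(hD2' _).mp h4, (hD1' _).mp h3⟩
    · exact oTop_mem _
    · exact oTop_mem _
  have hsim : ∀ g, PolyTimeRel (ZT A T) g → (∀ w, g w ∈ OTAUT (ZT A T)) →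
      ∃ h, PolyTime h ∧ ∀ w, f (h w) = g w := by
    intro g hg hgs
    obtain ⟨c, P0, hc⟩ := run_spec hg hgs
    obtain ⟨tk, htk, htk'⟩ := FP.clock P0
    refine ⟨fun w => pr (un (val c)) (pr w (un (tk w).length)),
      ((FP.const _).pair (FP.id.pair (FP.unL htk))).polyTime, fun w => ?_⟩
    have h3 : r (pr (un (val c)) (pr w (un (tk w).length))) = g w := by
      rw [hr]
      simp only [fs_pr, sn_pr]
      rw [un_length, num_val]
      exact (hc w _).1 (by rw [un_length, htk'])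
    rw [hfr _ (by rw [h3]; exact hgs w), h3]
  refine ⟨f, ⟨hfp, ?_⟩, fun g hg => hsim g hg.1 (fun w => by rw [← hg.2]; exact ⟨w, rfl⟩)⟩
  apply Set.Subset.antisymm
  · rintro _ ⟨w, rfl⟩
    exact hmem w
  · intro c hc
    obtain ⟨h, -, hh⟩ := hsim _ (PolyTimeRel.of_fp (FP.const c) (ZT A T)) (fun _ => hc)
    exact ⟨h [], hh []⟩

end Pool.Agent.Work.MP_0532f7_lc.TD
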