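import Mathlib
import Pool.Agent.Work.MP_0532f7_lc.SlUp

/-!
# Formulas with oracle gates for the answers of an oracle

The variables `encN [b], ..., encN [b + 2 * l + 1]` of the block `i` (`b = o + i * (2 * l + 2)`)
describe a query and its answer: `encN [b]` is the answer, `encN [b + 1 + e]`, `e ≤ l`, says 'the
query has length `e`', and `encN [b + l + 2 + j]`, `j < l`, are the bits of the query.  `GG κ l o ψ`
says: if for all blocks `i < κ` the answers are those of the oracle `y ↦ X (false :: y)`, then `ψ`.
-/

set_option autoImplicit false

namespace Pool.Agent.Work.MP_0532f7_lc.TD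

open Polynomial

/-- false formula -/
def oFal : OForm := .neg (.imp (.var []) (.var []))

theorem oFal_eval (X v : List Bool → Bool) : oFal.eval X v = false := by
  simp [oFal, OForm.eval]

/-- list of arguments -/
def argsO : List OForm → OForms
  | [] => .nil
  | φ :: L => .cons φ (argsO L)

theorem argsO_evals (X v : List Bool → Bool) (L : List OForm) :
    (argsO L).evals X v = L.map (fun φ => φ.eval X v) := by
  induction L with
  | nil => rfl
  | cons φ L ih =>
    show φ.eval X v :: (argsO L).evals X v = _
    rw [ih]; rfl

theorem argsO_codes (L : List OForm) :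
    (argsO L).codes = L.flatMap (fun φ => true :: φ.code) ++ [false] := by
  induction L with
  | nil => rfl
  | cons φ L ih =>
    show true :: (φ.code ++ (argsO L).codes) = _
    rw [ih]; simp

/-- chain of implications -/
def chainO : List OForm → OForm → OForm
  | [], g => g
  | C :: L, g => .imp C (chainO L g)

theorem imp_eval (X v : List Bool → Bool) (A B : OForm) :
    (OForm.imp A B).eval X v = true ↔ (A.eval X v = true → B.eval X v = true) := by
  simp only [OForm.eval, Bool.or_eq_true, Bool.not_eq_true']
  cases A.eval X v <;> simp

theorem chainO_eval (X v : List Bool → Bool) (L : List OForm) (g : OForm) :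
    (chainO L g).eval X v = true ↔ ((∀ C ∈ L, C.eval X v = true) → g.eval X v = true) := by
  induction L with
  | nil => simp [chainO]
  | cons C L ih =>
    rw [chainO, imp_eval, ih]
    simp only [List.mem_cons, forall_eq_or_imp]
    tauto

theorem chainO_code (L : List OForm) (g : OForm) :
    (chainO L g).code = L.flatMap (fun C => true :: false :: C.code) ++ g.code := by
  induction L with
  | nil => rfl
  | cons C L ih =>
    show true :: false :: (C.code ++ (chainO L g).code) = _
    rw [ih]; simp

/-- equivalence -/
def iffO (A B : OForm) : OForm := .neg (.imp (.imp A B) (.neg (.imp B A)))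

theorem iffO_eval (X v : List Bool → Bool) (A B : OForm) :
    (iffO A B).eval X v = true ↔ A.eval X v = B.eval X v := by
  simp only [iffO, OForm.eval]
  cases A.eval X v <;> cases B.eval X v <;> simp

/-- variable -/
def vO (n : ℕ) : OForm := .var (encN [n])

/-- the clause for the block at `b` and the length `e` -/
def gcl (l b e : ℕ) : OForm :=
  .imp (vO (b + 1 + e)) (iffO (vO b)
    (.orc (argsO (oFal :: (List.range e).map (fun j => vO (b + l + 2 + j))))))

theorem gcl_eval (X v : List Bool → Bool) (l b e : ℕ) : (gcl l b e).eval X v = true ↔
    (v (encN [b + 1 + e]) = true →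
      v (encN [b]) = X (false :: (List.range e).map (fun j => v (encN [b + l + 2 + j])))) := by
  unfold gcl
  rw [imp_eval, iffO_eval]
  have e1 : (OForm.orc (argsO (oFal :: (List.range e).map (fun j => vO (b + l + 2 + j))))).eval X v
      = X (false :: (List.range e).map (fun j => v (encN [b + l + 2 + j]))) := by
    show X ((argsO _).evals X v) = _
    rw [argsO_evals, List.map_cons, oFal_eval, List.map_map]
    rfl
  rw [e1]
  rfl

/-- the formula with the gates -/
def GG (κ l o : ℕ) (ψ : OForm) : OForm :=
  chainO ((List.range κ).flatMap (fun i => (List.range (l + 1)).map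
    (fun e => gcl l (o + i * (2 * l + 2)) e))) ψ

theorem GG_eval (X v : List Bool → Bool) (κ l o : ℕ) (ψ : OForm) :
    (GG κ l o ψ).eval X v = true ↔ ((∀ i < κ, ∀ e ≤ l,
      v (encN [o + i * (2 * l + 2) + 1 + e]) = true →
        v (encN [o + i * (2 * l + 2)]) = X (false :: (List.range e).map
          (fun j => v (encN [o + i * (2 * l + 2) + l + 2 + j])))) → ψ.eval X v = true) := by
  unfold GG
  rw [chainO_eval]
  have h : (∀ C ∈ (List.range κ).flatMap (fun i => (List.range (l + 1)).map
      (fun e => gcl l (o + i * (2 * l + 2)) e)), C.eval X v = true) ↔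
      ∀ i < κ, ∀ e ≤ l, (gcl l (o + i * (2 * l + 2)) e).eval X v = true := by
    simp only [List.mem_flatMap, List.mem_map, List.mem_range]
    constructor
    · intro h i hi e he
      exact h _ ⟨i, hi, e, by omega, rfl⟩
    · rintro h C ⟨i, hi, e, he, rfl⟩
      exact h i hi e (by omega)
  rw [h]
  simp only [gcl_eval]

/-! ### the codes -/

theorem impC_fp {φ ψ : List Bool → OForm} (hf : FP (fun x => (φ x).code))
    (hg : FP (fun x => (ψ x).code)) : FP (fun x => (OForm.imp (φ x) (ψ x)).code) :=
  (FP.cons true).comp ((FP.cons false).comp (hf.app hg))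

theorem negC_fp {φ : List Bool → OForm} (hf : FP (fun x => (φ x).code)) :
    FP (fun x => (OForm.neg (φ x)).code) := (FP.cons false).comp ((FP.cons true).comp hf)

theorem vC_fp {f : List Bool → List Bool} (hf : FP f) : FP (fun x => (vO (f x).length).code) :=
  FP.bSI (FP.unL hf)

theorem iffC_fp {φ ψ : List Bool → OForm} (hf : FP (fun x => (φ x).code))
    (hg : FP (fun x => (ψ x).code)) : FP (fun x => (iffO (φ x) (ψ x)).code) :=
  negC_fp (impC_fp (impC_fp hf hg) (negC_fp (impC_fp hg hf)))

theorem gcl_fp {fl fb fe : List Bool → List Bool} (hl : FP fl) (hb : FP fb) (he : FP fe) :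
    FP (fun x => (gcl (fl x).length (fb x).length (fe x).length).code) := by
  have h1 : FP (fun x => (vO ((fb x).length + 1 + (fe x).length)).code) := by
    refine (vC_fp ((hb.app (FP.const [true])).app he)).congr (fun x => ?_)
    rw [List.length_append, List.length_append]; rfl
  have h2 : FP (fun x => (vO (fb x).length).code) := vC_fp hb
  have hbase : FP (fun x => un ((fb x).length + (fl x).length + 2)) := by
    refine (((FP.unL hb).app (FP.unL hl)).app (FP.const (un 2))).congr (fun x => ?_)
    rw [un_append, un_append]
  have h3 := FP.flat (F := fun p w => true :: bS (p ++ w))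
    ((FP.cons true).comp (FP.bSI (FP.fsI.app FP.snI))) he hbase
  have h4 : FP (fun x => (OForm.orc (argsO (oFal :: (List.range (fe x).length).map
      (fun j => vO ((fb x).length + (fl x).length + 2 + j))))).code) := by
    refine ((FP.cons true).comp ((FP.cons true).comp ((FP.const (true :: oFal.code)).app
      (h3.app (FP.const [false]))))).congr (fun x => ?_)
    show _ = true :: true :: (argsO _).codes
    rw [argsO_codes, List.flatMap_cons, List.flatMap_map, List.append_assoc]
    simp only [un_append]
    rfl
  exact impC_fp h1 (iffC_fp h2 h4)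

theorem GG_fp {fk fl fo : List Bool → List Bool} {Ψ : List Bool → OForm} (hk : FP fk) (hl : FP fl)
    (ho : FP fo) (hΨ : FP (fun x => (Ψ x).code)) :
    FP (fun x => (GG (fk x).length (fl x).length (fo x).length (Ψ x)).code) := by
  have h1 : FP (fun z => true :: false :: (gcl (fs (fs z)).length (sn (fs z)).length
      (sn z).length).code) :=
    (FP.cons true).comp ((FP.cons false).comp (gcl_fp FP.fsI.fst FP.fsI.snd FP.snI))
  have hb : FP (fun z => un ((sn (fs z)).length + (sn z).length * (2 * (fs (fs z)).length + 2))) := by
    refine ((FP.unL FP.fsI.snd).app (FP.mulU FP.snI ((FP.mulU (FP.const [true, true])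
      FP.fsI.fst).app (FP.const [true, true])))).congr (fun z => ?_)
    rw [un_append, List.length_append, un_length]
    rfl
  have h2 := FP.flat (F := fun q w => true :: false :: (gcl (fs q).length (sn q).length
    w.length).code) h1 (c := fun z => true :: fs (fs z))
    (h := fun z => pr (fs (fs z)) (un ((sn (fs z)).length + (sn z).length *
      (2 * (fs (fs z)).length + 2)))) ((FP.cons true).comp FP.fsI.fst) (FP.fsI.fst.pair hb)
  have h3 := FP.flat (F := fun p w => (List.range (true :: fs p).length).flatMap
    (fun e => true :: false :: (gcl (fs p).length ((sn p).length + w.length *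
      (2 * (fs p).length + 2)) e).code)) (by
      refine h2.congr (fun z => ?_)
      simp only [fs_pr, sn_pr, un_length]) hk (hl.pair ho)
  refine (h3.app hΨ).congr (fun x => ?_)
  unfold GG
  rw [chainO_code, List.flatMap_assoc]
  simp only [fs_pr, sn_pr, un_length, List.length_cons, List.flatMap_map]

end Pool.Agent.Work.MP_0532f7_lc.TD
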