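import Mathlib
import Pool.Agent.Work.MP_0532f7_lc.SlUp
import Pool.Agent.Work.MP_0532f7_lc.TD.ExFP

/-!
# A plain predicate for an oracle computation with given answers
-/

set_option autoImplicit false

namespace Pool.Agent.Work.MP_0532f7_lc.TD

open Polynomial

/-- start of the block `i` -/
def bpos (o l i : ℕ) : ℕ := o + i * (2 * l + 2)

/-- the answers in the blocks -/
def awd (o l n : ℕ) (W : List Bool) : List Bool :=
  (List.range n).map (fun i => W.getD (bpos o l i) false)

/-- the answers are those of the oracle `A` -/
def KW (A : List Bool → Bool) (o κ l : ℕ) (W : List Bool) : Prop :=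
  ∀ i < κ, ∀ e ≤ l, W.getD (bpos o l i + 1 + e) false = true →
    W.getD (bpos o l i) false =
      A ((List.range e).map (fun j => W.getD (bpos o l i + l + 2 + j) false))

/-- the block `i` describes the query `q` -/
def okb (o l : ℕ) (q W : List Bool) (i : ℕ) : Bool :=
  W.getD (bpos o l i + 1 + q.length) false &&
    decide ((W.drop (bpos o l i + l + 2)).take q.length = q)

/-- the first `n` queries are described -/
def conW (Q : List Bool → List Bool) (o l : ℕ) (w W : List Bool) (n : ℕ) : Prop :=
  ∀ i < n, okb o l (Q (pr w (awd o l i W))) W i = true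

theorem awd_length (o l n : ℕ) (W : List Bool) : (awd o l n W).length = n := by simp [awd]

theorem awd_succ (o l n : ℕ) (W : List Bool) :
    awd o l (n + 1) W = awd o l n W ++ [W.getD (bpos o l n) false] := by
  unfold awd
  rw [List.range_succ, List.map_append]
  rfl

private theorem take_map_getD (q W : List Bool) (s : ℕ) (h : (W.drop s).take q.length = q) :
    (List.range q.length).map (fun j => W.getD (s + j) false) = q := by
  conv_rhs => rw [← h]
  have hl : ((W.drop s).take q.length).length = q.length := by rw [h]
  apply List.ext_getElem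
  · rw [List.length_map, List.length_range, hl]
  · intro j h1 h2
    rw [List.getElem_map, List.getElem_range, List.getElem_take, List.getElem_drop,
      List.getD_eq_getElem?_getD, List.getElem?_eq_getElem]
    rfl

private theorem map_getD (q : List Bool) :
    (List.range q.length).map (fun j => q.getD j false) = q := by
  have := take_map_getD q q 0 (by simp)
  simpa using this

private theorem awd_eq {A : List Bool → Bool} {Q : List Bool → List Bool} {o κ l : ℕ}
    {w W : List Bool} (hK : KW A o κ l W) (hl : ∀ a : List Bool, a.length ≤ κ →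
      (Q (pr w a)).length ≤ l) : ∀ n ≤ κ, conW Q o l w W n → awd o l n W = answers Q A w n := by
  intro n
  induction n with
  | zero => intro _ _; rfl
  | succ n ih =>
    intro hn hc
    have h1 := ih (by omega) (fun i hi => hc i (by omega))
    rw [awd_succ, h1]
    show _ = answers Q A w n ++ [A (Q (pr w (answers Q A w n)))]
    have h2 := hc n (by omega)
    rw [h1] at h2
    unfold okb at h2
    rw [Bool.and_eq_true, decide_eq_true_eq] at h2
    have h3 := hK n (by omega) _ (hl _ (by rw [answers_length]; omega)) h2.1
    rw [h3, take_map_getD _ _ _ h2.2]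

/-- bits of a word with correct answers -/
private def gbit (A : List Bool → Bool) (Q : List Bool → List Bool) (o l : ℕ) (w Y : List Bool)
    (n : ℕ) : Bool :=
  if n < o then Y.getD n false
  else if (n - o) % (2 * l + 2) = 0 then A (Q (pr w (answers Q A w ((n - o) / (2 * l + 2)))))
  else if (n - o) % (2 * l + 2) < l + 2 then decide ((n - o) % (2 * l + 2) - 1 =
    (Q (pr w (answers Q A w ((n - o) / (2 * l + 2))))).length)
  else (Q (pr w (answers Q A w ((n - o) / (2 * l + 2))))).getD ((n - o) % (2 * l + 2) - (l + 2))
    false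

private theorem gdm (o l i r : ℕ) (hr : r < 2 * l + 2) :
    ¬ bpos o l i + r < o ∧ (bpos o l i + r - o) % (2 * l + 2) = r ∧
      (bpos o l i + r - o) / (2 * l + 2) = i := by
  unfold bpos
  have e : o + i * (2 * l + 2) + r - o = r + i * (2 * l + 2) := by omega
  refine ⟨by omega, ?_, ?_⟩
  · rw [e, Nat.add_mul_mod_self_right, Nat.mod_eq_of_lt hr]
  · rw [e, Nat.add_mul_div_right _ _ (by omega), Nat.div_eq_of_lt hr, Nat.zero_add]

private theorem exists_good (A : List Bool → Bool) (Q : List Bool → List Bool) {o κ l : ℕ}
    {w Y : List Bool} (hY : Y.length = o) (hl : ∀ a : List Bool, a.length ≤ κ →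
      (Q (pr w a)).length ≤ l) : ∃ W : List Bool, W.length = o + κ * (2 * l + 2) ∧
        W.take o = Y ∧ KW A o κ l W ∧ conW Q o l w W κ ∧ ∀ i ≤ κ, awd o l i W = answers Q A w i := by
  obtain ⟨W, hW⟩ : ∃ W, W = (List.range (o + κ * (2 * l + 2))).map (gbit A Q o l w Y) := ⟨_, rfl⟩
  have hlen : W.length = o + κ * (2 * l + 2) := by rw [hW]; simp
  have hget : ∀ n, n < o + κ * (2 * l + 2) → W.getD n false = gbit A Q o l w Y n := by
    intro n hn
    rw [hW, List.getD_eq_getElem?_getD, List.getElem?_map, List.getElem?_range hn]
    rfl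
  have hpos : ∀ i < κ, ∀ r < 2 * l + 2, bpos o l i + r < o + κ * (2 * l + 2) := by
    intro i hi r hr
    have : (i + 1) * (2 * l + 2) ≤ κ * (2 * l + 2) := Nat.mul_le_mul_right _ hi
    rw [Nat.succ_mul] at this
    unfold bpos
    omega
  have hql : ∀ i ≤ κ, (Q (pr w (answers Q A w i))).length ≤ l := fun i hi =>
    hl _ (by rw [answers_length]; exact hi)
  -- the bits of the blocks
  have b0 : ∀ i < κ, W.getD (bpos o l i) false = A (Q (pr w (answers Q A w i))) := by
    intro i hi
    have h1 := gdm o l i 0 (by omega)
    rw [Nat.add_zero] at h1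
    have h2 := hpos i hi 0 (by omega)
    rw [Nat.add_zero] at h2
    rw [hget _ h2]
    unfold gbit
    rw [if_neg h1.1, if_pos h1.2.1, h1.2.2]
  have b1 : ∀ i < κ, ∀ e ≤ l, W.getD (bpos o l i + 1 + e) false =
      decide (e = (Q (pr w (answers Q A w i))).length) := by
    intro i hi e he
    have h1 := gdm o l i (1 + e) (by omega)
    rw [← Nat.add_assoc] at h1
    have h2 := hpos i hi (1 + e) (by omega)
    rw [← Nat.add_assoc] at h2
    rw [hget _ h2]
    unfold gbit
    rw [if_neg h1.1, h1.2.1, if_neg (by omega), if_pos (by omega), h1.2.2,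
      Nat.add_sub_cancel_left]
  have b2 : ∀ i < κ, ∀ j < l, W.getD (bpos o l i + l + 2 + j) false =
      (Q (pr w (answers Q A w i))).getD j false := by
    intro i hi j hj
    have h1 := gdm o l i (l + 2 + j) (by omega)
    rw [← Nat.add_assoc, ← Nat.add_assoc] at h1
    have h2 := hpos i hi (l + 2 + j) (by omega)
    rw [← Nat.add_assoc, ← Nat.add_assoc] at h2
    rw [hget _ h2]
    unfold gbit
    rw [if_neg h1.1, h1.2.1, if_neg (by omega), if_neg (by omega), h1.2.2,
      Nat.add_sub_cancel_left]
  have hans : ∀ i ≤ κ, awd o l i W = answers Q A w i := by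
    intro i
    induction i with
    | zero => intro _; rfl
    | succ i ih =>
      intro hi
      rw [awd_succ, ih (by omega), b0 i (by omega)]
      rfl
  refine ⟨W, hlen, ?_, ?_, ?_, hans⟩
  · apply List.ext_getElem
    · rw [List.length_take, hlen, hY]; omega
    · intro n h1 h2
      rw [List.getElem_take]
      have h3 : n < o := by rw [← hY]; exact h2
      have h4 := hget n (by omega)
      rw [List.getD_eq_getElem?_getD, List.getElem?_eq_getElem (by omega)] at h4
      unfold gbit at h4
      rw [if_pos h3, List.getD_eq_getElem?_getD, List.getElem?_eq_getElem h2] at h4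
      exact h4
  · intro i hi e he h1
    rw [b1 i hi e he, decide_eq_true_eq] at h1
    rw [b0 i hi]
    congr 1
    subst h1
    conv_lhs => rw [← map_getD (Q (pr w (answers Q A w i)))]
    apply List.map_congr_left
    intro j hj
    rw [List.mem_range] at hj
    rw [b2 i hi j (by omega)]
  · intro i hi
    rw [hans i (by omega)]
    unfold okb
    have h5 := hql i (by omega)
    rw [b1 i hi _ h5, Bool.and_eq_true, decide_eq_true_eq, decide_eq_true_eq]
    refine ⟨rfl, ?_⟩
    have h6 : bpos o l i + l + 2 + (Q (pr w (answers Q A w i))).length ≤ W.length := by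
      rw [hlen]
      have := hpos i hi (2 * l + 1) (by omega)
      omega
    apply List.ext_getElem
    · rw [List.length_take, List.length_drop]
      omega
    · intro j h1 h2
      have h3 := b2 i hi j (by omega)
      rw [List.getElem_take, List.getElem_drop]
      rw [List.getD_eq_getElem?_getD, List.getElem?_eq_getElem (by omega),
        List.getD_eq_getElem?_getD, List.getElem?_eq_getElem h2] at h3
      exact h3

/-! ### the predicate -/

section

variable (Q C O : List Bool → List Bool) (o κ l : List Bool → List Bool)

/-- input of the computation; `u = pr z W` -/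
private def sW (u : List Bool) : List Bool := pr (fs u) (fs ((sn u).take (o (fs u)).length))

/-- the answers; `n` given by the length of the second component of `v = pr u (un n)` -/
private def sA (v : List Bool) : List Bool :=
  awd (o (fs (fs v))).length (l (fs (fs v))).length (sn v).length (sn (fs v))

/-- violation at the block `i`; `v = pr u (un i)` -/
private def sV (v : List Bool) : Bool :=
  !okb (o (fs (fs v))).length (l (fs (fs v))).length (Q (pr (sW o (fs v)) (sA o l v)))
    (sn (fs v)) (sn v).length

/-- the predicate -/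
private def sR (u : List Bool) : List Bool :=
  if decide (un (lst (sV Q o l) u (C (sW o u)).length) = un (C (sW o u)).length) then
    O (pr (sW o u) (sA o l (pr u (un (C (sW o u)).length))))
  else [true]

variable {Q C O o κ l}

private theorem sW_fp (ho : FP o) : FP (sW o) :=
  FP.fsI.pair (FP.fst (FP.take (ho.comp FP.fsI) FP.snI))

/-- unary `bpos` -/
private theorem bpos_fp {f g h : List Bool → List Bool} (hf : FP f) (hg : FP g) (hh : FP h) :
    FP (fun x => un (bpos (f x).length (g x).length (h x).length)) := by
  refine ((FP.unL hf).app (FP.mulU hh ((FP.mulU (FP.const [true, true]) hg).app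
    (FP.const [true, true])))).congr (fun x => ?_)
  rw [un_append, List.length_append, un_length]
  rfl

private theorem sA_fp (ho : FP o) (hl : FP l) : FP (sA o l) := by
  have hb : FP (fun z => un (bpos (o (fs (fs z))).length (l (fs (fs z))).length (sn z).length)) :=
    bpos_fp (ho.comp FP.fsI.fst) (hl.comp FP.fsI.fst) FP.snI
  have h1 := FP.flat (F := fun u x => [(sn u).getD (un (bpos (o (fs u)).length (l (fs u)).length
    x.length)).length false]) (getD_fp hb FP.fsI.snd) (c := fun v => sn v) (h := fun v => fs v)
      FP.snI FP.fsI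
  refine h1.congr (fun v => ?_)
  unfold sA awd
  simp only [un_length]
  rw [← List.map_eq_flatMap]

private theorem sV_fp (hQ : FP Q) (ho : FP o) (hl : FP l) : FPb (sV Q o l) := by
  have hq : FP (fun v => Q (pr (sW o (fs v)) (sA o l v))) :=
    hQ.comp (((sW_fp ho).comp FP.fsI).pair (sA_fp ho hl))
  have hb := bpos_fp (ho.comp FP.fsI.fst) (hl.comp FP.fsI.fst) FP.snI
  have h1 := getD_fp ((hb.app (FP.const [true])).app hq) FP.fsI.snd
  have h2 := FPb.eq (FP.take hq (FP.drop ((hb.app (hl.comp FP.fsI.fst)).app
    (FP.const [true, true])) FP.fsI.snd)) hq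
  refine (h1.and h2).not.congr (fun v => ?_)
  unfold sV okb
  simp only [List.length_append, un_length, List.length_cons, List.length_nil]

private theorem sR_fp (hQ : FP Q) (hC : FP C) (hO : FP O) (ho : FP o) (hl : FP l) :
    FP (sR Q C O o l) := by
  have hw := sW_fp ho
  have hc := hC.comp hw
  exact FP.ite (FPb.eq (FP.lstI (sV_fp hQ ho hl) FP.id hc) (FP.unL hc))
    (hO.comp (hw.pair ((sA_fp ho hl).comp (FP.id.pair (FP.unL hc))))) (FP.const [true])

private theorem sR_ok (u : List Bool) (n : ℕ) :
    un (lst (sV Q o l) u n) = un n ↔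
      conW Q (o (fs u)).length (l (fs u)).length (sW o u) (sn u) n := by
  rw [un_eq_iff]
  obtain ⟨h1, h2, h3⟩ := lst_spec (sV Q o l) u n
  have key : ∀ i, sV Q o l (pr u (un i)) = !okb (o (fs u)).length (l (fs u)).length
      (Q (pr (sW o u) (awd (o (fs u)).length (l (fs u)).length i (sn u)))) (sn u) i := by
    intro i
    unfold sV sA
    simp only [fs_pr, sn_pr, un_length]
  constructor
  · intro h i hi
    have h4 := h2 i (by omega)
    rw [key, Bool.not_eq_false'] at h4
    exact h4
  · intro h
    by_contra h4
    have h5 := h3 (by omega)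
    rw [key, h _ (by omega)] at h5
    exact absurd h5 (by simp)

end

theorem sim_pred {Q C O : List Bool → List Bool} (hQ : FP Q) (hC : FP C) (hO : FP O)
    (p : Polynomial ℕ) : ∃ (R : List Bool → List Bool) (κ l : Polynomial ℕ), FP R ∧
      ∀ (A : List Bool → Bool) (z : List Bool),
        (∀ W : List Bool, W.length = 2 * p.eval z.length + 1 + κ.eval z.length *
            (2 * l.eval z.length + 2) →
          KW A (2 * p.eval z.length + 1) (κ.eval z.length) (l.eval z.length) W →
            R (pr z W) = [true]) ↔
        ∀ y : List Bool, y.length ≤ p.eval z.length →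
          O (pr (pr z y) (answers Q A (pr z y) (C (pr z y)).length)) = [true] := by
  obtain ⟨PC, hPC⟩ := hC.length
  obtain ⟨PQ, hPQ⟩ := hQ.length
  obtain ⟨κ, hκ⟩ : ∃ κ : Polynomial ℕ, κ = PC.comp (2 * X + 1 + p) := ⟨_, rfl⟩
  obtain ⟨l, hl⟩ : ∃ l : Polynomial ℕ, l = PQ.comp (2 * (2 * X + 1 + p) + 1 + κ) := ⟨_, rfl⟩
  obtain ⟨of, hof, hof'⟩ := FP.clock (2 * p + 1)
  obtain ⟨lf, hlf, hlf'⟩ := FP.clock l
  have hof2 : ∀ z, (of z).length = 2 * p.eval z.length + 1 := by
    intro z
    rw [hof']; simp only [eval_add, eval_mul, eval_ofNat, eval_one]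
  have hCb : ∀ z y : List Bool, y.length ≤ p.eval z.length →
      (C (pr z y)).length ≤ κ.eval z.length := by
    intro z y hy
    refine (hPC _).trans ?_
    rw [hκ, eval_comp]
    apply pmono
    rw [pr_length]
    simp only [eval_add, eval_mul, eval_ofNat, eval_one, eval_X]
    omega
  have hQb : ∀ z y : List Bool, y.length ≤ p.eval z.length → ∀ a : List Bool,
      a.length ≤ κ.eval z.length → (Q (pr (pr z y) a)).length ≤ l.eval z.length := by
    intro z y hy a ha
    refine (hPQ _).trans ?_
    rw [hl, eval_comp]
    apply pmono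
    rw [pr_length, pr_length]
    simp only [eval_add, eval_mul, eval_ofNat, eval_one, eval_X]
    omega
  refine ⟨sR Q C O of lf, κ, l, sR_fp hQ hC hO hof hlf, fun A z => ⟨fun h y hy => ?_,
    fun h W hW hK => ?_⟩⟩
  · obtain ⟨W, w1, w2, w3, w4, w5⟩ := exists_good A Q (o := 2 * p.eval z.length + 1)
      (κ := κ.eval z.length) (l := l.eval z.length) (w := pr z y)
      (Y := pr y (List.replicate (2 * (p.eval z.length - y.length)) false))
      (by rw [pr_length, List.length_replicate]; omega) (hQb z y hy)
    have h1 := h W w1 w3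
    unfold sR at h1
    have hw : sW of (pr z W) = pr z y := by
      unfold sW
      rw [fs_pr, sn_pr, hof2, w2, fs_pr]
    rw [hw] at h1
    rw [if_pos] at h1
    · unfold sA at h1
      simp only [fs_pr, sn_pr, un_length] at h1
      rw [hof2, hlf', w5 _ (hCb z y hy)] at h1
      exact h1
    · rw [decide_eq_true_eq, sR_ok, hw, fs_pr, sn_pr, hof2, hlf']
      intro i hi
      exact w4 i (lt_of_lt_of_le hi (hCb z y hy))
  · unfold sR
    split_ifs with h1
    · rw [decide_eq_true_eq, sR_ok] at h1
      have hw : sW of (pr z W) = pr z (fs (W.take (2 * p.eval z.length + 1))) := by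
        unfold sW
        rw [fs_pr, sn_pr, hof2]
      have hy : (fs (W.take (2 * p.eval z.length + 1))).length ≤ p.eval z.length := by
        have h2 := fs_sn_length (W.take (2 * p.eval z.length + 1))
        rw [List.length_take] at h2
        omega
      rw [hw, fs_pr, sn_pr, hof2, hlf'] at h1
      unfold sA
      simp only [fs_pr, sn_pr, un_length]
      rw [hw, hof2, hlf', awd_eq hK (hQb z _ hy) _ (hCb z _ hy) h1]
      exact h _ hy
    · rfl

end Pool.Agent.Work.MP_0532f7_lc.TD
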