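import Mathlib
import Pool.Agent.Work.MP_0532f7_lc.CookLevin

/-!
# The tableau formula under a single valuation

`cl_val`: for a polynomial-time predicate `R` there are formulas `Φ x` (with the input variables
`encN [j]`, `j < p(|x|)`) such that for every set `K` of words: `Φ x` is true under all valuations
whose word of input variables is in `K` iff `R (pr x z) = [true]` for all `z ∈ K` of length `p(|x|)`.
-/

set_option autoImplicit false

namespace Pool.Agent.Work.MP_0532f7_lc.TD

open Polynomial

/-- the word of the input variables -/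
def vwd (m : ℕ) (v : List Bool → Bool) : List Bool := (List.range m).map (fun j => v (encN [j]))

theorem vwd_length (m : ℕ) (v : List Bool → Bool) : (vwd m v).length = m := by simp [vwd]

private theorem himp (v : List Bool → Bool) (A B : Form) :
    (Form.imp A B).eval v = true ↔ (A.eval v = true → B.eval v = true) := by
  simp only [Form.eval, Bool.or_eq_true, Bool.not_eq_true']
  cases A.eval v <;> simp

private theorem hneg (v : List Bool → Bool) (A : Form) :
    (Form.neg A).eval v = true ↔ ¬ A.eval v = true := by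
  simp only [Form.eval, Bool.not_eq_true', Bool.not_eq_true]

section

variable (T : List (List ℕ)) (N q0 K k0 k1 i0 i1 o1 : ℕ)

private theorem clauses_vwd (u : List Bool) (m τ : ℕ) (v : List Bool → Bool) :
    (∀ C ∈ clauses T N q0 K k0 i0 i1 u m τ, C.eval v = true) ↔
      ∀ C ∈ clauses T N q0 K k0 i0 i1 (u ++ vwd m v) 0 τ, C.eval v = true := by
  have hlen : (u ++ vwd m v).length = u.length + m := by rw [List.length_append, vwd_length]
  have hU : ∀ i < u.length, clU k0 i0 i1 (u ++ vwd m v) i = clU k0 i0 i1 u i := by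
    intro i hi
    unfold clU
    rw [List.drop_append_of_le_length (by omega), List.head?_append_of_ne_nil]
    intro h
    rw [List.drop_eq_nil_iff] at h
    omega
  have hU2 : ∀ j < m, clU k0 i0 i1 (u ++ vwd m v) (u.length + j) =
      vX 0 k0 (u.length + j) (bs i0 i1 (v (encN [j]))) := by
    intro j hj
    unfold clU
    rw [List.head?_drop, List.getElem?_append_right (by omega), Nat.add_sub_cancel_left]
    unfold vwd
    rw [List.getElem?_map, List.getElem?_range hj]
    rfl
  have hZ : ∀ j < m, (∀ C ∈ clZ k0 i0 i1 u.length j, C.eval v = true) ↔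
      (vX 0 k0 (u.length + j) (bs i0 i1 (v (encN [j])))).eval v = true := by
    intro j _
    unfold clZ
    simp only [List.mem_cons, List.not_mem_nil, or_false, forall_eq_or_imp, forall_eq]
    rw [himp, himp, hneg]
    have e : (vB j).eval v = v (encN [j]) := rfl
    rw [e]
    cases v (encN [j]) <;> simp
  unfold clauses
  rw [hlen]
  simp only [List.mem_append, mem_catL, List.mem_singleton, Nat.add_zero, Nat.not_lt_zero,
    false_and, exists_false, false_or]
  constructor
  · intro h C hC
    rcases hC with hC | hC | ⟨i, hi, rfl⟩ | hC | hC | hC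
    · exact h _ (Or.inl hC)
    · exact h _ (Or.inr (Or.inl hC))
    · rcases Nat.lt_or_ge i u.length with h1 | h1
      · rw [hU i h1]
        exact h _ (Or.inr (Or.inr (Or.inl ⟨i, h1, rfl⟩)))
      · obtain ⟨j, rfl⟩ := Nat.exists_eq_add_of_le h1
        rw [hU2 j (by omega), ← hZ j (by omega)]
        intro C hC
        exact h _ (Or.inr (Or.inr (Or.inr (Or.inl ⟨j, by omega, hC⟩))))
    · exact h _ (Or.inr (Or.inr (Or.inr (Or.inr (Or.inl hC)))))
    · exact h _ (Or.inr (Or.inr (Or.inr (Or.inr (Or.inr (Or.inl hC))))))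
    · exact h _ (Or.inr (Or.inr (Or.inr (Or.inr (Or.inr (Or.inr hC))))))
  · intro h C hC
    rcases hC with hC | hC | ⟨i, hi, rfl⟩ | ⟨j, hj, hC⟩ | hC | hC | hC
    · exact h _ (Or.inl hC)
    · exact h _ (Or.inr (Or.inl hC))
    · rw [← hU i hi]
      exact h _ (Or.inr (Or.inr (Or.inl ⟨i, by omega, rfl⟩)))
    · refine (hZ j hj).mpr ?_ C hC
      rw [← hU2 j hj]
      exact h _ (Or.inr (Or.inr (Or.inl ⟨u.length + j, by omega, rfl⟩)))
    · exact h _ (Or.inr (Or.inr (Or.inr (Or.inl hC))))
    · exact h _ (Or.inr (Or.inr (Or.inr (Or.inr (Or.inl hC)))))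
    · exact h _ (Or.inr (Or.inr (Or.inr (Or.inr (Or.inr hC)))))

/-- the tableau formula without unknown input bits does not mention the input variables -/
private theorem tabF_congr (u : List Bool) (τ : ℕ) {v v' : List Bool → Bool}
    (h : ∀ L : List ℕ, L.length ≠ 1 → v (encN L) = v' (encN L)) :
    (tabF T N q0 K k0 k1 i0 i1 o1 u 0 τ).eval v = true ↔
      (tabF T N q0 K k0 k1 i0 i1 o1 u 0 τ).eval v' = true := by
  have hQ : ∀ t s, (vQ t s).eval v = (vQ t s).eval v' := fun t s => h [t, s] (by simp)
  have hX : ∀ t k i c, (vX t k i c).eval v = (vX t k i c).eval v' :=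
    fun t k i c => h [t, k, i, c] (by simp)
  have hI : ∀ A B : Form, A.eval v = A.eval v' → B.eval v = B.eval v' →
      (Form.imp A B).eval v = (Form.imp A B).eval v' := by
    intro A B h1 h2
    simp only [Form.eval, h1, h2]
  have hC : ∀ C ∈ clauses T N q0 K k0 i0 i1 u 0 τ, C.eval v = C.eval v' := by
    intro C hC
    unfold clauses at hC
    simp only [List.mem_append, mem_catL, List.mem_singleton] at hC
    rcases hC with ⟨t, ht, s, hs, c, hc, rfl⟩ | ⟨t, ht, i, hi, s, hs, k, hk, c, hc, rfl⟩ |
      ⟨i, hi, rfl⟩ | ⟨j, hj, hC⟩ | ⟨i, hi, rfl⟩ | ⟨i, hi, k, hk, hC⟩ | rfl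
    · exact hI _ _ (hQ _ _) (hI _ _ (hX _ _ _ _) (hQ _ _))
    · exact hI _ _ (hQ _ _) (hI _ _ (hX _ _ _ _) (hX _ _ _ _))
    · exact hX _ _ _ _
    · omega
    · exact hX _ _ _ _
    · split_ifs at hC with hk'
      · simp at hC
      · rw [List.mem_singleton] at hC
        subst hC
        exact hX _ _ _ _
    · exact hQ _ _
  unfold tabF
  rw [chain_eval, chain_eval, hX]
  constructor
  · intro h1 h2
    exact h1 fun C hC' => by rw [hC C hC']; exact h2 C hC'
  · intro h1 h2
    exact h1 fun C hC' => by rw [← hC C hC']; exact h2 C hC'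

end

theorem tabF_val {T : List (List ℕ)} {N q0 K k0 k1 i0 i1 o1 : ℕ}
    (h : ∀ row ∈ T, ∀ a ∈ row, a < N)
    (hK : ∀ row ∈ T, row.getD 1 0 < K) (hk0 : k0 < K) (hk1 : k1 < K)
    (hq : q0 < N) (h0 : i0 < N) (h1 : i1 < N)
    (u : List Bool) (m τ : ℕ) (P : List Bool → Prop) :
    (∀ v, P (vwd m v) → (tabF T N q0 K k0 k1 i0 i1 o1 u m τ).eval v = true) ↔
      ∀ z : List Bool, z.length = m → P z →
        cell ((sstep T)^[τ] (tinit q0 K k0 i0 i1 (u ++ z))).2 k1 0 = o1 + 1 := by
  have key : ∀ v, (tabF T N q0 K k0 k1 i0 i1 o1 u m τ).eval v = true ↔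
      (tabF T N q0 K k0 k1 i0 i1 o1 (u ++ vwd m v) 0 τ).eval v = true := by
    intro v
    unfold tabF
    rw [chain_eval, chain_eval, clauses_vwd]
  constructor
  · intro hv z hz hPz
    have h2 := (tabF_correct h hK hk0 hk1 hq h0 h1 (u ++ z) 0 τ (o1 := o1)).mp (fun v => ?_) [] rfl
    · rwa [List.append_nil] at h2
    · classical
      let v' : List Bool → Bool := fun w =>
        if hw : ∃ j, w = encN [j] then z.getD hw.choose false else v w
      have e1 : ∀ j, v' (encN [j]) = z.getD j false := by
        intro j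
        have hw : ∃ j', encN [j] = encN [j'] := ⟨j, rfl⟩
        show (if hw : ∃ j', encN [j] = encN [j'] then z.getD hw.choose false else _) = _
        rw [dif_pos hw]
        have := encN_inj hw.choose_spec
        simp only [List.cons.injEq, and_true] at this
        rw [← this]
      have e2 : ∀ L : List ℕ, L.length ≠ 1 → v' (encN L) = v (encN L) := by
        intro L hL
        show (if hw : ∃ j', encN L = encN [j'] then z.getD hw.choose false else _) = _
        rw [dif_neg]
        rintro ⟨j, hj⟩
        rw [encN_inj hj] at hL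
        simp at hL
      have e3 : vwd m v' = z := by
        unfold vwd
        apply List.ext_getElem
        · simp [hz]
        · intro j h3 h4
          rw [List.getElem_map, List.getElem_range, e1, List.getD_eq_getElem?_getD,
            List.getElem?_eq_getElem h4]
          rfl
      have h3 := (key v').mp (hv v' (by rw [e3]; exact hPz))
      rw [e3] at h3
      exact (tabF_congr T N q0 K k0 k1 i0 i1 o1 (u ++ z) τ e2).mp h3
  · intro hz v hPv
    rw [key]
    refine (tabF_correct h hK hk0 hk1 hq h0 h1 (u ++ vwd m v) 0 τ (o1 := o1)).mpr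
      (fun z' hz' => ?_) v
    rw [List.length_eq_zero_iff.mp hz', List.append_nil]
    exact hz _ (vwd_length m v) hPv

theorem cl_val {R : List Bool → List Bool} (hR : FP R) (p : Polynomial ℕ) :
    ∃ Φ : List Bool → Form, FP (fun x => (Φ x).code) ∧ ∀ (x : List Bool) (P : List Bool → Prop),
      (∀ v, P (vwd (p.eval x.length) v) → (Φ x).eval v = true) ↔
        ∀ z : List Bool, z.length = p.eval x.length → P z → R (pr x z) = [true] := by
  let S : List Bool → List Bool := fun w => if decide (R w = [true]) then [true] else [false]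
  have hS : FP S := FP.ite (FPb.eq hR (FP.const _)) (FP.const _) (FP.const _)
  obtain ⟨T, q0, K, k0, k1, i0, i1, o1, Q, hk0, hk1, hK, hT⟩ := table_spec hS.polyTime
  obtain ⟨N, hN⟩ : ∃ N, N = T.flatten.sum + q0 + i0 + i1 + 1 := ⟨_, rfl⟩
  have hTN : ∀ row ∈ T, ∀ a ∈ row, a < N := by
    intro row hr a ha
    have := List.single_le_sum (l := T.flatten) (fun _ _ => Nat.zero_le _) a
      (List.mem_flatten.mpr ⟨row, hr, ha⟩)
    omega
  obtain ⟨mk, hmk, hmk'⟩ := FP.clock p
  obtain ⟨tk, htk, htk'⟩ := FP.clock (Q.comp (2 * X + 1 + p))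
  refine ⟨fun x => tabF T N q0 K k0 k1 i0 i1 o1 (pr x []) (mk x).length (tk x).length,
    (FP.genI T N q0 K k0 k1 i0 i1 o1 (FP.id.pair FP.nil) hmk htk).congr
      (fun x => (gen_eq T N q0 K k0 k1 i0 i1 o1 _ _ _).symm), fun x P => ?_⟩
  beta_reduce
  rw [hmk', tabF_val hTN hK hk0 hk1 (by omega) (by omega) (by omega)]
  have hacc : ∀ z : List Bool, z.length = p.eval x.length →
      (cell ((sstep T)^[(tk x).length] (tinit q0 K k0 i0 i1 (pr x [] ++ z))).2 k1 0 = o1 + 1 ↔
        R (pr x z) = [true]) := by
    intro z hz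
    have e1 : pr x [] ++ z = pr x z := by rw [pr_app]; rfl
    rw [e1]
    have h1 := hT (pr x z) (tk x).length (by
      rw [htk', eval_comp]
      apply pmono
      rw [pr_length, hz]
      simp only [eval_add, eval_mul, eval_ofNat, eval_one, eval_X]
      omega)
    rw [cell_zero]
    have e2 : S (pr x z) = if R (pr x z) = [true] then [true] else [false] := by
      simp only [S, decide_eq_true_eq]
    rw [e2] at h1
    generalize ((sstep T)^[(tk x).length] (tinit q0 K k0 i0 i1 (pr x z))).2.getD k1 [] = st at h1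
    by_cases hc : R (pr x z) = [true]
    · rw [if_pos hc] at h1
      simp only [hc, iff_true]
      cases st with
      | nil => simp at h1
      | cons a l =>
        simp only [List.map_cons, List.cons.injEq, decide_eq_true_eq] at h1
        simpa using h1.1
    · rw [if_neg hc] at h1
      simp only [hc, iff_false]
      cases st with
      | nil => simp
      | cons a l =>
        simp only [List.map_cons, List.cons.injEq, decide_eq_false_iff_not] at h1
        simpa using h1.1
  constructor
  · intro h z hz hP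
    exact (hacc z hz).mp (h z hz hP)
  · intro h z hz hP
    exact (hacc z hz).mpr (h z hz hP)

end Pool.Agent.Work.MP_0532f7_lc.TD
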