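import Mathlib
import Pool.Agent.Work.MP_0532f7_lc.GEmb
import Pool.Agent.Work.MP_0532f7_lc.TD.RCTab
import Pool.Agent.Work.MP_0532f7_lc.TD.RCGate
import Pool.Agent.Work.MP_0532f7_lc.TD.RCSim

/-!
# Cook-Levin relative to the first half of a join
-/

set_option autoImplicit false

namespace Pool.Agent.Work.MP_0532f7_lc.TD

open Polynomial

theorem code_mem_OTAUT (X : List Bool → Bool) (φ : OForm) :
    φ.code ∈ OTAUT X ↔ ∀ v : List Bool → Bool, φ.eval X v = true := by
  constructor
  · rintro ⟨ψ, h1, h2⟩
    rw [← OForm.code_injective h1]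
    exact h2
  · intro h
    exact ⟨φ, rfl, h⟩

theorem tf_exists {Q C O : List Bool → List Bool} (hQ : FP Q) (hC : FP C) (hO : FP O)
    (p : Polynomial ℕ) : ∃ tf : List Bool → List Bool, FP tf ∧
      ∀ (A B : List Bool → Bool) (z : List Bool), tf z ∈ OTAUT (ojoin A B) ↔
        ∀ y : List Bool, y.length ≤ p.eval z.length →
          O (pr (pr z y) (answers Q A (pr z y) (C (pr z y)).length)) = [true] := by
  obtain ⟨R, κ, l, hR, hsim⟩ := sim_pred hQ hC hO p
  obtain ⟨Φ, hΦ, hcl⟩ := cl_val hR (2 * p + 1 + κ * (2 * l + 2))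
  obtain ⟨e, he, he'⟩ := exists_embCode
  obtain ⟨kf, hkf, hkf'⟩ := FP.clock κ
  obtain ⟨lf, hlf, hlf'⟩ := FP.clock l
  obtain ⟨of, hof, hof'⟩ := FP.clock (2 * p + 1)
  have hemb : FP (fun z => (emb (Φ z)).code) := (he.comp hΦ).congr (fun z => he' _)
  refine ⟨_, GG_fp hkf hlf hof hemb, fun A B z => ?_⟩
  rw [code_mem_OTAUT, ← hsim A z]
  have hm : (2 * p + 1 + κ * (2 * l + 2)).eval z.length = 2 * p.eval z.length + 1 +
      κ.eval z.length * (2 * l.eval z.length + 2) := by
    simp only [eval_add, eval_mul, eval_ofNat, eval_one]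
  have ho : (of z).length = 2 * p.eval z.length + 1 := by
    rw [hof']; simp only [eval_add, eval_mul, eval_ofNat, eval_one]
  rw [← hm, ← hcl z (KW A (2 * p.eval z.length + 1) (κ.eval z.length) (l.eval z.length)), hkf',
    hlf', ho, hm]
  apply forall_congr'
  intro v
  rw [GG_eval, emb_eval]
  have hget : ∀ n, n < 2 * p.eval z.length + 1 + κ.eval z.length * (2 * l.eval z.length + 2) →
      (vwd (2 * p.eval z.length + 1 + κ.eval z.length * (2 * l.eval z.length + 2)) v).getD n false
        = v (encN [n]) := by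
    intro n hn
    unfold vwd
    rw [List.getD_eq_getElem?_getD, List.getElem?_map, List.getElem?_range hn]
    rfl
  have hpos : ∀ i < κ.eval z.length, ∀ r < 2 * l.eval z.length + 2,
      2 * p.eval z.length + 1 + i * (2 * l.eval z.length + 2) + r <
        2 * p.eval z.length + 1 + κ.eval z.length * (2 * l.eval z.length + 2) := by
    intro i hi r hr
    have : (i + 1) * (2 * l.eval z.length + 2) ≤ κ.eval z.length * (2 * l.eval z.length + 2) :=
      Nat.mul_le_mul_right _ hi
    rw [Nat.succ_mul] at this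
    omega
  have key : KW A (2 * p.eval z.length + 1) (κ.eval z.length) (l.eval z.length)
      (vwd (2 * p.eval z.length + 1 + κ.eval z.length * (2 * l.eval z.length + 2)) v) ↔
      (∀ i < κ.eval z.length, ∀ e ≤ l.eval z.length,
        v (encN [2 * p.eval z.length + 1 + i * (2 * l.eval z.length + 2) + 1 + e]) = true →
        v (encN [2 * p.eval z.length + 1 + i * (2 * l.eval z.length + 2)]) =
          ojoin A B (false :: (List.range e).map (fun j => v (encN [2 * p.eval z.length + 1 +
            i * (2 * l.eval z.length + 2) + l.eval z.length + 2 + j])))) := by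
    unfold KW bpos
    refine forall_congr' fun i => forall_congr' fun hi => forall_congr' fun e =>
      forall_congr' fun he => ?_
    have h1 := hpos i hi (1 + e) (by omega)
    have h2 := hpos i hi 0 (by omega)
    rw [← Nat.add_assoc] at h1
    rw [Nat.add_zero] at h2
    rw [hget _ h1, hget _ h2]
    have h3 : (List.range e).map (fun j => (vwd (2 * p.eval z.length + 1 + κ.eval z.length *
        (2 * l.eval z.length + 2)) v).getD (2 * p.eval z.length + 1 + i *
          (2 * l.eval z.length + 2) + l.eval z.length + 2 + j) false) =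
        (List.range e).map (fun j => v (encN [2 * p.eval z.length + 1 +
            i * (2 * l.eval z.length + 2) + l.eval z.length + 2 + j])) := by
      apply List.map_congr_left
      intro j hj
      rw [List.mem_range] at hj
      have h4 := hpos i hi (l.eval z.length + 2 + j) (by omega)
      rw [← Nat.add_assoc, ← Nat.add_assoc] at h4
      exact hget _ h4
    rw [h3]
    rfl
  rw [key]

theorem tf_of_coNP {A : List Bool → Bool} {𝓛 : Set (List Bool)} (h : CoNPRel A 𝓛) :
    ∃ tf : List Bool → List Bool, FP tf ∧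
      ∀ (B : List Bool → Bool) (z : List Bool), tf z ∈ OTAUT (ojoin A B) ↔ z ∈ 𝓛 := by
  obtain ⟨V, ⟨Q, C, O, hQ, hC, hO, hV⟩, p, hp⟩ := h
  obtain ⟨tf, h1, h2⟩ := tf_exists hQ.fp hC.fp hO.fp p
  refine ⟨tf, h1, fun B z => ?_⟩
  rw [h2, hp]
  simp only [hV]

end Pool.Agent.Work.MP_0532f7_lc.TD
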