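import Mathlib
import Pool.Agent.Work.MP_0532f7_lc.TD.Defs

/-!
# TD.BorCol (size M-L, Mathlib only): almost all columns bounded

Let `U a b c d` be clopen, `S = ⋃ a, ⋂ b, ⋃ c, ⋂ d, U a b c d`.

STEP 1.  `r a b y n := sInf {c | c = n ∨ ∀ d ≤ n, y ∈ U a b c d}` (`≤ n`).  It is nondecreasing in
`n`: let `c = r a b y (n+1)`; if `c = n + 1` then `r a b y n ≤ n < c`; otherwise `c` belongs to the
set for `n`.  It is bounded in `n` iff `∃ c, ∀ d, y ∈ U a b c d`: if this holds then `r ≤ c`.
If `r ≤ B` for all `n`, then for every `n > B` some `c ≤ B` has `∀ d ≤ n, y ∈ U a b c d`; some `c ≤ B`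
occurs for infinitely many `n` (pigeonhole), so `∀ d`.  (Or: if for every `c ≤ B` there is a `d_c`
with `y ∉ U a b c d_c`, then for `n > B` and `n ≥ max d_c` the value is `> B`.)

STEP 2 (increasing unions).  Let `g b a' := ((Encodable.decode (α := List ℕ) b).getD []).getD a' 0`
(every finite sequence of values is of the form `g b 0, ..., g b a`).  Let
`r' a b y n := min over a' ≤ a of r a' (g b a') y n` (`Finset.inf'` or recursion on `a`).
It is nondecreasing in `n`.  (2a) If `y ∈ ⋂ b, ⋃ c, ⋂ d, U a0 b c d` then `r' a b y` is bounded for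
all `a ≥ a0` and all `b`.  (2b) If `y ∉ S` then for every `a` there is a `b` with `r' a b y`
unbounded: choose `b_{a'}` with `r a' b_{a'} y` unbounded for every `a' ≤ a` and `b` with
`g b a' = b_{a'}`; the minimum of finitely many nondecreasing unbounded functions is unbounded.

STEP 3 (columns).  `s a b y n := sup over b' < b of r' a b' y n` (`Finset.sup`), nondecreasing in `n`.
For `m = Nat.pair a (Nat.pair b c)` let
`ρ y m n := sup over n' ≤ n with s a b y n' = c of r' a b y n'` (`Finset.sup` over a filtered range).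
It is nondecreasing in `n`.
If `r' a b y` is bounded for all `b`, all the columns `(a, b, c)` are bounded.  Otherwise let `b_a`
be the least `b` with `r' a b y` unbounded.  Columns with `b < b_a`: bounded.  Columns with
`b > b_a`: `s a b y ≥ r' a b_a y` tends to infinity, so `s a b y n' = c` for finitely many `n'` only:
bounded.  Columns with `b = b_a`: `s a b_a y` is bounded and nondecreasing, so eventually constant
`= c_a`; the column is bounded for `c ≠ c_a` and unbounded for `c = c_a`.
So every `a` contributes at most one unbounded column, and exactly one if some `r' a b y` is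
unbounded.
* `y ∈ S`: by (2a) only `a < a0` contribute; take for `A` one more than the finitely many numbers
  `Nat.pair a (Nat.pair b_a c_a)`, `a < a0`.
* `y ∉ S`: by (2b) every `a` contributes a column `m = Nat.pair a (..) ≥ a` (`Nat.left_le_pair`).

CONTINUITY of `y ↦ ρ y m n`: it is a function of the finitely many truth values `y ∈ U a' b' c d`
with `c, d ≤ n` and finitely many `(a', b')`.  E.g. prove continuity of `r a b · n` first: the
indicator functions of clopen sets are continuous into the discrete space `Bool`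
(`IsClopen` ↔ continuous indicator: `isLocallyConstant`), and `r a b y n` is a function of the
vector of the indicators for `c, d ≤ n` (a continuous map into the finite discrete space
`Fin (n+1) → Fin (n+1) → Bool`, followed by any map).  Then `r'`, `s`, `ρ` are functions of finitely
many values of `r` (pairs of continuous maps into discrete spaces; `continuous_of_discreteTopology`,
`Finset.sup` over `Finset.range` by induction).
-/

set_option autoImplicit false

namespace Pool.Agent.Work.MP_0532f7_lc.TD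

section aux

variable (U : ℕ → ℕ → ℕ → ℕ → Set (ℕ → Bool))

/-- the predicate -/
private def zz (a b n c : ℕ) : Set (ℕ → Bool) := {y | c = n ∨ ∀ d ≤ n, y ∈ U a b c d}

private theorem zz_clopen (hU : ∀ a b c d, IsClopen (U a b c d)) (a b n c : ℕ) :
    IsClopen (zz U a b n c) := by
  by_cases h : c = n
  · have : zz U a b n c = Set.univ := by
      ext y
      simp [zz, h]
    rw [this]
    exact isClopen_univ
  · have : zz U a b n c = ⋂ d ∈ Finset.range (n + 1), U a b c d := by
      ext y
      simp [zz, h, Nat.lt_succ_iff]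
    rw [this]
    exact isClopen_biInter_finset fun d _ => hU a b c d

open scoped Classical in
/-- the least witness, cut off at `n` -/
private noncomputable def rr (y : ℕ → Bool) (a b n : ℕ) : ℕ :=
  Nat.find (⟨n, Or.inl rfl⟩ : ∃ c, y ∈ zz U a b n c)

private theorem rr_cont (hU : ∀ a b c d, IsClopen (U a b c d)) (a b n : ℕ) :
    Continuous fun y => rr U y a b n := by
  classical
  rw [continuous_discrete_rng]
  intro k
  have : (fun y => rr U y a b n) ⁻¹' {k} =
      zz U a b n k ∩ ⋂ c ∈ Finset.range k, (zz U a b n c)ᶜ := by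
    ext y
    simp only [Set.mem_preimage, Set.mem_singleton_iff, Set.mem_inter_iff, Set.mem_iInter,
      Finset.mem_range, Set.mem_compl_iff]
    exact Nat.find_eq_iff _
  rw [this]
  exact ((zz_clopen U hU a b n k).inter
    (isClopen_biInter_finset fun c _ => (zz_clopen U hU a b n c).compl)).isOpen

private theorem rr_mono (y : ℕ → Bool) (a b : ℕ) : Monotone (rr U y a b) := by
  classical
  refine monotone_nat_of_le_succ fun n => ?_
  have h1 : y ∈ zz U a b (n + 1) (rr U y a b (n + 1)) :=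
    Nat.find_spec (⟨n + 1, Or.inl rfl⟩ : ∃ c, y ∈ zz U a b (n + 1) c)
  have h2 : ∀ c, y ∈ zz U a b n c → rr U y a b n ≤ c := fun c hc => Nat.find_min' _ hc
  rcases h1 with h | h
  · have h3 := h2 n (Or.inl rfl)
    omega
  · exact h2 _ (Or.inr fun d hd => h d (by omega))

private theorem rr_bdd {y : ℕ → Bool} {a b : ℕ} (h : ∃ c, ∀ d, y ∈ U a b c d) :
    ∃ B, ∀ n, rr U y a b n ≤ B := by
  classical
  obtain ⟨c, hc⟩ := h
  exact ⟨c, fun n => Nat.find_min' _ (Or.inr fun d _ => hc d)⟩

private theorem rr_unb {y : ℕ → Bool} {a b : ℕ} (h : ¬ ∃ c, ∀ d, y ∈ U a b c d) :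
    ∀ B, ∃ n, B ≤ rr U y a b n := by
  classical
  push Not at h
  choose D hD using h
  intro B
  refine ⟨max B ((Finset.range B).sup D), ?_⟩
  refine (Nat.le_find_iff _ _).2 fun c hc => ?_
  rintro (h | h)
  · have := le_max_left B ((Finset.range B).sup D)
    omega
  · exact hD c (h (D c) ((Finset.le_sup (f := D) (Finset.mem_range.2 hc)).trans
      (le_max_right _ _)))

/-- the sequences of natural numbers -/
private def gg (b a : ℕ) : ℕ := ((Encodable.decode (α := List ℕ) b).getD []).getD a 0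

private theorem gg_surj (f : ℕ → ℕ) (a : ℕ) : ∃ b, ∀ a' ≤ a, gg b a' = f a' := by
  refine ⟨Encodable.encode ((List.range (a + 1)).map f), fun a' ha => ?_⟩
  unfold gg
  rw [Encodable.encodek]
  simp [List.getD_eq_getElem?_getD, Nat.lt_succ_iff.2 ha]

/-- minimum over `a' ≤ a` -/
private noncomputable def rm (y : ℕ → Bool) (b n : ℕ) : ℕ → ℕ
  | 0 => rr U y 0 (gg b 0) n
  | a + 1 => min (rm y b n a) (rr U y (a + 1) (gg b (a + 1)) n)

private theorem rm_le (y : ℕ → Bool) (b n : ℕ) {a a' : ℕ} (h : a' ≤ a) :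
    rm U y b n a ≤ rr U y a' (gg b a') n := by
  induction a with
  | zero =>
    obtain rfl : a' = 0 := by omega
    exact le_rfl
  | succ a ih =>
    rcases Nat.lt_or_ge a a' with h1 | h1
    · obtain rfl : a' = a + 1 := by omega
      exact min_le_right _ _
    · exact (min_le_left _ _).trans (ih h1)

private theorem le_rm (y : ℕ → Bool) (b n B : ℕ) {a : ℕ}
    (h : ∀ a' ≤ a, B ≤ rr U y a' (gg b a') n) : B ≤ rm U y b n a := by
  induction a with
  | zero => exact h 0 le_rfl
  | succ a ih => exact le_min (ih fun a' ha => h a' (by omega)) (h (a + 1) le_rfl)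

private theorem rm_mono (y : ℕ → Bool) (b a : ℕ) : Monotone fun n => rm U y b n a := by
  induction a with
  | zero => exact rr_mono U y 0 _
  | succ a ih => exact fun m n h => min_le_min (ih h) (rr_mono U y _ _ h)

private theorem cont_map₂ {X : Type*} [TopologicalSpace X] {f g : X → ℕ} (F : ℕ → ℕ → ℕ)
    (hf : Continuous f) (hg : Continuous g) : Continuous fun x => F (f x) (g x) :=
  (continuous_of_discreteTopology (f := fun p : ℕ × ℕ => F p.1 p.2)).comp (hf.prodMk hg)

private theorem rm_cont (hU : ∀ a b c d, IsClopen (U a b c d)) (b n a : ℕ) :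
    Continuous fun y => rm U y b n a := by
  induction a with
  | zero => exact rr_cont U hU _ _ _
  | succ a ih => exact cont_map₂ min ih (rr_cont U hU _ _ _)

end aux

section col

/-- supremum of the first `b` columns -/
private def ss (t : ℕ → ℕ → ℕ) (b n : ℕ) : ℕ := (Finset.range b).sup fun b' => t b' n

/-- the column `(b, c)` -/
private def cc (t : ℕ → ℕ → ℕ) (b c n : ℕ) : ℕ :=
  (Finset.range (n + 1)).sup fun n' => if ss t b n' = c then t b n' else 0

private theorem cc_mono (t : ℕ → ℕ → ℕ) (b c : ℕ) : Monotone (cc t b c) := fun m n h =>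
  Finset.sup_mono (Finset.range_mono (by omega))

private theorem ss_mono {t : ℕ → ℕ → ℕ} (ht : ∀ b, Monotone (t b)) (b : ℕ) :
    Monotone (ss t b) := fun _ _ h => Finset.sup_mono_fun fun b' _ => ht b' h

private theorem stab {f : ℕ → ℕ} (hf : Monotone f) {B : ℕ} (hB : ∀ n, f n ≤ B) :
    ∃ N c, ∀ n ≥ N, f n = c := by
  have h1 : BddAbove (Set.range f) := ⟨B, by rintro _ ⟨n, rfl⟩; exact hB n⟩
  obtain ⟨N, hN⟩ := Nat.sSup_mem (Set.range_nonempty f) h1
  refine ⟨N, f N, fun n hn => le_antisymm ?_ (hf hn)⟩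
  rw [hN]
  exact le_csSup h1 ⟨n, rfl⟩

/-- a column with the condition satisfied only finitely often is bounded -/
private theorem cc_bdd_of {t : ℕ → ℕ → ℕ} {b c N : ℕ} (h : ∀ n ≥ N, ss t b n ≠ c) :
    ∃ B, ∀ n, cc t b c n ≤ B := by
  refine ⟨(Finset.range N).sup (t b), fun n => Finset.sup_le fun n' _ => ?_⟩
  by_cases h1 : ss t b n' = c
  · rw [if_pos h1]
    have h2 : n' < N := by
      by_contra h3
      exact h n' (by omega) h1
    exact Finset.le_sup (f := t b) (Finset.mem_range.2 h2)
  · rw [if_neg h1]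
    exact Nat.zero_le _

private theorem cc_bdd {t : ℕ → ℕ → ℕ} {b c B : ℕ} (h : ∀ n, t b n ≤ B) :
    ∀ n, cc t b c n ≤ B := by
  refine fun n => Finset.sup_le fun n' _ => ?_
  by_cases h1 : ss t b n' = c
  · rw [if_pos h1]
    exact h n'
  · rw [if_neg h1]
    exact Nat.zero_le _

/-- the exceptional column -/
private theorem exists_col {t : ℕ → ℕ → ℕ} (ht : ∀ b, Monotone (t b))
    (h : ∃ b, ∀ B, ∃ n, B ≤ t b n) :
    ∃ b0 c0, (∀ B, ∃ n, B ≤ cc t b0 c0 n) ∧
      ∀ b c, ¬ (b = b0 ∧ c = c0) → ∃ B, ∀ n, cc t b c n ≤ B := by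
  classical
  obtain ⟨h0, hmin⟩ : (∀ B, ∃ n, B ≤ t (Nat.find h) n) ∧
      ∀ b < Nat.find h, ¬ ∀ B, ∃ n, B ≤ t b n := ⟨Nat.find_spec h, fun b hb => Nat.find_min h hb⟩
  set b0 := Nat.find h with hb0
  have hlt : ∀ b < b0, ∃ B, ∀ n, t b n ≤ B := by
    intro b hb
    have h1 := hmin b hb
    push Not at h1
    obtain ⟨B, hB⟩ := h1
    exact ⟨B, fun n => (hB n).le⟩
  have hsb : ∃ B, ∀ n, ss t b0 n ≤ B := by
    have h1 : ∀ b, ∃ B, b < b0 → ∀ n, t b n ≤ B := by
      intro b
      by_cases hb : b < b0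
      · obtain ⟨B, hB⟩ := hlt b hb
        exact ⟨B, fun _ => hB⟩
      · exact ⟨0, fun h => absurd h hb⟩
    choose D hD using h1
    refine ⟨(Finset.range b0).sup D, fun n => Finset.sup_le fun b hb => ?_⟩
    exact (hD b (Finset.mem_range.1 hb) n).trans (Finset.le_sup (f := D) hb)
  obtain ⟨B1, hB1⟩ := hsb
  obtain ⟨N, c0, hN⟩ := stab (ss_mono ht b0) hB1
  refine ⟨b0, c0, fun B => ?_, fun b c hbc => ?_⟩
  · obtain ⟨n, hn⟩ := h0 B
    refine ⟨max n N, ?_⟩
    have h1 : t b0 (max n N) ≤ cc t b0 c0 (max n N) := by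
      have h2 := Finset.le_sup (f := fun n' => if ss t b0 n' = c0 then t b0 n' else 0)
        (Finset.mem_range.2 (Nat.lt_succ_self (max n N)))
      simp only [hN _ (le_max_right n N), if_true] at h2
      exact h2
    exact hn.trans ((ht b0 (le_max_left n N)).trans h1)
  · rcases lt_trichotomy b b0 with hb | hb | hb
    · obtain ⟨B, hB⟩ := hlt b hb
      exact ⟨B, cc_bdd hB⟩
    · subst hb
      have hc : c ≠ c0 := fun h => hbc ⟨rfl, h⟩
      exact cc_bdd_of (N := N) fun n hn h => hc (h.symm.trans (hN n hn))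
    · obtain ⟨n0, hn0⟩ := h0 (c + 1)
      refine cc_bdd_of (N := n0) fun n hn h => ?_
      have h1 : t b0 n ≤ ss t b n :=
        Finset.le_sup (f := fun b' => t b' n) (Finset.mem_range.2 hb)
      have h2 := ht b0 hn
      omega

private theorem sup_cont {X : Type*} [TopologicalSpace X] {f : X → ℕ → ℕ}
    (hf : ∀ n, Continuous fun x => f x n) (n : ℕ) :
    Continuous fun x => (Finset.range n).sup (f x) := by
  induction n with
  | zero =>
    simp only [Finset.range_zero, Finset.sup_empty]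
    exact continuous_const
  | succ n ih =>
    simp only [Finset.range_add_one, Finset.sup_insert]
    exact cont_map₂ (fun a b => a ⊔ b) (hf n) ih

private theorem cc_cont {X : Type*} [TopologicalSpace X] {t : X → ℕ → ℕ → ℕ}
    (ht : ∀ b n, Continuous fun x => t x b n) (b c n : ℕ) :
    Continuous fun x => cc (t x) b c n := by
  refine sup_cont (fun n' => ?_) _
  exact cont_map₂ (fun a b => if a = c then b else 0)
    (sup_cont (f := fun x b' => t x b' n') (fun b' => ht b' n') b) (ht b n')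

end col

theorem columns {U : ℕ → ℕ → ℕ → ℕ → Set (ℕ → Bool)} (hU : ∀ a b c d, IsClopen (U a b c d)) :
    ∃ ρ : (ℕ → Bool) → ℕ → ℕ → ℕ, (∀ m n, Continuous (fun y => ρ y m n)) ∧
      (∀ y m, Monotone (ρ y m)) ∧
      (∀ y ∈ ⋃ a, ⋂ b, ⋃ c, ⋂ d, U a b c d, ∃ A, ∀ m ≥ A, ∃ B, ∀ n, ρ y m n ≤ B) ∧
      (∀ y ∉ ⋃ a, ⋂ b, ⋃ c, ⋂ d, U a b c d, ∀ A, ∃ m ≥ A, ∀ B, ∃ n, B ≤ ρ y m n) := by
  classical
  let t : (ℕ → Bool) → ℕ → ℕ → ℕ → ℕ := fun y a b n => rm U y b n a
  have htm : ∀ y a b, Monotone (t y a b) := fun y a b => rm_mono U y b a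
  let ρ : (ℕ → Bool) → ℕ → ℕ → ℕ := fun y m n =>
    cc (t y m.unpair.1) m.unpair.2.unpair.1 m.unpair.2.unpair.2 n
  refine ⟨ρ, fun m n => ?_, fun y m => cc_mono _ _ _, fun y hy => ?_, fun y hy A => ?_⟩
  · exact cc_cont (t := fun y => t y m.unpair.1) (fun b n => rm_cont U hU b n _) _ _ _
  · simp only [Set.mem_iUnion, Set.mem_iInter] at hy
    obtain ⟨a0, ha0⟩ := hy
    have hbig : ∀ a ≥ a0, ∀ b, ∃ B, ∀ n, t y a b n ≤ B := by
      intro a ha b
      obtain ⟨B, hB⟩ := rr_bdd U (ha0 (gg b a0))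
      exact ⟨B, fun n => (rm_le U y b n ha).trans (hB n)⟩
    have hA : ∀ a, ∃ A, ∀ b c, A ≤ Nat.pair a (Nat.pair b c) → ∃ B, ∀ n, cc (t y a) b c n ≤ B := by
      intro a
      by_cases h : ∃ b, ∀ B, ∃ n, B ≤ t y a b n
      · obtain ⟨b0, c0, -, h2⟩ := exists_col (htm y a) h
        refine ⟨Nat.pair a (Nat.pair b0 c0) + 1, fun b c hbc => h2 b c ?_⟩
        rintro ⟨rfl, rfl⟩
        omega
      · push Not at h
        refine ⟨0, fun b c _ => ?_⟩
        obtain ⟨B, hB⟩ := h b
        exact ⟨B, cc_bdd fun n => (hB n).le⟩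
    choose A hA using hA
    refine ⟨(Finset.range a0).sup A, fun m hm => ?_⟩
    by_cases ha : a0 ≤ m.unpair.1
    · obtain ⟨B, hB⟩ := hbig _ ha m.unpair.2.unpair.1
      exact ⟨B, cc_bdd hB⟩
    · apply hA
      rw [Nat.pair_unpair, Nat.pair_unpair]
      exact (Finset.le_sup (f := A) (Finset.mem_range.2 (not_le.1 ha))).trans hm
  · simp only [Set.mem_iUnion, Set.mem_iInter, not_exists, not_forall] at hy
    have hy' : ∀ a, ∃ b, ¬ ∃ c, ∀ d, y ∈ U a b c d := by
      intro a
      obtain ⟨b, hb⟩ := hy a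
      refine ⟨b, ?_⟩
      rintro ⟨c, hc⟩
      obtain ⟨d, hd⟩ := hb c
      exact hd (hc d)
    choose f hf using hy'
    obtain ⟨b, hb⟩ := gg_surj f A
    have hunb : ∀ B, ∃ n, B ≤ t y A b n := by
      intro B
      have h1 : ∀ a', ∃ n, B ≤ rr U y a' (f a') n := fun a' => rr_unb U (hf a') B
      choose N hN using h1
      refine ⟨(Finset.range (A + 1)).sup N, le_rm U y b _ B fun a' ha => ?_⟩
      rw [hb a' ha]
      exact (hN a').trans (rr_mono U y _ _
        (Finset.le_sup (f := N) (Finset.mem_range.2 (by omega))))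
    obtain ⟨b0, c0, h1, -⟩ := exists_col (htm y A) ⟨b, hunb⟩
    refine ⟨Nat.pair A (Nat.pair b0 c0), Nat.left_le_pair _ _, fun B => ?_⟩
    obtain ⟨n, hn⟩ := h1 B
    refine ⟨n, ?_⟩
    show B ≤ cc (t y (Nat.pair A (Nat.pair b0 c0)).unpair.1)
      (Nat.pair A (Nat.pair b0 c0)).unpair.2.unpair.1
      (Nat.pair A (Nat.pair b0 c0)).unpair.2.unpair.2 n
    rw [Nat.unpair_pair]
    simp only [Nat.unpair_pair]
    exact hn

end Pool.Agent.Work.MP_0532f7_lc.TD
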