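import Mathlib
import Pool.Agent.Work.MP_0532f7_lc.TD.Defs

/-!
# TD.BorNF (size S-M, Mathlib and Defs only): the normal form of a Sigma^0_4 set

(1) `open_clopen`: an open set of `ℕ → Bool` is a countable union of clopen sets: the clopen sets form
a basis (`isTopologicalBasis_isClopen` for compact Hausdorff totally disconnected spaces, or the
cylinders directly), the space is second countable, so the open set is the union of countably many
of them (`TopologicalSpace.isOpen_biUnion_countable` / `IsTopologicalBasis.exists_countable` /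
Lindelöf).  An elementary way: for every finite set of positions and bits the cylinder
`{y | ∀ i < n, y i = σ i}` is clopen, there are countably many pairs `(n, σ)`, `σ : Fin n → Bool`,
and `S` is the union of the cylinders contained in `S` (enumerate the countable type
`Σ n, (Fin n → Bool)`, take `∅` for the cylinders not contained in `S`).

(2) unfold `SigmaSet 3 S`: `S = ⋃ a, V a`, `(V a)ᶜ = ⋃ b, W a b`, `(W a b)ᶜ = ⋃ c, X a b c` and
`(X a b c)ᶜ` open, so `(X a b c)ᶜ = ⋃ d, Y a b c d` with `Y` clopen.  Hence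
`S = ⋃ a, ⋂ b, ⋃ c, ⋂ d, (Y a b c d)ᶜ`.
-/

set_option autoImplicit false

namespace Pool.Agent.Work.MP_0532f7_lc.TD

theorem open_clopen {S : Set (ℕ → Bool)} (h : IsOpen S) :
    ∃ V : ℕ → Set (ℕ → Bool), (∀ k, IsClopen (V k)) ∧ S = ⋃ k, V k := by
  have hb := isTopologicalBasis_isClopen (X := ℕ → Bool)
  obtain ⟨C, hC, hCS⟩ := hb.open_eq_sUnion h
  obtain ⟨T, hTc, hTC, hTU⟩ := TopologicalSpace.isOpen_sUnion_countable C
    (fun s hs => (hC hs : IsClopen s).isOpen)
  have hne : (insert ∅ T).Nonempty := ⟨∅, Set.mem_insert _ _⟩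
  obtain ⟨V, hV⟩ := (hTc.insert ∅).exists_eq_range hne
  refine ⟨V, fun k => ?_, ?_⟩
  · have hk : V k ∈ insert ∅ T := by
      rw [hV]
      exact Set.mem_range_self k
    rcases Set.mem_insert_iff.1 hk with h1 | h1
    · rw [h1]
      exact isClopen_empty
    · exact hC (hTC h1)
  · rw [hCS, ← hTU, ← Set.sUnion_range, ← hV, Set.sUnion_insert, Set.empty_union]

theorem sig_three {S : Set (ℕ → Bool)} (h : SigmaSet 3 S) :
    ∃ U : ℕ → ℕ → ℕ → ℕ → Set (ℕ → Bool), (∀ a b c d, IsClopen (U a b c d)) ∧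
      S = ⋃ a, ⋂ b, ⋃ c, ⋂ d, U a b c d := by
  obtain ⟨V, hV1, hV2⟩ := h
  choose W hW1 hW2 using hV1
  choose X hX1 hX2 using hW1
  have hY : ∀ a b c, ∃ Y : ℕ → Set (ℕ → Bool), (∀ k, IsClopen (Y k)) ∧
      (X a b c)ᶜ = ⋃ k, Y k := fun a b c => open_clopen (hX1 a b c)
  choose Y hY1 hY2 using hY
  refine ⟨fun a b c d => (Y a b c d)ᶜ, fun a b c d => (hY1 a b c d).compl, ?_⟩
  rw [hV2]
  congr 1
  funext a
  rw [← compl_compl (V a), hW2 a, Set.compl_iUnion]
  congr 1
  funext b
  rw [hX2 a b]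
  congr 1
  funext c
  rw [← compl_compl (X a b c), hY2 a b c, Set.compl_iUnion]

end Pool.Agent.Work.MP_0532f7_lc.TD
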