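import Mathlib
import Pool.Agent.Work.MP_0532f7_lc.SlUp
import Pool.Agent.Work.MP_0532f7_lc.TD.Reader

/-!
# The p-optimal system that trusts the permission bits
-/

set_option autoImplicit false

namespace Pool.Agent.Work.MP_0532f7_lc.TD

open Polynomial

theorem zer_drop_iff (f : ℕ → Bool) (n k : ℕ) :
    ((List.range n).map f).drop k = zer (((List.range n).map f).drop k) ↔
      ∀ s, k ≤ s → s < n → f s = false := by
  unfold zer
  rw [List.eq_replicate_iff]
  simp only [true_and]
  constructor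
  · intro h s h1 h2
    apply h
    rw [List.mem_iff_getElem]
    refine ⟨s - k, by simp; omega, ?_⟩
    rw [List.getElem_drop, List.getElem_map, List.getElem_range]
    congr 1
    omega
  · intro h b hb
    rw [List.mem_iff_getElem] at hb
    obtain ⟨i, hi, rfl⟩ := hb
    rw [List.getElem_drop, List.getElem_map, List.getElem_range]
    rw [List.length_drop, List.length_map, List.length_range] at hi
    exact h _ (by omega) (by omega)

section

variable (A : List Bool → Bool) (T : ℕ → Bool) (P : Polynomial ℕ) (a s0 : ℕ)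

/-- the first admissible column -/
def fthr (w : List Bool) : ℕ :=
  s0 + (P.eval (2 * (fs w).length + 2 * (fs (sn w)).length + (fs (sn (sn w))).length + 2) + 1)

/-- there is a permission -/
def fdd (w : List Bool) : Bool :=
  !decide ((((List.range (sn (sn (sn w))).length).map
      (fun s => T (Nat.pair (rowP a (fs w).length) s))).drop (fthr P s0 w)) =
    zer (((List.range (sn (sn (sn w))).length).map
      (fun s => T (Nat.pair (rowP a (fs w).length) s))).drop (fthr P s0 w)))

/-- the system; a proof is `pr (un v) (pr x (pr t pad))` -/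
def fstar (w : List Bool) : List Bool :=
  if fdd T P a s0 w = true then
    run (ZT A T) (pr (num (fs w).length) (pr (fs (sn w)) (fs (sn (sn w)))))
  else oTop.code

variable {A T P a s0}

theorem fstar_ptr : PolyTimeRel (ZT A T) (fstar A T P a s0) := by
  obtain ⟨pk, hpk, hpk'⟩ := FP.clock P
  have hthr : FP (fun w => un (fthr P s0 w)) := by
    refine ((FP.const (un s0)).app ((FP.unL (hpk.comp ((((FP.fsI.app FP.fsI).app
      (FP.snI.fst.app FP.snI.fst)).app FP.snI.snd.fst).app (FP.const [true, true])))).app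
        (FP.const (un 1)))).congr (fun w => ?_)
    rw [un_append, un_append, hpk']
    unfold fthr
    simp only [List.length_append, List.length_cons, List.length_nil]
    congr 4
    omega
  have hq : FP (fun v => un (Nat.pair (rowP a (fs (fs v)).length) (sn v).length)) := by
    refine (FP.pairU (FP.mulU (FP.const [true, true, true, true]) (FP.pairU (FP.const (un a))
      FP.fsI.fst)) FP.snI).congr (fun v => ?_)
    rw [un_length, un_length, un_length]
    rfl
  have htab := tab_ptr A T (q := fun w s => Nat.pair (rowP a (fs w).length) s) hq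
    (c := fun w => sn (sn (sn w))) FP.snI.snd.snd
  have h1 : PolyTimeRel (ZT A T) (fun w => [fdd T P a s0 w]) := by
    have h2 := ((PolyTimeRel.of_fp FP.id (ZT A T)).pair htab).post
      (k := fun v => [!decide ((sn v).drop (un (fthr P s0 (fs v))).length =
        zer ((sn v).drop (un (fthr P s0 (fs v))).length))])
      ((FPb.eq (FP.drop (hthr.comp FP.fsI) FP.snI)
        (FP.zerI (FP.drop (hthr.comp FP.fsI) FP.snI))).not)
    simp only [fs_pr, sn_pr, un_length] at h2
    exact h2
  have hr := (PolyTimeRel.run (ZT A T)).pre (k := fun w => pr (num (fs w).length)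
    (pr (fs (sn w)) (fs (sn (sn w))))) ((FP.numI FP.fsI).pair (FP.snI.fst.pair FP.snI.snd.fst))
  exact h1.iteb hr (PolyTimeRel.of_fp (FP.const _) _)

theorem fstar_mem (hs : ∀ v s, s0 ≤ s → T (Nat.pair (rowP a v) s) = true → ¬ UU A P v s T)
    (w : List Bool) : fstar A T P a s0 w ∈ OTAUT (ZT A T) := by
  unfold fstar
  split_ifs with h1
  · unfold fdd at h1
    rw [Bool.not_eq_true', decide_eq_false_iff_not, zer_drop_iff] at h1
    push Not at h1
    obtain ⟨s, h2, h3, h4⟩ := h1
    rw [ne_eq, Bool.not_eq_false] at h4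
    by_contra hc
    unfold fthr at h2
    exact hs _ s (by omega) h4 ⟨_, _, by omega, hc⟩
  · exact oTop_mem _

theorem fstar_sim (hp : ∀ v, (∀ s, ¬ UU A P v s T) → ∃ B n0, ∀ n ≥ n0, ∃ s, n ≤ s ∧
      s ≤ MM P v B ((rowP a v + n + 1) ^ 2) ∧ T (Nat.pair (rowP a v) s) = true)
    {g : List Bool → List Bool} (hg : PolyTimeRel (ZT A T) g)
    (hgs : ∀ w, g w ∈ OTAUT (ZT A T)) :
    ∃ h, PolyTime h ∧ ∀ w, fstar A T P a s0 (h w) = g w := by
  obtain ⟨c, P0, hc⟩ := run_spec hg hgs
  obtain ⟨v, hv⟩ : ∃ v, v = val c := ⟨_, rfl⟩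
  have hnum : num v = c := by rw [hv, num_val]
  obtain ⟨B, n0, hB⟩ := hp v (by
    rintro s ⟨x, t, -, h2⟩
    rw [hnum] at h2
    exact h2 (hc x t).2)
  -- the bound
  obtain ⟨Nn, hNn⟩ : ∃ q : Polynomial ℕ, q = C (n0 + s0 + 1) + P.comp (C (2 * v + 2) + 2 * X + P0) :=
    ⟨_, rfl⟩
  obtain ⟨nn, hnn⟩ : ∃ q : Polynomial ℕ, q = (C (rowP a v) + Nn + 1) ^ 2 := ⟨_, rfl⟩
  obtain ⟨tk, htk, htk'⟩ := FP.clock P0
  obtain ⟨pk, hpk, hpk'⟩ := FP.clock (P.comp (3 * ((nn + 1) ^ B + C B) + C (2 * v + 2)) +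
    (C (4 * v + 6) + 2 * nn) ^ 2 + 1 + 1)
  refine ⟨fun w => pr (un v) (pr w (pr (un (tk w).length) (un (pk w).length))),
    ((FP.const _).pair (FP.id.pair ((FP.unL htk).pair (FP.unL hpk)))).polyTime, fun w => ?_⟩
  have hrun : run (ZT A T) (pr (num v) (pr w (un (tk w).length))) = g w := by
    rw [hnum]
    exact (hc w _).1 (by rw [un_length, htk'])
  unfold fstar
  simp only [fs_pr, sn_pr, un_length]
  rw [hrun, if_pos]
  unfold fdd
  rw [Bool.not_eq_true', decide_eq_false_iff_not, zer_drop_iff]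
  push Not
  obtain ⟨s, h1, h2, h3⟩ := hB (Nn.eval w.length) (by
    rw [hNn]; simp only [eval_add, eval_C]; omega)
  refine ⟨s, ?_, ?_, ?_⟩
  · unfold fthr
    simp only [fs_pr, sn_pr, un_length]
    rw [htk']
    rw [hNn] at h1
    simp only [eval_add, eval_C, eval_comp, eval_mul, eval_ofNat, eval_X] at h1
    have e : 2 * v + 2 * w.length + P0.eval w.length + 2 =
      2 * v + 2 + 2 * w.length + P0.eval w.length := by omega
    rw [e]
    omega
  · simp only [sn_pr, un_length]
    rw [hpk']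
    refine lt_of_le_of_lt h2 ?_
    unfold MM bb
    have e : nn.eval w.length = (rowP a v + Nn.eval w.length + 1) ^ 2 := by
      rw [hnn]; simp only [eval_pow, eval_add, eval_C, eval_one]
    simp only [eval_add, eval_mul, eval_comp, eval_pow, eval_C, eval_one, eval_ofNat, e]
    have e2 : 3 * (((rowP a v + Nn.eval w.length + 1) ^ 2 + 1) ^ B + B) + 2 * v + 2 =
      3 * (((rowP a v + Nn.eval w.length + 1) ^ 2 + 1) ^ B + B) + (2 * v + 2) := by omega
    have e3 : 4 * v + 2 * (rowP a v + Nn.eval w.length + 1) ^ 2 + 6 =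
      4 * v + 6 + 2 * (rowP a v + Nn.eval w.length + 1) ^ 2 := by omega
    rw [e2, e3]
    omega
  · simp only [fs_pr, un_length, ne_eq, Bool.not_eq_false]
    exact h3

theorem fstar_popt (hs : ∀ v s, s0 ≤ s → T (Nat.pair (rowP a v) s) = true → ¬ UU A P v s T)
    (hp : ∀ v, (∀ s, ¬ UU A P v s T) → ∃ B n0, ∀ n ≥ n0, ∃ s, n ≤ s ∧
      s ≤ MM P v B ((rowP a v + n + 1) ^ 2) ∧ T (Nat.pair (rowP a v) s) = true) :
    POptimalRel (ZT A T) (fstar A T P a s0) := by
  refine ⟨⟨fstar_ptr, ?_⟩, fun g hg => fstar_sim hp hg.1 (fun w => by rw [← hg.2]; exact ⟨w, rfl⟩)⟩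
  apply Set.Subset.antisymm
  · rintro _ ⟨w, rfl⟩
    exact fstar_mem hs w
  · intro c hc
    obtain ⟨h, -, hh⟩ := fstar_sim (s0 := s0) hp (PolyTimeRel.of_fp (FP.const c) (ZT A T))
      (fun _ => hc)
    exact ⟨h [], hh []⟩

end

end Pool.Agent.Work.MP_0532f7_lc.TD
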