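import Mathlib
import Pool.Agent.Work.MP_0532f7_lc.TD.InDefs

/-!
# The invariant is preserved, the cut grows
-/

set_option autoImplicit false

namespace Pool.Agent.Work.MP_0532f7_lc.TD

theorem cd_lt {N : ℕ} {τ : ℕ → Bool} {L : Finset ℕ} {i : ℕ} (hi : i < N) : cd N τ L i = τ i := by
  unfold cd; rw [if_pos hi]

theorem ex_lt {N : ℕ} {τ : ℕ → Bool} {L : Finset ℕ} {m : ℕ} {z : List Bool} {i : ℕ}
    (hi : i < N) : ex N τ L m z i = τ i := by
  unfold ex; rw [if_pos hi]

theorem reg_gt (N : ℕ) (z : List Bool) : N < reg N z := by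
  unfold reg
  have : (N + 1) ^ 3 = (N + 1) * ((N + 1) * (N + 1)) := by ring
  have h2 : N + 1 ≤ (N + 1) * ((N + 1) * (N + 1)) := Nat.le_mul_of_pos_right _ (by positivity)
  omega

theorem ex_eq_cd {N : ℕ} {τ : ℕ → Bool} {L : Finset ℕ} {m : ℕ} {z : List Bool} {i : ℕ}
    (hi : i < reg N z) : ex N τ L m z i = cd N τ L i := by
  unfold ex cd
  have h1 : ¬ reg N z ≤ i := by omega
  have h2 : ¬ reg N z ≤ (Nat.unpair i).2 := by
    have := Nat.unpair_right_le i
    omega
  by_cases a : i < N
  · rw [if_pos a, if_pos a]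
  · rw [if_neg a, if_neg a]
    by_cases b : (Nat.unpair i).1 % 4 = 0
    · rw [if_pos b]; simp [h1, b]
    · rw [if_neg b, if_neg (fun h => h2 h.2)]; simp [b]

theorem next_inv {U : ℕ → ℕ → (ℕ → Bool) → Prop} {𝓛 : Set (List Bool)} {M : ℕ → ℕ → ℕ → ℕ}
    {H : ℕ → ℕ → ℕ → Finset ℕ → (ℕ → Bool) → List Bool → Prop} (hP : Par U 𝓛 M H)
    {m k : ℕ} {st st' : St} (hI : Inv U st) (hN : Next U 𝓛 M H m k st st') :
    Inv U st' ∧ st.N < st'.N ∧ (∀ i < st.N, st'.τ i = st.τ i) ∧
      ((st'.t = st.t ∧ st'.L.card < st.L.card) ∨ st'.t = st.t + 1) := by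
  classical
  -- common parts
  have hsafe : ∀ z, Safe U st → ∀ v ∈ st.L, ∀ s ≤ reg st.N z, ¬ U v s (ex st.N st.τ st.L m z) := by
    intro z hs v hv s hs' hU
    exact hs v hv s (hP.uloc v s _ _ (fun j hj => ex_eq_cd (by omega)) hU)
  have fin : (∀ i < st.N, st'.τ i = st.τ i) → st.N < st'.N →
      st'.L = surv U st.L st'.N st'.τ → st'.t = st.t → (∃ v ∈ st.L, U v st'.N st'.τ) →
      Inv U st' ∧ st.N < st'.N ∧ (∀ i < st.N, st'.τ i = st.τ i) ∧
      ((st'.t = st.t ∧ st'.L.card < st.L.card) ∨ st'.t = st.t + 1) := by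
    intro hb hg hL ht hk
    refine ⟨⟨?_, ?_, ?_, ?_⟩, hg, hb, Or.inl ⟨ht, ?_⟩⟩
    · intro v hv
      rw [hL] at hv
      unfold surv at hv
      exact (Finset.mem_filter.mp hv).2
    · intro v hv
      rw [hL] at hv
      unfold surv at hv
      rw [ht]
      exact hI.lt v (Finset.mem_filter.mp hv).1
    · intro v hv hv'
      rw [ht] at hv
      by_cases h1 : v ∈ st.L
      · rw [hL] at hv'
        unfold surv at hv'
        by_contra h2
        exact hv' (Finset.mem_filter.mpr ⟨h1, h2⟩)
      · exact hP.umono v _ _ _ hg.le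
          (hP.uloc v _ _ _ (fun j hj => (hb j hj).symm) (hI.dead v hv h1))
    · rw [ht]
      have := hI.le
      omega
    · rw [hL]
      unfold surv
      apply Finset.card_lt_card
      rw [Finset.filter_ssubset]
      obtain ⟨v, h1, h2⟩ := hk
      exact ⟨v, h1, fun h => h h2⟩
  have hkill : ∀ z, Safe U st → st'.τ = ex st.N st.τ st.L m z → (∃ v ∈ st.L, U v st'.N st'.τ) →
      st.N < st'.N := by
    intro z hs hb hk
    obtain ⟨v, hv, hU⟩ := hk
    by_contra h
    rw [hb] at hU
    have := reg_gt st.N z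
    exact hsafe z hs v hv _ (by omega) hU
  rcases hN with hA | ⟨z, hB⟩ | ⟨z, hC⟩ | ⟨z, hD⟩
  · have hb : ∀ i < st.N, st'.τ i = st.τ i := by
      intro i hi
      rw [hA.bits, cd_lt hi]
    refine fin hb ?_ hA.alive hA.task hA.kill
    obtain ⟨v, hv, hU⟩ := hA.kill
    by_contra h
    exact hI.good v hv (hP.uloc v _ _ _ hb (hP.umono v _ _ _ (by omega) hU))
  · have hk : ∃ v ∈ st.L, U v st'.N st'.τ := by
      obtain ⟨v, h1, -, h2⟩ := hB.kill
      exact ⟨v, h1, h2⟩
    refine fin (fun i hi => ?_) (hkill z hB.safe hB.bits hk) hB.alive hB.task hk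
    rw [hB.bits, ex_lt hi]
  · refine fin (fun i hi => ?_) (hkill z hC.safe hC.bits hC.kill) hC.alive hC.task hC.kill
    rw [hC.bits, ex_lt hi]
  · have hb : ∀ i < st.N, st'.τ i = st.τ i := by
      intro i hi
      rw [hD.bits, ex_lt hi]
    have hg : st.N < st'.N := by
      rw [hD.cut]
      have h1 := reg_gt st.N z
      have h2 := hP.mbig m k (reg st.N z)
      have h3 : reg st.N z ≤ (4 * m + 2 * reg st.N z + 6) ^ 2 := by
        rw [pow_two]
        exact (by omega : reg st.N z ≤ 4 * m + 2 * reg st.N z + 6).trans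
          (Nat.le_mul_of_pos_right _ (by omega))
      omega
    have hsub : st.L ⊆ st'.L := by
      rw [hD.alive]
      unfold activ
      split_ifs
      · exact Finset.Subset.refl _
      · exact Finset.subset_insert _ _
    refine ⟨⟨?_, ?_, ?_, ?_⟩, hg, hb, Or.inr hD.task⟩
    · intro v hv
      rw [hD.alive] at hv
      unfold activ at hv
      split_ifs at hv with h1
      · exact hD.sound v hv
      · rcases Finset.mem_insert.mp hv with h2 | h2
        · rw [h2]; exact h1
        · exact hD.sound v h2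
    · intro v hv
      rw [hD.task]
      rw [hD.alive] at hv
      unfold activ at hv
      split_ifs at hv with h1
      · have := hI.lt v hv
        omega
      · rcases Finset.mem_insert.mp hv with h2 | h2
        · omega
        · have := hI.lt v h2
          omega
    · intro v hv hv'
      rw [hD.task] at hv
      by_cases h1 : v = st.t
      · subst h1
        rw [hD.alive] at hv'
        unfold activ at hv'
        split_ifs at hv' with h2
        · exact h2
        · exact absurd (Finset.mem_insert_self _ _) hv'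
      · by_cases h3 : v ∈ st.L
        · exact absurd (hsub h3) hv'
        · exact hP.umono v _ _ _ hg.le
            (hP.uloc v _ _ _ (fun j hj => (hb j hj).symm) (hI.dead v (by omega) h3))
    · rw [hD.task]
      have := hI.le
      omega

end Pool.Agent.Work.MP_0532f7_lc.TD
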