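import Mathlib
import Pool.Agent.Work.MP_0532f7_lc.TD.InInv

/-!
# Small programs are killed finitely often
-/

set_option autoImplicit false

namespace Pool.Agent.Work.MP_0532f7_lc.TD

variable {U : ℕ → ℕ → (ℕ → Bool) → Prop} {𝓛 : Set (List Bool)} {M : ℕ → ℕ → ℕ → ℕ}
  {H : ℕ → ℕ → ℕ → Finset ℕ → (ℕ → Bool) → List Bool → Prop} {slot κ : ℕ → ℕ} {st : ℕ → St}
  {T : ℕ → Bool}

theorem in_task_mono (hR : InRun U 𝓛 M H slot κ st T) {j j' : ℕ} (h : j ≤ j') :
    (st j).t ≤ (st j').t := by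
  refine monotone_nat_of_le_succ (f := fun j => (st j).t) (fun j => ?_) h
  rcases hR.next j with h | ⟨z, h⟩ | ⟨z, h⟩ | ⟨z, h⟩
  · exact h.task.ge
  · exact h.task.ge
  · exact h.task.ge
  · show (st j).t ≤ (st (j + 1)).t
    rw [h.task]; omega

theorem in_cut_mono (hR : InRun U 𝓛 M H slot κ st T) {j j' : ℕ} (h : j ≤ j') :
    (st j).N ≤ (st j').N :=
  monotone_nat_of_le_succ (f := fun j => (st j).N) (fun j => (hR.grow j).le) h

theorem in_alive (hP : Par U 𝓛 M H) (hR : InRun U 𝓛 M H slot κ st T) {v : ℕ}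
    (hv : ∀ s, ¬ U v s T) {j : ℕ} (hj : v < (st j).t) : v ∈ (st j).L := by
  by_contra h
  exact hv _ (hP.uloc v _ _ _ (fun i hi => (hR.agree j i hi).symm) ((hR.inv j).dead v hj h))

/-- a program that is dead stays dead -/
theorem in_dead (hP : Par U 𝓛 M H) (hR : InRun U 𝓛 M H slot κ st T) {v j j' : ℕ}
    (hv : v < (st j).t) (h : v ∉ (st j).L) (hj : j ≤ j') : v ∉ (st j').L := by
  intro h'
  have h1 := (hR.inv j).dead v hv h
  have h2 := in_cut_mono hR hj
  refine (hR.inv j').good v h' (hP.umono v _ _ _ h2 (hP.uloc v _ _ _ (fun i hi => ?_) h1))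
  rw [← hR.agree j i hi, ← hR.agree j' i (by omega)]

theorem in_kill (hP : Par U 𝓛 M H) (hR : InRun U 𝓛 M H slot κ st T) (a : ℕ) :
    ∃ j0, ∀ j ≥ j0, ∀ v < a, v ∈ (st j).L → v ∈ (st (j + 1)).L := by
  induction a with
  | zero => exact ⟨0, fun j _ v hv => absurd hv (Nat.not_lt_zero v)⟩
  | succ a ih =>
    obtain ⟨j0, h0⟩ := ih
    by_cases hc : ∃ j ≥ j0, a ∈ (st j).L ∧ a ∉ (st (j + 1)).L
    · obtain ⟨j1, h1, h2, h3⟩ := hc
      refine ⟨j1 + 1, fun j hj v hv hvj => ?_⟩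
      rcases Nat.lt_succ_iff_lt_or_eq.mp hv with h4 | h4
      · exact h0 j (by omega) v h4 hvj
      · subst h4
        exfalso
        have h5 : v < (st (j1 + 1)).t :=
          lt_of_lt_of_le ((hR.inv j1).lt v h2) (in_task_mono hR (Nat.le_succ j1))
        exact in_dead hP hR h5 h3 hj hvj
    · push Not at hc
      refine ⟨j0, fun j hj v hv hvj => ?_⟩
      rcases Nat.lt_succ_iff_lt_or_eq.mp hv with h4 | h4
      · exact h0 j hj v h4 hvj
      · subst h4
        exact hc j hj hvj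

theorem in_stage (hR : InRun U 𝓛 M H slot κ st T) (j0 : ℕ) {i : ℕ} (hi : (st j0).N ≤ i) :
    ∃ j ≥ j0, (st j).N ≤ i ∧ i < (st (j + 1)).N := by
  classical
  have hge : ∀ d, (st j0).N + d ≤ (st (j0 + d)).N := by
    intro d
    induction d with
    | zero => exact le_rfl
    | succ d ih =>
      have := hR.grow (j0 + d)
      show (st j0).N + (d + 1) ≤ (st (j0 + d + 1)).N
      omega
  have hex : ∃ d, i < (st (j0 + d + 1)).N := ⟨i, by
    have h1 : (st j0).N + (i + 1) ≤ (st (j0 + i + 1)).N := hge (i + 1)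
    omega⟩
  refine ⟨j0 + Nat.find hex, by omega, ?_, Nat.find_spec hex⟩
  rcases Nat.eq_zero_or_pos (Nat.find hex) with h | h
  · rw [h]; exact hi
  · have h1 := Nat.find_min hex (m := Nat.find hex - 1) (by omega)
    have e : j0 + (Nat.find hex - 1) + 1 = j0 + Nat.find hex := by omega
    rw [e] at h1
    omega

end Pool.Agent.Work.MP_0532f7_lc.TD
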