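import Mathlib
import Pool.Agent.Work.MP_0532f7_lc.TD.InKill

/-!
# The records of a slot are finally true
-/

set_option autoImplicit false

namespace Pool.Agent.Work.MP_0532f7_lc.TD

/-- marks and data in the closed default continuation -/
theorem cd_rec {N : ℕ} {τ : ℕ → Bool} {L : Finset ℕ} {m c s : ℕ} (hc : c = 1 ∨ c = 2 ∨ c = 3)
    (h : ¬ Nat.pair (4 * m + c) s < N) : cd N τ L (Nat.pair (4 * m + c) s) = false := by
  unfold cd
  rw [if_neg h, Nat.unpair_pair, decide_eq_false_iff_not]
  rintro ⟨h1, -⟩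
  simp only at h1
  omega

/-- marks and data in the continuation with a record -/
theorem ex_rec {N : ℕ} {τ : ℕ → Bool} {L : Finset ℕ} {m m' c s : ℕ} {z : List Bool}
    (hc : c = 1 ∨ c = 2 ∨ c = 3) (h : ¬ Nat.pair (4 * m + c) s < N) :
    ex N τ L m' z (Nat.pair (4 * m + c) s) = if m = m' ∧ reg N z ≤ s then
      (if c = 1 then z.getD (s - reg N z) false else if c = 2 then decide (s = reg N z)
        else decide (s = reg N z + z.length)) else false := by
  unfold ex
  rw [if_neg h, Nat.unpair_pair]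
  have h1 : ¬ (4 * m + c) % 4 = 0 := by omega
  have h2 : (4 * m + c) / 4 = m := by omega
  have h3 : (4 * m + c) % 4 = c := by omega
  simp only [h2, h3]
  rw [if_neg (by omega)]

theorem in_rec {U : ℕ → ℕ → (ℕ → Bool) → Prop} {𝓛 : Set (List Bool)} {M : ℕ → ℕ → ℕ → ℕ}
    {H : ℕ → ℕ → ℕ → Finset ℕ → (ℕ → Bool) → List Bool → Prop} {slot κ : ℕ → ℕ} {st : ℕ → St}
    {T : ℕ → Bool} (hP : Par U 𝓛 M H) (hR : InRun U 𝓛 M H slot κ st T) (m : ℕ) :
    ∃ s0, ∀ n ≥ s0, ∀ R, Read T m n R → word T m n R ∈ 𝓛 := by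
  classical
  obtain ⟨j0, hj0⟩ := in_kill hP hR (m + 1)
  refine ⟨(st j0).N, fun n hn R hRd => ?_⟩
  obtain ⟨r1, r2, r3, r4⟩ := hRd
  -- a mark belongs to a true record of the slot `m`
  have mark : ∀ j ≥ j0, ∀ c s, (c = 2 ∨ c = 3) → (st j).N ≤ Nat.pair (4 * m + c) s →
      Nat.pair (4 * m + c) s < (st (j + 1)).N → T (Nat.pair (4 * m + c) s) = true →
      slot (st j).t = m ∧ ∃ z ∈ 𝓛, (st (j + 1)).τ = ex (st j).N (st j).τ (st j).L m z ∧
        (c = 2 → s = reg (st j).N z) ∧ (c = 3 → s = reg (st j).N z + z.length) := by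
    intro j hj c s hc h1 h2 hT
    rw [hR.agree (j + 1) _ h2] at hT
    have hlt : ¬ Nat.pair (4 * m + c) s < (st j).N := by omega
    have hc' : c = 1 ∨ c = 2 ∨ c = 3 := Or.inr hc
    have key : ∀ z, (st (j + 1)).τ = ex (st j).N (st j).τ (st j).L (slot (st j).t) z →
        slot (st j).t = m ∧ (c = 2 → s = reg (st j).N z) ∧
          (c = 3 → s = reg (st j).N z + z.length) := by
      intro z hb
      rw [hb, ex_rec hc' hlt] at hT
      split_ifs at hT with a1 a2 a3
      · omega
      · rw [decide_eq_true_eq] at hT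
        exact ⟨a1.1.symm, fun _ => hT, fun h => by omega⟩
      · rw [decide_eq_true_eq] at hT
        exact ⟨a1.1.symm, fun h => by omega, fun _ => hT⟩
    rcases hR.next j with h | ⟨z, h⟩ | ⟨z, h⟩ | ⟨z, h⟩
    · rw [h.bits, cd_rec hc' hlt] at hT
      exact absurd hT (by simp)
    · exfalso
      obtain ⟨e1, -⟩ := key z h.bits
      obtain ⟨v', hv', hvm, hk⟩ := h.kill
      have hdead : v' ∉ (st (j + 1)).L := by
        rw [h.alive]
        unfold surv
        intro h3
        exact (Finset.mem_filter.mp h3).2 hk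
      exact hdead (hj0 j hj v' (by omega) hv')
    · obtain ⟨e1, e2, e3⟩ := key z h.bits
      have hb := h.bits
      rw [e1] at hb
      exact ⟨e1, z, h.true', hb, e2, e3⟩
    · obtain ⟨e1, e2, e3⟩ := key z h.bits
      have hb := h.bits
      rw [e1] at hb
      exact ⟨e1, z, h.true', hb, e2, e3⟩
  have hnp : n ≤ Nat.pair (4 * m + 2) n := Nat.right_le_pair _ _
  obtain ⟨j, hj, h1, h2⟩ := in_stage hR j0 (i := Nat.pair (4 * m + 2) n) (by omega)
  obtain ⟨-, z, hz, hb, e2, -⟩ := mark j hj 2 n (Or.inl rfl) h1 h2 r1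
  have hn' : n = reg (st j).N z := e2 rfl
  have hNn : (st j).N < n := by
    rw [hn']
    unfold reg
    have : (st j).N + 1 ≤ ((st j).N + 1) ^ 3 := Nat.le_self_pow (by omega) _
    omega
  have hpp : Nat.pair (4 * m + 2) n < Nat.pair (4 * m + 3) (n + R) := by
    refine (Nat.pair_lt_pair_left n (by omega : 4 * m + 2 < 4 * m + 3)).trans_le ?_
    rcases Nat.eq_zero_or_pos R with h | h
    · rw [h]; exact le_rfl
    · exact (Nat.pair_lt_pair_right _ (by omega)).le
  -- the end mark is in the same stage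
  have hclaim : Nat.pair (4 * m + 3) (n + R) < (st (j + 1)).N := by
    by_contra hcon
    obtain ⟨j', hj', h3, h4⟩ := in_stage hR (j + 1) (i := Nat.pair (4 * m + 3) (n + R)) (by omega)
    obtain ⟨-, z', -, hb', -, e3'⟩ := mark j' (by omega) 3 (n + R) (Or.inr rfl) h3 h4 r2
    have e4 : n + R = reg (st j').N z' + z'.length := e3' rfl
    have h5 : (st j').N < reg (st j').N z' := by
      unfold reg
      have : (st j').N + 1 ≤ ((st j').N + 1) ^ 3 := Nat.le_self_pow (by omega) _
      omega
    have h6 := in_cut_mono hR hj'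
    have h7 : reg (st j').N z' ≤ Nat.pair (4 * m + 2) (reg (st j').N z') := Nat.right_le_pair _ _
    have h8 : Nat.pair (4 * m + 2) (reg (st j').N z') < Nat.pair (4 * m + 3) (n + R) := by
      refine (Nat.pair_lt_pair_left _ (by omega : 4 * m + 2 < 4 * m + 3)).trans_le ?_
      rcases Nat.lt_or_ge (reg (st j').N z') (n + R) with h | h
      · exact (Nat.pair_lt_pair_right _ h).le
      · rw [show reg (st j').N z' = n + R by omega]
    have h9 := r3 (reg (st j').N z') (by omega) (by omega)
    rw [hR.agree (j' + 1) _ (by omega), hb', ex_rec (Or.inr (Or.inl rfl)) (by omega),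
      if_pos ⟨rfl, le_rfl⟩, if_neg (by omega), if_pos rfl, decide_eq_false_iff_not] at h9
    exact h9 rfl
  have hRl : R = z.length := by
    rw [hR.agree (j + 1) _ hclaim, hb, ex_rec (Or.inr (Or.inr rfl)) (by omega),
      if_pos ⟨rfl, by omega⟩, if_neg (by omega), if_neg (by omega), decide_eq_true_eq] at r2
    omega
  have hw : word T m n R = z := by
    unfold word
    apply List.ext_getElem
    · rw [List.length_map, List.length_range, hRl]
    · intro q hq1 hq2
      rw [List.getElem_map, List.getElem_range]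
      have a1 : n + q ≤ Nat.pair (4 * m + 1) (n + q) := Nat.right_le_pair _ _
      have a2 : Nat.pair (4 * m + 1) (n + q) < Nat.pair (4 * m + 3) (n + R) := by
        refine (Nat.pair_lt_pair_left _ (by omega : 4 * m + 1 < 4 * m + 3)).trans_le ?_
        exact (Nat.pair_lt_pair_right _ (by omega)).le
      rw [hR.agree (j + 1) _ (by omega), hb, ex_rec (Or.inl rfl) (by omega),
        if_pos ⟨rfl, by omega⟩, if_pos rfl, ← hn', Nat.add_sub_cancel_left,
        List.getD_eq_getElem?_getD, List.getElem?_eq_getElem hq2]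
      rfl
  rw [hw]
  exact hz

end Pool.Agent.Work.MP_0532f7_lc.TD
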