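import Mathlib
import Pool.Agent.Work.MP_0532f7_lc.TD.InRec

/-!
# Hard records
-/

set_option autoImplicit false

namespace Pool.Agent.Work.MP_0532f7_lc.TD

theorem in_hard {U : ℕ → ℕ → (ℕ → Bool) → Prop} {𝓛 : Set (List Bool)} {M : ℕ → ℕ → ℕ → ℕ}
    {H : ℕ → ℕ → ℕ → Finset ℕ → (ℕ → Bool) → List Bool → Prop} {slot κ : ℕ → ℕ} {st : ℕ → St}
    {T : ℕ → Bool} (hP : Par U 𝓛 M H) (hR : InRun U 𝓛 M H slot κ st T) (m v : ℕ)
    (hv : ∀ s, ¬ U v s T) : ∃ t0, ∀ t ≥ t0, slot t = m → ∃ n, t ≤ n ∧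
      ∃ (L : Finset ℕ) (z : List Bool), z.length ≤ n ∧ v ∈ L ∧ z ∈ 𝓛 ∧ Read T m n z.length ∧
        word T m n z.length = z ∧ ¬ H m (κ t) n L T z := by
  refine ⟨v + 1, fun t ht hs => ?_⟩
  obtain ⟨j, hj, hj'⟩ := hR.tasks t
  have hD : ∃ z, StepD U 𝓛 M H (slot (st j).t) (κ (st j).t) (st j) (st (j + 1)) z := by
    rcases hR.next j with h | ⟨z, h⟩ | ⟨z, h⟩ | h
    · have := h.task; omega
    · have := h.task; omega
    · have := h.task; omega
    · exact h
  obtain ⟨z, h⟩ := hD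
  rw [hj, hs] at h
  obtain ⟨n, hn⟩ : ∃ n, n = reg (st j).N z := ⟨_, rfl⟩
  have hNn : (st j).N + z.length < n := by
    rw [hn]
    unfold reg
    have : (st j).N + 1 ≤ ((st j).N + 1) ^ 3 := Nat.le_self_pow (by omega) _
    omega
  have hle := (hR.inv j).le
  have hcut := h.cut
  have hhard := h.hard
  rw [← hn] at hcut hhard
  -- positions of the record
  have hpos : ∀ r s, r ≤ 4 * m + 3 → n ≤ s → s ≤ n + z.length →
      ¬ Nat.pair r s < (st j).N ∧ Nat.pair r s < (st (j + 1)).N := by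
    intro r s hr h1 h2
    have a1 : s ≤ Nat.pair r s := Nat.right_le_pair _ _
    have a2 := Nat.pair_lt_max_add_one_sq r s
    have a3 : max r s + 1 ≤ 4 * m + 2 * n + 6 := by
      have : max r s ≤ r + s := max_le (by omega) (by omega)
      omega
    have a4 : (max r s + 1) ^ 2 ≤ (4 * m + 2 * n + 6) ^ 2 := Nat.pow_le_pow_left a3 2
    have a5 := hP.mbig m (κ t) n
    omega
  have hval : ∀ c s, (c = 1 ∨ c = 2 ∨ c = 3) → n ≤ s → s ≤ n + z.length →
      T (Nat.pair (4 * m + c) s) = (if c = 1 then z.getD (s - n) false else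
        if c = 2 then decide (s = n) else decide (s = n + z.length)) := by
    intro c s hc h1 h2
    obtain ⟨p1, p2⟩ := hpos (4 * m + c) s (by omega) h1 h2
    rw [hR.agree (j + 1) _ p2, h.bits, ex_rec hc p1, if_pos ⟨rfl, by omega⟩, ← hn]
  refine ⟨n, by omega, (st j).L, z, by omega, in_alive hP hR hv (by omega), h.true',
    ⟨?_, ?_, ?_, ?_⟩, ?_,
    fun hH => hhard (hP.hloc _ _ _ _ _ _ _ (fun i hi => hR.agree (j + 1) i (by omega)) hH)⟩
  · rw [hval 2 n (by omega) le_rfl (by omega)]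
    simp
  · rw [hval 3 (n + z.length) (by omega) (by omega) le_rfl]
    simp
  · intro s h1 h2
    rw [hval 2 s (by omega) (by omega) h2]
    simp; omega
  · intro s h1 h2
    rw [hval 3 s (by omega) h1 (by omega)]
    simp; omega
  · unfold word
    apply List.ext_getElem
    · rw [List.length_map, List.length_range]
    · intro q hq1 hq2
      rw [List.getElem_map, List.getElem_range, hval 1 (n + q) (by omega) (by omega) (by omega),
        if_pos rfl, Nat.add_sub_cancel_left, List.getD_eq_getElem?_getD,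
        List.getElem?_eq_getElem hq2]
      rfl

end Pool.Agent.Work.MP_0532f7_lc.TD
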