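import Mathlib
import Pool.Agent.Work.MP_0532f7_lc.TD.InKill

/-!
# The permission bits are finally true
-/

set_option autoImplicit false

namespace Pool.Agent.Work.MP_0532f7_lc.TD

/-- values of the permission bits -/
theorem cd_perm {N : ℕ} {τ : ℕ → Bool} {L : Finset ℕ} {a v s : ℕ}
    (h : ¬ Nat.pair (rowP a v) s < N) : cd N τ L (Nat.pair (rowP a v) s) = decide (v ∈ L) := by
  unfold cd
  rw [if_neg h, Nat.unpair_pair]
  have h1 : rowP a v % 4 = 0 := by unfold rowP; omega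
  have h2 : rowP a v / 4 = Nat.pair a v := by unfold rowP; omega
  simp only [h1, h2, Nat.unpair_pair, true_and]

theorem ex_perm {N : ℕ} {τ : ℕ → Bool} {L : Finset ℕ} {m : ℕ} {z : List Bool} {a v s : ℕ}
    (h : ¬ Nat.pair (rowP a v) s < N) : ex N τ L m z (Nat.pair (rowP a v) s) =
      decide (v ∈ L ∧ ¬ (reg N z ≤ Nat.pair (rowP a v) s ∧ a ≤ m ∧ m ≤ v)) := by
  unfold ex
  rw [if_neg h, Nat.unpair_pair]
  have h1 : rowP a v % 4 = 0 := by unfold rowP; omega
  have h2 : rowP a v / 4 = Nat.pair a v := by unfold rowP; omega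
  simp only [h1, h2, Nat.unpair_pair, if_true]

theorem in_sound {U : ℕ → ℕ → (ℕ → Bool) → Prop} {𝓛 : Set (List Bool)} {M : ℕ → ℕ → ℕ → ℕ}
    {H : ℕ → ℕ → ℕ → Finset ℕ → (ℕ → Bool) → List Bool → Prop} {slot κ : ℕ → ℕ} {st : ℕ → St}
    {T : ℕ → Bool} (hP : Par U 𝓛 M H) (hR : InRun U 𝓛 M H slot κ st T) (a : ℕ) :
    ∃ s0, ∀ v s, s0 ≤ s → T (Nat.pair (rowP a v) s) = true → ¬ U v s T := by
  classical
  obtain ⟨j0, hj0⟩ := in_kill hP hR a
  refine ⟨(st j0).N, fun v s hs hT hU => ?_⟩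
  have hsi : s ≤ Nat.pair (rowP a v) s := Nat.right_le_pair _ _
  obtain ⟨j, hj, h1, h2⟩ := in_stage hR j0 (hs.trans hsi)
  rw [hR.agree (j + 1) _ h2] at hT
  have hU' : U v s (st (j + 1)).τ :=
    hP.uloc v _ _ _ (fun i hi => hR.agree (j + 1) i (by omega)) hU
  have hlt : ¬ Nat.pair (rowP a v) s < (st j).N := by omega
  rcases hR.next j with h | ⟨z, h⟩ | ⟨z, h⟩ | ⟨z, h⟩
  · rw [h.bits, cd_perm hlt, decide_eq_true_eq] at hT
    exact h.first s (by omega) v hT hU'
  · rw [h.bits, ex_perm hlt, decide_eq_true_eq] at hT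
    obtain ⟨v', hv', hvm, hk⟩ := h.kill
    have hdead : v' ∉ (st (j + 1)).L := by
      rw [h.alive]
      unfold surv
      intro h3
      exact (Finset.mem_filter.mp h3).2 hk
    have hav : a ≤ v' := by
      by_contra h3
      exact hdead (hj0 j hj v' (by omega) hv')
    by_cases h4 : Nat.pair (rowP a v) s < reg (st j).N z
    · refine h.safe v hT.1 s (hP.uloc v _ _ _ (fun i hi => ?_) hU')
      rw [h.bits]
      exact ex_eq_cd (by omega)
    · have h5 : v < slot (st j).t := by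
        by_contra h6
        exact hT.2 ⟨by omega, by omega, by omega⟩
      exact h.first s (by omega) v hT.1 (by omega) hU'
  · rw [h.bits, ex_perm hlt, decide_eq_true_eq] at hT
    exact h.first s (by omega) v hT.1 hU'
  · rw [h.bits, ex_perm hlt, decide_eq_true_eq] at hT
    exact h.sound v hT.1 (hP.umono v _ _ _ (by omega) hU')

end Pool.Agent.Work.MP_0532f7_lc.TD
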