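import Mathlib
import Pool.Agent.Work.MP_0532f7_lc.TD.InSound

/-!
# Permission bits appear polynomially often
-/

set_option autoImplicit false

namespace Pool.Agent.Work.MP_0532f7_lc.TD

private theorem pair_lt_sq (r s : ℕ) : Nat.pair r s < (r + s + 1) ^ 2 := by
  refine (Nat.pair_lt_max_add_one_sq r s).trans_le (Nat.pow_le_pow_left ?_ 2)
  have : max r s ≤ r + s := max_le (by omega) (by omega)
  omega

theorem in_perm {U : ℕ → ℕ → (ℕ → Bool) → Prop} {𝓛 : Set (List Bool)} {M : ℕ → ℕ → ℕ → ℕ}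
    {H : ℕ → ℕ → ℕ → Finset ℕ → (ℕ → Bool) → List Bool → Prop} {slot κ : ℕ → ℕ} {st : ℕ → St}
    {T : ℕ → Bool} (hP : Par U 𝓛 M H) (hR : InRun U 𝓛 M H slot κ st T) (a v B : ℕ)
    (hB : ∀ t, a ≤ slot t → slot t ≤ v → κ t ≤ B) (hv : ∀ s, ¬ U v s T) :
    ∃ n0, ∀ n ≥ n0, ∃ s, n ≤ s ∧ s ≤ M v B ((rowP a v + n + 1) ^ 2) ∧
      T (Nat.pair (rowP a v) s) = true := by
  obtain ⟨r, hr⟩ : ∃ r, r = rowP a v := ⟨_, rfl⟩
  obtain ⟨jv, hjv, hjv'⟩ := hR.tasks v
  have halive : ∀ j ≥ jv + 1, v ∈ (st j).L := fun j hj =>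
    in_alive hP hR hv (lt_of_lt_of_le (by omega) (in_task_mono hR hj))
  refine ⟨(st (jv + 1)).N + (r + 1) ^ 2, fun n hn => ?_⟩
  rw [← hr]
  have hcut : ∀ s, (r + 1) ^ 2 ≤ s → (r + s + 1) ^ 2 < (s + 1) ^ 3 := by
    intro s hs
    have h1 : r + s + 1 ≤ (r + 1) * (s + 1) := by
      rw [Nat.mul_add, Nat.add_mul]
      omega
    calc (r + s + 1) ^ 2 ≤ ((r + 1) * (s + 1)) ^ 2 := Nat.pow_le_pow_left h1 2
      _ = (r + 1) ^ 2 * (s + 1) ^ 2 := by rw [Nat.mul_pow]
      _ < (s + 1) * (s + 1) ^ 2 := Nat.mul_lt_mul_of_pos_right (by omega) (by positivity)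
      _ = (s + 1) ^ 3 := by ring
  have hle : n ≤ Nat.pair r n := Nat.right_le_pair _ _
  have hlt := pair_lt_sq r n
  obtain ⟨j, hj, h1, h2⟩ := in_stage hR (jv + 1) (i := Nat.pair r n) (by omega)
  have hbound : ∀ m k x, x ≤ M m k x := by
    intro m k x
    have h3 := hP.mbig m k x
    have h4 : x ≤ (4 * m + 2 * x + 6) ^ 2 := by
      rw [pow_two]
      exact (by omega : x ≤ 4 * m + 2 * x + 6).trans (Nat.le_mul_of_pos_right _ (by omega))
    omega
  by_cases hT : T (Nat.pair r n) = true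
  · refine ⟨n, le_rfl, ?_, hT⟩
    have := hbound v B ((r + n + 1) ^ 2)
    omega
  · have hlt' : ¬ Nat.pair r n < (st j).N := by omega
    -- the step is not in the closed default
    have key : ∀ z, (st (j + 1)).τ = ex (st j).N (st j).τ (st j).L (slot (st j).t) z →
        (st (j + 1)).N ≤ M (slot (st j).t) (κ (st j).t) (reg (st j).N z) →
        (st (j + 1)).N ≤ M v B ((r + n + 1) ^ 2) := by
      intro z hb hc
      rw [hR.agree (j + 1) _ h2, hb, hr, ex_perm (by rw [← hr]; exact hlt'),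
        decide_eq_true_eq] at hT
      have h3 : reg (st j).N z ≤ Nat.pair (rowP a v) n ∧ a ≤ slot (st j).t ∧
          slot (st j).t ≤ v := by
        by_contra h4
        exact hT ⟨halive j hj, h4⟩
      refine hc.trans (hP.mmono _ _ _ _ _ _ h3.2.2 (hB _ h3.2.1 h3.2.2) ?_)
      rw [← hr] at h3
      omega
    have hN : (st (j + 1)).N ≤ M v B ((r + n + 1) ^ 2) := by
      rcases hR.next j with h | ⟨z, h⟩ | ⟨z, h⟩ | ⟨z, h⟩
      · exfalso
        rw [hR.agree (j + 1) _ h2, h.bits, hr, cd_perm (by rw [← hr]; exact hlt'),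
          decide_eq_true_eq] at hT
        exact hT (halive j hj)
      · exact key z h.bits h.cut
      · exact key z h.bits h.cut
      · exact key z h.bits h.cut.le
    refine ⟨(st (j + 1)).N, by omega, hN, ?_⟩
    obtain ⟨s, hs⟩ : ∃ s, s = (st (j + 1)).N := ⟨_, rfl⟩
    rw [← hs]
    have hsi : s ≤ Nat.pair r s := Nat.right_le_pair _ _
    obtain ⟨j', hj', h3, h4⟩ := in_stage hR (j + 1) (i := Nat.pair r s) (by omega)
    have hlt2 : ¬ Nat.pair r s < (st j').N := by omega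
    rw [hR.agree (j' + 1) _ h4]
    have key2 : ∀ z, (st (j' + 1)).τ = ex (st j').N (st j').τ (st j').L (slot (st j').t) z →
        (st (j' + 1)).τ (Nat.pair r s) = true := by
      intro z hb
      rw [hb, hr, ex_perm (by rw [← hr]; exact hlt2), decide_eq_true_eq]
      refine ⟨halive j' (by omega), fun h5 => ?_⟩
      rw [← hr] at h5
      have h6 := pair_lt_sq r s
      have h7 := hcut s (by omega)
      have h8 := in_cut_mono hR hj'
      have h9 : (s + 1) ^ 3 ≤ ((st j').N + 1) ^ 3 := Nat.pow_le_pow_left (by omega) 3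
      unfold reg at h5
      omega
    rcases hR.next j' with h | ⟨z, h⟩ | ⟨z, h⟩ | ⟨z, h⟩
    · rw [h.bits, hr, cd_perm (by rw [← hr]; exact hlt2), decide_eq_true_eq]
      exact halive j' (by omega)
    · exact key2 z h.bits
    · exact key2 z h.bits
    · exact key2 z h.bits

end Pool.Agent.Work.MP_0532f7_lc.TD
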