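import Mathlib
import Pool.Agent.Work.MP_0532f7_lc.TD.InDefs

/-!
# A next state always exists
-/

set_option autoImplicit false

namespace Pool.Agent.Work.MP_0532f7_lc.TD

theorem next_exists {U : ℕ → ℕ → (ℕ → Bool) → Prop} {𝓛 : Set (List Bool)} {M : ℕ → ℕ → ℕ → ℕ}
    {H : ℕ → ℕ → ℕ → Finset ℕ → (ℕ → Bool) → List Bool → Prop} (hP : Par U 𝓛 M H)
    (m k : ℕ) (st : St) : ∃ st', Next U 𝓛 M H m k st st' := by
  classical
  by_cases hS : Safe U st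
  · by_cases hB : ∃ z, ∃ s ≤ M m k (reg st.N z), ∃ v ∈ st.L, v ≤ m ∧
      U v s (ex st.N st.τ st.L m z)
    · obtain ⟨z, s, hs, hv⟩ := hB
      have hex : ∃ s, ∃ v ∈ st.L, v ≤ m ∧ U v s (ex st.N st.τ st.L m z) := ⟨s, hv⟩
      refine ⟨⟨Nat.find hex, ex st.N st.τ st.L m z,
        surv U st.L (Nat.find hex) (ex st.N st.τ st.L m z), st.t⟩, Or.inr (Or.inl ⟨z, ?_⟩)⟩
      refine ⟨hS, rfl, (Nat.find_min' hex hv).trans hs, Nat.find_spec hex, ?_, rfl, rfl⟩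
      intro s' hs' v hv' hvm hU
      exact Nat.find_min hex hs' ⟨v, hv', hvm, hU⟩
    · by_cases hC : ∃ z ∈ 𝓛, ∃ s ≤ M m k (reg st.N z), ∃ v ∈ st.L, U v s (ex st.N st.τ st.L m z)
      · obtain ⟨z, hz, s, hs, hv⟩ := hC
        have hex : ∃ s, ∃ v ∈ st.L, U v s (ex st.N st.τ st.L m z) := ⟨s, hv⟩
        refine ⟨⟨Nat.find hex, ex st.N st.τ st.L m z,
          surv U st.L (Nat.find hex) (ex st.N st.τ st.L m z), st.t⟩,
          Or.inr (Or.inr (Or.inl ⟨z, ?_⟩))⟩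
        refine ⟨hS, hz, rfl, (Nat.find_min' hex hv).trans hs, Nat.find_spec hex, ?_, rfl, rfl⟩
        intro s' hs' v hv' hU
        exact Nat.find_min hex hs' ⟨v, hv', hU⟩
      · obtain ⟨z, hz, hH⟩ := hP.hhard st.N st.τ st.L m k (fun z v hv hvm hU =>
          hB ⟨z, _, le_rfl, v, hv, hvm, hU⟩)
        refine ⟨⟨M m k (reg st.N z), ex st.N st.τ st.L m z,
          activ U st.L st.t (M m k (reg st.N z)) (ex st.N st.τ st.L m z), st.t + 1⟩,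
          Or.inr (Or.inr (Or.inr ⟨z, ?_⟩))⟩
        exact ⟨hS, hz, rfl, rfl, fun v hv hU => hC ⟨z, hz, _, le_rfl, v, hv, hU⟩, hH, rfl, rfl⟩
  · unfold Safe at hS
    push Not at hS
    obtain ⟨v, hv, s, hU⟩ := hS
    have hex : ∃ s, ∃ v ∈ st.L, U v s (cd st.N st.τ st.L) := ⟨s, v, hv, hU⟩
    refine ⟨⟨Nat.find hex, cd st.N st.τ st.L, surv U st.L (Nat.find hex) (cd st.N st.τ st.L),
      st.t⟩, Or.inl ?_⟩
    refine ⟨rfl, Nat.find_spec hex, ?_, rfl, rfl⟩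
    intro s' hs' v hv' hU
    exact Nat.find_min hex hs' ⟨v, hv', hU⟩

end Pool.Agent.Work.MP_0532f7_lc.TD
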