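import Mathlib
import Pool.Agent.Work.MP_0532f7_lc.TD.InStep
import Pool.Agent.Work.MP_0532f7_lc.TD.InInv

/-!
# The run of the construction
-/

set_option autoImplicit false

namespace Pool.Agent.Work.MP_0532f7_lc.TD

/-- the states -/
private noncomputable def seqS (nx : ℕ → ℕ → St → St) (slot κ : ℕ → ℕ) : ℕ → St
  | 0 => ⟨0, fun _ => false, ∅, 0⟩
  | j + 1 => nx (slot (seqS nx slot κ j).t) (κ (seqS nx slot κ j).t) (seqS nx slot κ j)

theorem run_exists {U : ℕ → ℕ → (ℕ → Bool) → Prop} {𝓛 : Set (List Bool)} {M : ℕ → ℕ → ℕ → ℕ}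
    {H : ℕ → ℕ → ℕ → Finset ℕ → (ℕ → Bool) → List Bool → Prop} (hP : Par U 𝓛 M H)
    (slot : ℕ → ℕ) : ∃ (S : (ℕ → ℕ) → ℕ → St) (T : (ℕ → ℕ) → ℕ → Bool),
      (∀ κ, InRun U 𝓛 M H slot κ (S κ) (T κ)) ∧
      ∀ κ κ' i, (∀ t ≤ i, κ t = κ' t) → T κ i = T κ' i := by
  choose nx hnx using fun m k st => next_exists hP m k st
  have hI : ∀ κ j, Inv U (seqS nx slot κ j) := by
    intro κ j
    induction j with
    | zero => exact ⟨fun v hv => absurd hv (Finset.notMem_empty v),
        fun v hv => absurd hv (Finset.notMem_empty v), fun v hv => absurd hv (Nat.not_lt_zero v),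
        le_rfl⟩
    | succ j ih => exact (next_inv hP ih (hnx _ _ _)).1
  have hN := fun κ j => next_inv hP (hI κ j) (hnx (slot (seqS nx slot κ j).t)
    (κ (seqS nx slot κ j).t) (seqS nx slot κ j))
  have hgrow : ∀ κ j, (seqS nx slot κ j).N < (seqS nx slot κ (j + 1)).N := fun κ j => (hN κ j).2.1
  have hge : ∀ κ j, j ≤ (seqS nx slot κ j).N := by
    intro κ j
    induction j with
    | zero => exact Nat.zero_le _
    | succ j ih => have := hgrow κ j; omega
  have hmono : ∀ κ j d, (seqS nx slot κ j).N ≤ (seqS nx slot κ (j + d)).N ∧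
      ∀ i < (seqS nx slot κ j).N, (seqS nx slot κ (j + d)).τ i = (seqS nx slot κ j).τ i := by
    intro κ j d
    induction d with
    | zero => exact ⟨le_rfl, fun i _ => rfl⟩
    | succ d ih =>
      refine ⟨ih.1.trans (hgrow κ (j + d)).le, fun i hi => ?_⟩
      have h1 := (hN κ (j + d)).2.2.1 i (by omega)
      exact h1.trans (ih.2 i hi)
  have ht : ∀ κ j, (seqS nx slot κ j).t ≤ j := by
    intro κ j
    induction j with
    | zero => exact le_rfl
    | succ j ih =>
      rcases (hN κ j).2.2.2 with h | h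
      · have : (seqS nx slot κ (j + 1)).t = (seqS nx slot κ j).t := h.1
        omega
      · have : (seqS nx slot κ (j + 1)).t = (seqS nx slot κ j).t + 1 := h
        omega
  refine ⟨fun κ => seqS nx slot κ, fun κ i => (seqS nx slot κ (i + 1)).τ i, fun κ => ?_, ?_⟩
  · refine ⟨fun j => hnx _ _ _, hI κ, hgrow κ, ?_, ?_⟩
    · intro j i hi
      show (seqS nx slot κ (i + 1)).τ i = (seqS nx slot κ j).τ i
      rcases Nat.le_total j (i + 1) with h | h
      · obtain ⟨d, hd⟩ := Nat.exists_eq_add_of_le h
        rw [hd]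
        exact (hmono κ j d).2 i hi
      · obtain ⟨d, rfl⟩ := Nat.exists_eq_add_of_le h
        exact ((hmono κ (i + 1) d).2 i (by have := hge κ (i + 1); omega)).symm
    · -- every task is reached
      have hstep : ∀ j0, ∃ j ≥ j0, (seqS nx slot κ j).t = (seqS nx slot κ j0).t ∧
          (seqS nx slot κ (j + 1)).t = (seqS nx slot κ j0).t + 1 := by
        intro j0
        by_contra hcon
        push Not at hcon
        have h1 : ∀ d, (seqS nx slot κ (j0 + d)).t = (seqS nx slot κ j0).t ∧
            (seqS nx slot κ (j0 + d)).L.card + d ≤ (seqS nx slot κ j0).L.card := by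
          intro d
          induction d with
          | zero => exact ⟨rfl, le_rfl⟩
          | succ d ih =>
            rcases (hN κ (j0 + d)).2.2.2 with h | h
            · have e1 : (seqS nx slot κ (j0 + d + 1)).t = (seqS nx slot κ (j0 + d)).t := h.1
              have e2 : (seqS nx slot κ (j0 + d + 1)).L.card <
                (seqS nx slot κ (j0 + d)).L.card := h.2
              rw [← Nat.add_assoc]
              exact ⟨e1.trans ih.1, by omega⟩
            · have e1 : (seqS nx slot κ (j0 + d + 1)).t = (seqS nx slot κ (j0 + d)).t + 1 := h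
              exact absurd (e1.trans (by rw [ih.1])) (hcon (j0 + d) (by omega) ih.1)
        have := (h1 ((seqS nx slot κ j0).L.card + 1)).2
        omega
      intro t
      induction t with
      | zero =>
        obtain ⟨j, -, h1, h2⟩ := hstep 0
        exact ⟨j, h1, h2⟩
      | succ t ih =>
        obtain ⟨j1, -, h2⟩ := ih
        obtain ⟨j, -, h3, h4⟩ := hstep (j1 + 1)
        rw [h2] at h3 h4
        exact ⟨j, h3, h4⟩
  · intro κ κ' i hκ
    have key : ∀ j ≤ i + 1, seqS nx slot κ j = seqS nx slot κ' j := by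
      intro j
      induction j with
      | zero => intro _; rfl
      | succ j ih =>
        intro hj
        show nx _ _ _ = nx _ _ _
        rw [← ih (by omega), hκ _ (by have := ht κ j; omega)]
    show (seqS nx slot κ (i + 1)).τ i = (seqS nx slot κ' (i + 1)).τ i
    rw [key _ le_rfl]

end Pool.Agent.Work.MP_0532f7_lc.TD
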