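import Mathlib
import Pool.Agent.Work.MP_0532f7_lc.TD.BorNF
import Pool.Agent.Work.MP_0532f7_lc.TD.BorCol
import Pool.Agent.Work.MP_0532f7_lc.TD.InSeq
import Pool.Agent.Work.MP_0532f7_lc.TD.InPerm
import Pool.Agent.Work.MP_0532f7_lc.TD.InHard
import Pool.Agent.Work.MP_0532f7_lc.TD.FStar

/-!
# The reduction
-/

set_option autoImplicit false

namespace Pool.Agent.Work.MP_0532f7_lc.TD

theorem red_exists {A : List Bool → Bool} {P : Polynomial ℕ} {𝓛 : Set (List Bool)}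
    {H : ℕ → ℕ → ℕ → Finset ℕ → (ℕ → Bool) → List Bool → Prop}
    (hP : Par (UU A P) 𝓛 (MM P) H) {S' : Set (ℕ → Bool)} (hS : SigmaSet 3 S') :
    ∃ F : (ℕ → Bool) → ℕ → Bool, Continuous F ∧
      (∀ y ∈ S', ∃ f, POptimalRel (ZT A (F y)) f) ∧
      ∀ y ∉ S', (∀ m, ∃ s0, ∀ n ≥ s0, ∀ R, Read (F y) m n R → word (F y) m n R ∈ 𝓛) ∧
        ∀ i, ∃ m ≥ i, ∀ v, (∀ s, ¬ UU A P v s (F y)) → ∀ B, ∃ k ≥ B, ∃ n ≥ B,
          ∃ (L : Finset ℕ) (z : List Bool), z.length ≤ n ∧ v ∈ L ∧ z ∈ 𝓛 ∧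
            Read (F y) m n z.length ∧ word (F y) m n z.length = z ∧ ¬ H m k n L (F y) z := by
  obtain ⟨U, hU, hSU⟩ := sig_three hS
  obtain ⟨ρ, hc, hmono, hin, hout⟩ := columns hU
  rw [← hSU] at hin hout
  obtain ⟨S, T, hrun, hloc⟩ := run_exists hP (fun t => (Nat.unpair t).1)
  refine ⟨fun y => T (fun t => ρ y (Nat.unpair t).1 t), ?_, ?_, ?_⟩
  · refine continuous_pi fun i => ?_
    let G : (Fin (i + 1) → ℕ) → Bool := fun f => T (fun t => if h : t < i + 1 then f ⟨t, h⟩ else 0) i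
    have e : (fun y : ℕ → Bool => T (fun t => ρ y (Nat.unpair t).1 t) i) =
        fun y => G (fun t => ρ y (Nat.unpair t.1).1 t.1) := by
      funext y
      refine hloc _ _ i fun t ht => ?_
      rw [dif_pos (by omega)]
    rw [e]
    have h1 : Continuous G := continuous_of_discreteTopology
    have h2 : Continuous (fun (y : ℕ → Bool) (t : Fin (i + 1)) => ρ y (Nat.unpair t.1).1 t.1) :=
      continuous_pi fun t => hc _ _
    exact h1.comp h2
  · intro y hy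
    obtain ⟨a, ha⟩ := hin y hy
    have hR := hrun (fun t => ρ y (Nat.unpair t).1 t)
    obtain ⟨s0, hs0⟩ := in_sound hP hR a
    refine ⟨fstar A _ P a s0, fstar_popt hs0 fun v hv => ?_⟩
    choose! Bm hBm using ha
    obtain ⟨n0, hn0⟩ := in_perm hP hR a v ((Finset.range (v + 1)).sup Bm) (fun t h1 h2 =>
      (hBm _ h1 t).trans (Finset.le_sup (f := Bm) (Finset.mem_range.mpr (by omega)))) hv
    exact ⟨_, n0, hn0⟩
  · intro y hy
    have hR := hrun (fun t => ρ y (Nat.unpair t).1 t)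
    refine ⟨fun m => in_rec hP hR m, fun i => ?_⟩
    obtain ⟨m, hm, hB⟩ := hout y hy i
    refine ⟨m, hm, fun v hv B => ?_⟩
    obtain ⟨t0, ht0⟩ := in_hard hP hR m v hv
    obtain ⟨n1, hn1⟩ := hB B
    obtain ⟨t, ht⟩ : ∃ t, t = Nat.pair m (n1 + t0 + B) := ⟨_, rfl⟩
    have h1 : n1 + t0 + B ≤ t := by rw [ht]; exact Nat.right_le_pair _ _
    have h2 : (Nat.unpair t).1 = m := by rw [ht, Nat.unpair_pair]
    obtain ⟨n, hn, L, z, h3⟩ := ht0 t (by omega) h2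
    simp only [h2] at h3
    exact ⟨ρ y m t, hn1.trans (hmono y m (by omega)), n, by omega, L, z, h3⟩

end Pool.Agent.Work.MP_0532f7_lc.TD
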