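import Mathlib
import Pool.Agent.Work.MP_0532f7_lc.TD.RCFin
import Pool.Agent.Work.MP_0532f7_lc.TD.Red
import Pool.Agent.Work.MP_0532f7_lc.TD.NoC
import Pool.Agent.Work.MP_0532f7_lc.TD.Pos
import Pool.Agent.Work.MP_0532f7_lc.TD.BorOpt

/-!
# The tally dichotomy
-/

set_option autoImplicit false

namespace Pool.Agent.Work.MP_0532f7_lc.TD

theorem exists_hard_np {A : List Bool → Bool} (h : ¬ NPeqCoNP A) :
    ∃ 𝓛 : Set (List Bool), CoNPRel A 𝓛 ∧ ¬ NPRel A 𝓛 := by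
  unfold NPeqCoNP at h
  push Not at h
  obtain ⟨L, hL⟩ := h
  rcases hL with ⟨h1, h2⟩ | ⟨h1, h2⟩
  · refine ⟨Lᶜ, NPRel.compl h1, fun h3 => h2 ?_⟩
    have := NPRel.compl h3
    rwa [compl_compl] at this
  · exact ⟨L, h2, h1⟩

theorem exists_hard_p {A : List Bool → Bool} (h : ¬ PeqNP A) :
    ∃ 𝓛 : Set (List Bool), CoNPRel A 𝓛 ∧ ¬ PRel A 𝓛 := by
  unfold PeqNP at h
  push Not at h
  obtain ⟨L, hL⟩ := h
  rcases hL with ⟨h1, h2⟩ | ⟨h1, h2⟩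
  · exact absurd (PRel.np h1) h2
  · refine ⟨Lᶜ, NPRel.compl h2, fun h3 => h1 ?_⟩
    have := PRel.compl h3
    rwa [compl_compl] at this

/-- hardness, strong form -/
theorem hard_O {A : List Bool → Bool} (h : ¬ NPeqCoNP A) {S' : Set (ℕ → Bool)}
    (hS : SigmaSet 3 S') : ∃ F : (ℕ → Bool) → ℕ → Bool, Continuous F ∧
      (∀ y ∈ S', ∃ f, POptimalRel (ZT A (F y)) f) ∧
      ∀ y ∉ S', ¬ ∃ f, OptimalRel (ZT A (F y)) f := by
  obtain ⟨𝓛, h1, h2⟩ := exists_hard_np h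
  obtain ⟨tf, htf, ht⟩ := tf_of_coNP h1
  obtain ⟨P, hP⟩ := run_local
  obtain ⟨F, hF, hin, hout⟩ := red_exists (par_HO (A := A) hP htf ht h2) hS
  exact ⟨F, hF, hin, fun y hy => no_opt htf ht (hout y hy).1 (hout y hy).2⟩

theorem hard_P {A : List Bool → Bool} (h : ¬ PeqNP A) {S' : Set (ℕ → Bool)}
    (hS : SigmaSet 3 S') : ∃ F : (ℕ → Bool) → ℕ → Bool, Continuous F ∧
      (∀ y ∈ S', ∃ f, POptimalRel (ZT A (F y)) f) ∧
      ∀ y ∉ S', ¬ ∃ f, POptimalRel (ZT A (F y)) f := by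
  obtain ⟨𝓛, h1, h2⟩ := exists_hard_p h
  obtain ⟨tf, htf, ht⟩ := tf_of_coNP h1
  obtain ⟨P, hP⟩ := run_local
  obtain ⟨F, hF, hin, hout⟩ := red_exists (par_HP (A := A) hP htf ht h2) hS
  exact ⟨F, hF, hin, fun y hy => no_popt htf ht (hout y hy).1 (hout y hy).2⟩

private theorem preim {F : (ℕ → Bool) → ℕ → Bool} {S S' : Set (ℕ → Bool)}
    (h1 : ∀ y ∈ S', F y ∈ S) (h2 : ∀ y ∉ S', F y ∉ S) : F ⁻¹' S = S' := by
  ext y
  constructor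
  · intro hy
    by_contra h
    exact h2 y h hy
  · intro hy
    exact h1 y hy

theorem dichotomy (A : List Bool → Bool) :
    (NPeqCoNP A ↔ ∀ T, ∃ f, OptimalRel (ojoin A (tally T)) f) ∧
    (PeqNP A ↔ ∀ T, ∃ f, POptimalRel (ojoin A (tally T)) f) ∧
    (¬ NPeqCoNP A → SigmaFourComplete {T | ∃ f, OptimalRel (ojoin A (tally T)) f}) ∧
    (¬ PeqNP A → SigmaFourComplete {T | ∃ f, POptimalRel (ojoin A (tally T)) f}) ∧
    (¬ NPeqCoNP A → ∀ S, SigmaSet 3 S → ∃ F : (ℕ → Bool) → ℕ → Bool, Continuous F ∧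
      (∀ y ∈ S, ∃ f, POptimalRel (ojoin A (tally (F y))) f) ∧
      ∀ y ∉ S, ¬ ∃ f, OptimalRel (ojoin A (tally (F y))) f) := by
  refine ⟨⟨fun h T => pos_O h T, fun h => ?_⟩, ⟨fun h T => pos_P h T, fun h => ?_⟩,
    fun h => ⟨optimal_sig A, fun S' hS => ?_⟩, fun h => ⟨poptimal_sig A, fun S' hS => ?_⟩,
    fun h S hS => hard_O h hS⟩
  · by_contra hc
    obtain ⟨F, -, -, h3⟩ := hard_O hc (S' := ∅) (sig_clopen isClopen_empty)
    exact h3 (fun _ => false) (Set.notMem_empty _) (h _)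
  · by_contra hc
    obtain ⟨F, -, -, h3⟩ := hard_P hc (S' := ∅) (sig_clopen isClopen_empty)
    exact h3 (fun _ => false) (Set.notMem_empty _) (h _)
  · obtain ⟨F, h1, h2, h3⟩ := hard_O h hS
    refine ⟨F, h1, preim (fun y hy => ?_) h3⟩
    obtain ⟨f, hf⟩ := h2 y hy
    exact ⟨f, hf.optimal⟩
  · obtain ⟨F, h1, h2, h3⟩ := hard_P h hS
    exact ⟨F, h1, preim h2 h3⟩

end Pool.Agent.Work.MP_0532f7_lc.TD
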